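import Mathlib

/-!
# The algebraic inequality behind the planar theorem

`x² + y² + l² = 1`, `l ≥ 0`; `m = 1 - δ x`.
-/

set_option autoImplicit false

namespace Pool.Agent.H76.PL

/-- The weight of the correction term. -/
noncomputable def kk (γ δ : ℝ) : ℝ :=
  if 0 ≤ δ then max 0 ((γ * (1 + δ) - 1) / (1 + γ * (1 + δ)))
  else -max 0 ((γ * (1 - δ) - 1) / (1 + γ * (1 - δ)))

/-- the angular speed of `ζ` in normalised variables. -/
noncomputable def JJ (γ δ x l : ℝ) : ℝ :=
  1 + γ + γ * δ * (x - δ + δ * l ^ 2) / ((1 - δ * x) * (1 + l))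

/-- the derivative of the correction term (without the factor `k`) in normalised variables. -/
noncomputable def FF (γ δ x y l : ℝ) : ℝ :=
  γ * δ * y ^ 2 / ((1 - δ * x) * (1 + l) ^ 2) - (γ * δ + (1 + γ) * x) / (1 + l)

lemma one_sub_pos {δ x : ℝ} (hδ : |δ| < 1) (hx : x ^ 2 ≤ 1) : 0 < 1 - δ * x := by
  have h1 : |x| ≤ 1 := (sq_le_one_iff_abs_le_one x).mp hx
  have h2 : |δ * x| < 1 := by
    rw [abs_mul]
    calc |δ| * |x| ≤ |δ| * 1 := by gcongr
      _ < 1 := by linarith
  have := (abs_lt.mp h2).2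
  linarith

/-- The angular speed is `> 1`. -/
lemma JJ_gt_one {γ δ x y l : ℝ} (hγ : 0 < γ) (hδ : |δ| < 1) (hs : x ^ 2 + y ^ 2 + l ^ 2 = 1)
    (hl : 0 ≤ l) : 1 < JJ γ δ x l := by
  have hm : 0 < 1 - δ * x := one_sub_pos hδ (by nlinarith [sq_nonneg y, sq_nonneg l])
  have hd : δ ^ 2 < 1 := by
    have := (sq_lt_one_iff_abs_lt_one δ).mpr hδ
    exact this
  have hml : 0 < (1 - δ * x) * (1 + l) := by positivity
  unfold JJ
  have key : 0 < γ * ((1 - δ * x) * (1 + l)) + γ * δ * (x - δ + δ * l ^ 2) := by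
    have : γ * ((1 - δ * x) * (1 + l)) + γ * δ * (x - δ + δ * l ^ 2)
        = γ * ((1 - δ ^ 2) + l * (1 - δ * x) + δ ^ 2 * l ^ 2) := by ring
    rw [this]
    have h1 : 0 < 1 - δ ^ 2 := by linarith
    have h2 : 0 ≤ l * (1 - δ * x) := by positivity
    have h3 : 0 ≤ δ ^ 2 * l ^ 2 := by positivity
    exact mul_pos hγ (by linarith)
  have h2 : 0 < γ + γ * δ * (x - δ + δ * l ^ 2) / ((1 - δ * x) * (1 + l)) := by
    have : γ + γ * δ * (x - δ + δ * l ^ 2) / ((1 - δ * x) * (1 + l))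
        = (γ * ((1 - δ * x) * (1 + l)) + γ * δ * (x - δ + δ * l ^ 2))
          / ((1 - δ * x) * (1 + l)) := by
      field_simp
    rw [this]
    exact div_pos key hml
  linarith

/-- the inequality for `0 ≤ δ`, before division. -/
lemma main_poly {γ δ x y l k : ℝ} (hγ : 0 < γ) (hγ1 : γ ≤ 1) (hδ0 : 0 ≤ δ) (hδ : δ < 1)
    (hne : γ < 1 ∨ δ ≠ 0) (hs : x ^ 2 + y ^ 2 + l ^ 2 = 1) (hl : 0 ≤ l)
    (hk : k = max 0 ((γ * (1 + δ) - 1) / (1 + γ * (1 + δ)))) :
    0 ≤ (1 - γ) * (1 - δ * x) * (1 + l) ^ 2 - γ * δ * (x - δ + δ * l ^ 2) * (1 + l)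
        - k * (γ * δ * y ^ 2) + k * (γ * δ + (1 + γ) * x) * (1 - δ * x) * (1 + l) ∧
    (x < 1 →
    0 < (1 - γ) * (1 - δ * x) * (1 + l) ^ 2 - γ * δ * (x - δ + δ * l ^ 2) * (1 + l)
        - k * (γ * δ * y ^ 2) + k * (γ * δ + (1 + γ) * x) * (1 - δ * x) * (1 + l)) := by
  have hx2 : x ^ 2 ≤ 1 := by nlinarith [sq_nonneg y, sq_nonneg l]
  have hx1 : x ≤ 1 := by nlinarith
  have hx1' : -1 ≤ x := by nlinarith
  have hm : 0 < 1 - δ * x := one_sub_pos (abs_lt.mpr ⟨by linarith, hδ⟩) hx2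
  have ha : 0 < 1 + γ * (1 + δ) := by positivity
  rcases le_total (γ * (1 + δ)) 1 with h2 | h2
  · -- `a ≤ 2`, `k = 0`
    have hk0 : k = 0 := by
      rw [hk]
      apply max_eq_left
      apply div_nonpos_of_nonpos_of_nonneg <;> linarith
    subst hk0
    have hgd : 2 * (γ * δ) ≤ 1 := by nlinarith
    -- `Q x = (1-γ) - δ x + γ δ² x²`
    have hQ1 : (1 - δ) * (1 - γ * (1 + δ)) ≤ (1 - γ) - δ * x + γ * δ ^ 2 * x ^ 2 := by
      have : (1 - γ) - δ * x + γ * δ ^ 2 * x ^ 2 - (1 - δ) * (1 - γ * (1 + δ))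
          = δ * (1 - x) * (1 - γ * δ * (1 + x)) := by ring
      have h3 : 0 ≤ 1 - γ * δ * (1 + x) := by
        have : 0 ≤ γ * δ := by positivity
        nlinarith
      have h4 : 0 ≤ δ * (1 - x) * (1 - γ * δ * (1 + x)) :=
        mul_nonneg (mul_nonneg hδ0 (by linarith)) h3
      linarith
    have hE : (1 - γ) * (1 - δ * x) * (1 + l) ^ 2 - γ * δ * (x - δ + δ * l ^ 2) * (1 + l)
        - 0 * (γ * δ * y ^ 2) + 0 * (γ * δ + (1 + γ) * x) * (1 - δ * x) * (1 + l)
        = (1 + l) * ((1 - γ) * (1 - δ * x) * l + ((1 - γ) - δ * x + γ * δ ^ 2 * x ^ 2)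
          + γ * δ ^ 2 * y ^ 2) := by
      linear_combination (-(1 + l) * γ * δ ^ 2) * hs
    rw [hE]
    have h5 : 0 ≤ (1 - γ) * (1 - δ * x) * l :=
      mul_nonneg (mul_nonneg (by linarith) hm.le) hl
    have h6 : 0 ≤ γ * δ ^ 2 * y ^ 2 := by positivity
    have h7 : 0 ≤ (1 - δ) * (1 - γ * (1 + δ)) := mul_nonneg (by linarith) (by linarith)
    constructor
    · apply mul_nonneg (by linarith)
      linarith
    · intro hx
      apply mul_pos (by linarith)
      -- strictness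
      rcases eq_or_lt_of_le hδ0 with hd | hd
      · -- δ = 0
        subst hd
        have : γ < 1 := by
          rcases hne with h | h
          · exact h
          · exact absurd rfl h
        nlinarith
      · have h3 : 0 < 1 - γ * δ * (1 + x) := by
          have : 0 < γ * δ := by positivity
          nlinarith
        have h4 : 0 < δ * (1 - x) * (1 - γ * δ * (1 + x)) :=
          mul_pos (mul_pos hd (by linarith)) h3
        have : (1 - γ) - δ * x + γ * δ ^ 2 * x ^ 2 - (1 - δ) * (1 - γ * (1 + δ))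
          = δ * (1 - x) * (1 - γ * δ * (1 + x)) := by ring
        linarith
  · -- `a ≥ 2`
    have hδp : 0 < δ := by
      rcases eq_or_lt_of_le hδ0 with hd | hd
      · subst hd
        rcases hne with h | h
        · nlinarith
        · exact absurd rfl h
      · exact hd
    have hk1 : k = (γ * (1 + δ) - 1) / (1 + γ * (1 + δ)) := by
      rw [hk]
      apply max_eq_right
      apply div_nonneg <;> linarith
    have hk0 : 0 ≤ k := by rw [hk1]; apply div_nonneg <;> linarith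
    have hka : k * (1 + γ * (1 + δ)) = γ * (1 + δ) - 1 := by
      rw [hk1]; field_simp
    have hkδ : k ≤ δ := by
      rw [hk1, div_le_iff₀ ha]
      nlinarith [mul_nonneg hδ0 hγ.le]
    -- the linear factor
    set r0 : ℝ := (1 - γ) + k * (γ * δ) with hr0
    set r1 : ℝ := -(δ * (γ * δ - k * (1 + γ))) with hr1
    have hR1 : 0 < r0 + r1 := by
      have e1 : (r0 + r1) * (1 + γ * (1 + δ)) * (1 + δ)
          = (1 - δ) * (2 * δ - (1 - δ) * (2 * (γ * (1 + δ) - 1) + (γ * (1 + δ) - 1) ^ 2)) := by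
        have : (r0 + r1) * (1 + γ * (1 + δ))
          = (1 - γ - γ * δ ^ 2) * (1 + γ * (1 + δ))
            + (k * (1 + γ * (1 + δ))) * (δ * (1 + 2 * γ)) := by
          rw [hr0, hr1]; ring
        rw [this, hka]
        ring
      have h3 : 0 < (1 - δ) * (2 * δ - (1 - δ) * (2 * (γ * (1 + δ) - 1)
          + (γ * (1 + δ) - 1) ^ 2)) := by
        apply mul_pos (by linarith)
        set t := γ * (1 + δ) - 1 with ht
        have ht0 : 0 ≤ t := by rw [ht]; linarith
        have ht1 : t ≤ δ := by rw [ht]; nlinarith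
        have : 2 * t + t ^ 2 ≤ 2 * δ + δ ^ 2 := by nlinarith
        have : (1 - δ) * (2 * t + t ^ 2) ≤ (1 - δ) * (2 * δ + δ ^ 2) :=
          mul_le_mul_of_nonneg_left this (by linarith)
        nlinarith [mul_pos hδp hδp, mul_pos (mul_pos hδp hδp) hδp]
      rw [← e1] at h3
      have h4 : 0 < (1 + γ * (1 + δ)) * (1 + δ) := by positivity
      rw [mul_assoc] at h3
      exact (pos_iff_pos_of_mul_pos h3).mpr h4
    have hRm : 0 < r0 - r1 := by
      -- `r0 - r1 = (1+δ)(2-b-kb)/2`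
      have e1 : 2 * (r0 - r1)
          = (1 + δ) * (1 - γ * (1 - δ) - k * (1 + γ * (1 - δ)))
            + (1 - δ) * ((k * (1 + γ * (1 + δ))) - (γ * (1 + δ) - 1)) := by
        rw [hr0, hr1]; ring
      rw [hka] at e1
      have h3 : 0 < 1 - γ * (1 - δ) - k * (1 + γ * (1 - δ)) := by
        -- k ≤ δ / (2 + δ)
        have h4 : k * (2 + δ) ≤ δ := by
          have : k * (2 + δ) * (1 + γ * (1 + δ)) ≤ δ * (1 + γ * (1 + δ)) := by
            have : k * (2 + δ) * (1 + γ * (1 + δ)) = (γ * (1 + δ) - 1) * (2 + δ) := by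
              rw [← hka]; ring
            rw [this]
            nlinarith
          exact le_of_mul_le_mul_right this ha
        have h5 : γ * (1 - δ) ≤ 1 - δ := by nlinarith
        have h6 : k * (1 + γ * (1 - δ)) ≤ k * (2 - δ) :=
          mul_le_mul_of_nonneg_left (by linarith) hk0
        rcases eq_or_lt_of_le hk0 with h7 | h7
        · rw [← h7] at h6 ⊢
          linarith
        · nlinarith [mul_pos h7 hδp]
      have : 0 < (1 + δ) * (1 - γ * (1 - δ) - k * (1 + γ * (1 - δ))) := by positivity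
      linarith
    have hR : 0 < r0 + r1 * x := by
      have : r0 + r1 * x = (1 + x) / 2 * (r0 + r1) + (1 - x) / 2 * (r0 - r1) := by ring
      rw [this]
      rcases eq_or_lt_of_le hx1 with h | h
      · subst h; linarith
      · have : 0 < (1 - x) / 2 * (r0 - r1) := mul_pos (by linarith) hRm
        have : 0 ≤ (1 + x) / 2 * (r0 + r1) := mul_nonneg (by linarith) hR1.le
        linarith
    have hE : (1 - γ) * (1 - δ * x) * (1 + l) ^ 2 - γ * δ * (x - δ + δ * l ^ 2) * (1 + l)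
        - k * (γ * δ * y ^ 2) + k * (γ * δ + (1 + γ) * x) * (1 - δ * x) * (1 + l)
        = (1 + l) * ((1 - γ) * (1 - δ * x) * l + (1 - x) * (r0 + r1 * x)
          + γ * δ * (δ - k) * y ^ 2) + k * (γ * δ) * y ^ 2 * l := by
      rw [hr0, hr1]
      linear_combination (-(1 + l) * γ * δ ^ 2 ) * hs + ((1+l) * (1 - δ) * x) * hka
    rw [hE]
    have h5 : 0 ≤ (1 - γ) * (1 - δ * x) * l :=
      mul_nonneg (mul_nonneg (by linarith) hm.le) hl
    have h6 : 0 ≤ γ * δ * (δ - k) * y ^ 2 :=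
      mul_nonneg (mul_nonneg (by positivity) (by linarith)) (sq_nonneg y)
    have h7 : 0 ≤ k * (γ * δ) * y ^ 2 * l := by positivity
    constructor
    · have h8 : 0 ≤ (1 - x) * (r0 + r1 * x) := mul_nonneg (by linarith) hR.le
      have : 0 ≤ (1 + l) * ((1 - γ) * (1 - δ * x) * l + (1 - x) * (r0 + r1 * x)
          + γ * δ * (δ - k) * y ^ 2) := mul_nonneg (by linarith) (by linarith)
      linarith
    · intro hx
      have h8 : 0 < (1 - x) * (r0 + r1 * x) := mul_pos (by linarith) hR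
      have : 0 < (1 + l) * ((1 - γ) * (1 - δ * x) * l + (1 - x) * (r0 + r1 * x)
          + γ * δ * (δ - k) * y ^ 2) := mul_pos (by linarith) (by linarith)
      linarith

end Pool.Agent.H76.PL
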