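import Pool.Agent.H76.PL.Alg

/-!
# Periodic solutions of the profile equation
-/

set_option autoImplicit false
open MeasureTheory Metric Filter Topology Set

namespace Pool.Agent.H76.PL

/-- the main inequality in normalised variables. -/
lemma main_ineq {γ δ x y l : ℝ} (hγ : 0 < γ) (hγ1 : γ ≤ 1) (hδ : |δ| < 1)
    (hne : γ < 1 ∨ δ ≠ 0) (hs : x ^ 2 + y ^ 2 + l ^ 2 = 1) (hl : 0 ≤ l) :
    0 ≤ 2 - JJ γ δ x l - kk γ δ * FF γ δ x y l ∧
    (x ^ 2 < 1 → 0 < 2 - JJ γ δ x l - kk γ δ * FF γ δ x y l) := by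
  have hm : 0 < 1 - δ * x := one_sub_pos hδ (by nlinarith [sq_nonneg y, sq_nonneg l])
  have hl1 : 0 < 1 + l := by linarith
  have hden : 0 < (1 - δ * x) * (1 + l) ^ 2 := by positivity
  obtain ⟨hδ1, hδ2⟩ := abs_lt.mp hδ
  by_cases h0 : 0 ≤ δ
  · set k := kk γ δ with hk
    have hk' : k = max 0 ((γ * (1 + δ) - 1) / (1 + γ * (1 + δ))) := by
      rw [hk, kk, if_pos h0]
    obtain ⟨h1, h2⟩ := main_poly hγ hγ1 h0 hδ2 hne hs hl hk'
    have e : 2 - JJ γ δ x l - k * FF γ δ x y l =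
        ((1 - γ) * (1 - δ * x) * (1 + l) ^ 2 - γ * δ * (x - δ + δ * l ^ 2) * (1 + l)
        - k * (γ * δ * y ^ 2) + k * (γ * δ + (1 + γ) * x) * (1 - δ * x) * (1 + l))
        / ((1 - δ * x) * (1 + l) ^ 2) := by
      unfold JJ FF
      field_simp
      ring
    rw [e]
    refine ⟨div_nonneg h1 hden.le, fun hx => div_pos (h2 ?_) hden⟩
    nlinarith
  · set k := kk γ δ with hk
    have h0' : 0 ≤ -δ := by linarith
    have hk' : -k = max 0 ((γ * (1 + (-δ)) - 1) / (1 + γ * (1 + (-δ)))) := by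
      rw [hk, kk, if_neg h0, neg_neg]
      rfl
    have hne' : γ < 1 ∨ -δ ≠ 0 := by
      rcases hne with h | h
      · exact Or.inl h
      · exact Or.inr (neg_ne_zero.mpr h)
    have hs' : (-x) ^ 2 + y ^ 2 + l ^ 2 = 1 := by rw [neg_sq]; exact hs
    obtain ⟨h1, h2⟩ := main_poly hγ hγ1 h0' (by linarith) hne' hs' hl hk'
    have e : 2 - JJ γ δ x l - k * FF γ δ x y l =
        ((1 - γ) * (1 - (-δ) * (-x)) * (1 + l) ^ 2
        - γ * (-δ) * ((-x) - (-δ) + (-δ) * l ^ 2) * (1 + l)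
        - (-k) * (γ * (-δ) * y ^ 2)
        + (-k) * (γ * (-δ) + (1 + γ) * (-x)) * (1 - (-δ) * (-x)) * (1 + l))
        / ((1 - δ * x) * (1 + l) ^ 2) := by
      unfold JJ FF
      field_simp
      ring
    rw [e]
    refine ⟨div_nonneg h1 hden.le, fun hx => div_pos (h2 ?_) hden⟩
    nlinarith

/-- winding numbers are integers. -/
lemma winding {ζ ζ' : ℝ → ℂ} (h : ∀ t, HasDerivAt ζ (ζ' t) t) (hc : Continuous ζ')
    (hne : ∀ t, ζ t ≠ 0) (hper : ζ (2 * Real.pi) = ζ 0) :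
    ∃ j : ℤ, ∫ t in (0 : ℝ)..(2 * Real.pi), (ζ' t / ζ t).im = 2 * Real.pi * j := by
  have hζ : Continuous ζ := continuous_iff_continuousAt.mpr fun t => (h t).continuousAt
  have hq : Continuous fun t => ζ' t / ζ t := hc.div hζ hne
  set L : ℝ → ℂ := fun t => ∫ u in (0 : ℝ)..t, ζ' u / ζ u with hL
  have hL' : ∀ t, HasDerivAt L (ζ' t / ζ t) t := fun t =>
    intervalIntegral.integral_hasDerivAt_right (hq.intervalIntegrable _ _)
      (hq.stronglyMeasurableAtFilter _ _) hq.continuousAt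
  have hF : ∀ t, HasDerivAt (fun t => ζ t * Complex.exp (-L t)) 0 t := by
    intro t
    have h1 := (h t).mul ((hL' t).neg.cexp)
    refine h1.congr_deriv ?_
    simp only [Pi.neg_apply]
    have h2 : ζ t * (Complex.exp (-L t) * -(ζ' t / ζ t)) = -(Complex.exp (-L t) * ζ' t) := by
      have := hne t
      field_simp
    rw [h2]
    ring
  have hconst := is_const_of_deriv_eq_zero (fun t => (hF t).differentiableAt)
    (fun t => (hF t).deriv) (2 * Real.pi) 0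
  have hL0 : L 0 = 0 := by simp [hL]
  simp only [hL0, neg_zero, Complex.exp_zero, mul_one, hper] at hconst
  have h1 : Complex.exp (-L (2 * Real.pi)) = 1 := by
    have := hne 0
    field_simp at hconst
    exact hconst
  obtain ⟨n, hn⟩ := Complex.exp_eq_one_iff.mp h1
  refine ⟨-n, ?_⟩
  have h2 : (∫ t in (0 : ℝ)..(2 * Real.pi), (ζ' t / ζ t).im) = (L (2 * Real.pi)).im := by
    rw [hL]
    have := Complex.imCLM.intervalIntegral_comp_comm
      (hq.intervalIntegrable (μ := volume) 0 (2 * Real.pi))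
    simpa using this
  rw [h2]
  have h3 : L (2 * Real.pi) = -(n * (2 * Real.pi * Complex.I)) := by
    rw [← hn]; ring
  rw [h3]
  simp
  ring


section pointwise

/-- `b²|c|² + |s|²`. -/
noncomputable def nn (b c1 c2 s1 s2 : ℝ) : ℝ := b ^ 2 * (c1 ^ 2 + c2 ^ 2) + (s1 ^ 2 + s2 ^ 2)

noncomputable def xx (b c1 c2 s1 s2 : ℝ) : ℝ :=
  (b ^ 2 * (c1 ^ 2 + c2 ^ 2) - (s1 ^ 2 + s2 ^ 2)) / nn b c1 c2 s1 s2

noncomputable def yy (b c1 c2 s1 s2 : ℝ) : ℝ := 2 * (b * (c1 * s1 + c2 * s2)) / nn b c1 c2 s1 s2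

noncomputable def ll (b c1 c2 s1 s2 : ℝ) : ℝ := 2 * (b * (c1 * s2 - c2 * s1)) / nn b c1 c2 s1 s2

variable {b c1 c2 s1 s2 : ℝ}

lemma hxe (hn : 0 < nn b c1 c2 s1 s2) :
    b ^ 2 * (c1 ^ 2 + c2 ^ 2) = nn b c1 c2 s1 s2 * (1 + xx b c1 c2 s1 s2) / 2 := by
  have h1 : nn b c1 c2 s1 s2 * xx b c1 c2 s1 s2 = b ^ 2 * (c1 ^ 2 + c2 ^ 2) - (s1 ^ 2 + s2 ^ 2) :=
    mul_div_cancel₀ _ hn.ne'
  have h2 : nn b c1 c2 s1 s2 = b ^ 2 * (c1 ^ 2 + c2 ^ 2) + (s1 ^ 2 + s2 ^ 2) := rfl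
  linarith

lemma hse (hn : 0 < nn b c1 c2 s1 s2) :
    (s1 ^ 2 + s2 ^ 2) = nn b c1 c2 s1 s2 * (1 - xx b c1 c2 s1 s2) / 2 := by
  have h1 : nn b c1 c2 s1 s2 * xx b c1 c2 s1 s2 = b ^ 2 * (c1 ^ 2 + c2 ^ 2) - (s1 ^ 2 + s2 ^ 2) :=
    mul_div_cancel₀ _ hn.ne'
  have h2 : nn b c1 c2 s1 s2 = b ^ 2 * (c1 ^ 2 + c2 ^ 2) + (s1 ^ 2 + s2 ^ 2) := rfl
  linarith

lemma hye (hn : 0 < nn b c1 c2 s1 s2) :
    b * (c1 * s1 + c2 * s2) = nn b c1 c2 s1 s2 * yy b c1 c2 s1 s2 / 2 := by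
  have h1 : nn b c1 c2 s1 s2 * yy b c1 c2 s1 s2 = 2 * (b * (c1 * s1 + c2 * s2)) :=
    mul_div_cancel₀ _ hn.ne'
  linarith

lemma hle (hn : 0 < nn b c1 c2 s1 s2) :
    b * (c1 * s2 - c2 * s1) = nn b c1 c2 s1 s2 * ll b c1 c2 s1 s2 / 2 := by
  have h1 : nn b c1 c2 s1 s2 * ll b c1 c2 s1 s2 = 2 * (b * (c1 * s2 - c2 * s1)) :=
    mul_div_cancel₀ _ hn.ne'
  linarith

lemma sph (hn : 0 < nn b c1 c2 s1 s2) :
    xx b c1 c2 s1 s2 ^ 2 + yy b c1 c2 s1 s2 ^ 2 + ll b c1 c2 s1 s2 ^ 2 = 1 := by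
  have a1 := hxe hn
  have a2 := hse hn
  have a3 := hye hn
  have a4 := hle hn
  have a5 : (b ^ 2 * (c1 ^ 2 + c2 ^ 2)) * (s1 ^ 2 + s2 ^ 2)
      = (b * (c1 * s1 + c2 * s2)) ^ 2 + (b * (c1 * s2 - c2 * s1)) ^ 2 := by ring
  rw [a1, a2, a3, a4] at a5
  have e1 : nn b c1 c2 s1 s2 ^ 2 * (xx b c1 c2 s1 s2 ^ 2 + yy b c1 c2 s1 s2 ^ 2
      + ll b c1 c2 s1 s2 ^ 2) = nn b c1 c2 s1 s2 ^ 2 * 1 := by
    linear_combination (-4) * a5
  exact mul_left_cancel₀ (by positivity) e1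

/-- the pointwise computation of the angular speed. -/
lemma J_alg {γ δ a b n x y l w C S R I : ℝ} (hn : 0 < n) (hm : 0 < 1 - δ * x) (hl : 0 ≤ l)
    (ha : a = 1 + γ * (1 + δ)) (hb : b = 1 + γ * (1 - δ))
    (hC : C = n * (1 + x) / 2) (hS : S = n * (1 - x) / 2) (hR : R = n * y / 2)
    (hI : I = n * l / 2) (hw : w * (1 - δ * x) = -(2 * γ * δ ^ 2) * y)
    (hs : x ^ 2 + y ^ 2 + l ^ 2 = 1) :
    ((a + b) * I + b * S + a * C + w * R) / (n * (1 + l)) = JJ γ δ x l := by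
  have hl1 : 0 < 1 + l := by linarith
  have hd : (0 : ℝ) < (1 - δ * x) * (1 + l) := by positivity
  have e : JJ γ δ x l = ((1 + γ) * ((1 - δ * x) * (1 + l)) + γ * δ * (x - δ + δ * l ^ 2))
      / ((1 - δ * x) * (1 + l)) := by
    unfold JJ; field_simp
  rw [e, div_eq_div_iff (by positivity) hd.ne', hC, hS, hR, hI, ha, hb]
  linear_combination (n * y * (1 + l) / 2) * hw + (-(n * (1 + l) * γ * δ ^ 2)) * hs

/-- the pointwise computation of the derivative of the correction. -/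
lemma F_alg {γ δ a b n x y l w C S R I k : ℝ} (hn : 0 < n) (hm : 0 < 1 - δ * x) (hl : 0 ≤ l)
    (ha : a = 1 + γ * (1 + δ)) (hb : b = 1 + γ * (1 - δ))
    (hC : C = n * (1 + x) / 2) (hS : S = n * (1 - x) / 2) (hR : R = n * y / 2)
    (hI : I = n * l / 2) (hw : w * (1 - δ * x) = -(2 * γ * δ ^ 2) * y) :
    (k * (b * S - a * C - w * R) * (n * (1 + l))
      - k * R * (2 * (b - a) * R - 2 * w * S - 2 * w * I)) / (n * (1 + l)) ^ 2
      = k * FF γ δ x y l := by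
  have hl1 : 0 < 1 + l := by linarith
  have hd : (0 : ℝ) < (1 - δ * x) * (1 + l) ^ 2 := by positivity
  have e : k * FF γ δ x y l = k * (γ * δ * y ^ 2 - (γ * δ + (1 + γ) * x) * ((1 - δ * x) * (1 + l)))
      / ((1 - δ * x) * (1 + l) ^ 2) := by
    unfold FF; field_simp
  rw [e, div_eq_div_iff (by positivity) hd.ne', hC, hS, hR, hI, ha, hb]
  linear_combination (-(k * n ^ 2 * y * x * (1 + l) ^ 2 / 2)) * hw

end pointwise

/-- **No periodic profile with `0 < γ ≤ 1`** (except `γ = 1`, `δ = 0`). -/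
theorem circ {γ δ : ℝ} (hγ : 0 < γ) (hγ1 : γ ≤ 1) (hδ : |δ| < 1) (hne : γ < 1 ∨ δ ≠ 0)
    {c1 c2 s1 s2 ω : ℝ → ℝ} {a b : ℝ} (ha : a = 1 + γ * (1 + δ)) (hb : b = 1 + γ * (1 - δ))
    (hc1 : ∀ t, HasDerivAt c1 (s1 t) t) (hc2 : ∀ t, HasDerivAt c2 (s2 t) t)
    (hs1 : ∀ t, HasDerivAt s1 (-(a * b) * c1 t - ω t * s1 t) t)
    (hs2 : ∀ t, HasDerivAt s2 (-(a * b) * c2 t - ω t * s2 t) t)
    (hω : Continuous ω)
    (hωe : ∀ t, ω t * ((b ^ 2 * (c1 t ^ 2 + c2 t ^ 2) + (s1 t ^ 2 + s2 t ^ 2))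
      - δ * (b ^ 2 * (c1 t ^ 2 + c2 t ^ 2) - (s1 t ^ 2 + s2 t ^ 2)))
      = -(4 * γ * δ ^ 2) * (b * (c1 t * s1 t + c2 t * s2 t)))
    (hN : ∀ t, 0 < nn b (c1 t) (c2 t) (s1 t) (s2 t))
    (hI : ∀ t, 0 ≤ c1 t * s2 t - c2 t * s1 t)
    (p1 : c1 (2 * Real.pi) = c1 0) (p2 : c2 (2 * Real.pi) = c2 0)
    (p3 : s1 (2 * Real.pi) = s1 0) (p4 : s2 (2 * Real.pi) = s2 0) : False := by
  have cc1 : Continuous c1 := continuous_iff_continuousAt.mpr fun t => (hc1 t).continuousAt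
  have cc2 : Continuous c2 := continuous_iff_continuousAt.mpr fun t => (hc2 t).continuousAt
  have cs1 : Continuous s1 := continuous_iff_continuousAt.mpr fun t => (hs1 t).continuousAt
  have cs2 : Continuous s2 := continuous_iff_continuousAt.mpr fun t => (hs2 t).continuousAt
  have hb0 : 0 < b := by
    rw [hb]
    have := (abs_lt.mp hδ).2
    have : 0 < γ * (1 - δ) := mul_pos hγ (by linarith)
    linarith
  have ha0 : 0 < a := by
    rw [ha]
    have := (abs_lt.mp hδ).1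
    have : 0 < γ * (1 + δ) := mul_pos hγ (by linarith)
    linarith
  obtain ⟨hδ1, hδ2⟩ := abs_lt.mp hδ
  -- notation
  obtain ⟨N, hNd⟩ : ∃ N : ℝ → ℝ, N = fun t => nn b (c1 t) (c2 t) (s1 t) (s2 t) := ⟨_, rfl⟩
  obtain ⟨x, hx⟩ : ∃ x : ℝ → ℝ, x = fun t => xx b (c1 t) (c2 t) (s1 t) (s2 t) := ⟨_, rfl⟩
  obtain ⟨y, hy⟩ : ∃ y : ℝ → ℝ, y = fun t => yy b (c1 t) (c2 t) (s1 t) (s2 t) := ⟨_, rfl⟩
  obtain ⟨l, hl⟩ : ∃ l : ℝ → ℝ, l = fun t => ll b (c1 t) (c2 t) (s1 t) (s2 t) := ⟨_, rfl⟩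
  have hN0 : ∀ t, 0 < N t := fun t => by rw [hNd]; exact hN t
  have hxe' : ∀ t, b ^ 2 * (c1 t ^ 2 + c2 t ^ 2) = N t * (1 + x t) / 2 := fun t => by
    rw [hNd, hx]; exact hxe (hN t)
  have hse' : ∀ t, (s1 t ^ 2 + s2 t ^ 2) = N t * (1 - x t) / 2 := fun t => by
    rw [hNd, hx]; exact hse (hN t)
  have hye' : ∀ t, b * (c1 t * s1 t + c2 t * s2 t) = N t * y t / 2 := fun t => by
    rw [hNd, hy]; exact hye (hN t)
  have hle' : ∀ t, b * (c1 t * s2 t - c2 t * s1 t) = N t * l t / 2 := fun t => by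
    rw [hNd, hl]; exact hle (hN t)
  have hl0 : ∀ t, 0 ≤ l t := by
    intro t
    have h1 := hN0 t
    have h2 := hI t
    have h3 := hle' t
    have h4 : 0 ≤ N t * l t / 2 := by rw [← h3]; positivity
    by_contra h
    push Not at h
    nlinarith
  have hsph : ∀ t, x t ^ 2 + y t ^ 2 + l t ^ 2 = 1 := fun t => by
    rw [hx, hy, hl]; exact sph (hN t)
  have hm : ∀ t, 0 < 1 - δ * x t := fun t =>
    one_sub_pos hδ (by nlinarith [hsph t, sq_nonneg (y t), sq_nonneg (l t)])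
  have hωn : ∀ t, ω t * (1 - δ * x t) = -(2 * γ * δ ^ 2) * y t := by
    intro t
    have e0 := hωe t
    rw [hye' t] at e0
    rw [hxe' t, hse' t] at e0
    have e2 : N t * (ω t * (1 - δ * x t)) = N t * (-(2 * γ * δ ^ 2) * y t) := by
      linear_combination e0
    exact mul_left_cancel₀ (hN0 t).ne' e2
  -- the complex curve
  obtain ⟨ζ, hζ⟩ : ∃ ζ : ℝ → ℂ, ζ = fun t => ((b * c1 t + s2 t : ℝ) : ℂ)
      + ((b * c2 t - s1 t : ℝ) : ℂ) * Complex.I := ⟨_, rfl⟩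
  obtain ⟨ζ', hζ'⟩ : ∃ ζ' : ℝ → ℂ,
    ζ' = fun t => ((b * s1 t + (-(a * b) * c2 t - ω t * s2 t) : ℝ) : ℂ)
    + ((b * s2 t - (-(a * b) * c1 t - ω t * s1 t) : ℝ) : ℂ) * Complex.I := ⟨_, rfl⟩
  have hζd : ∀ t, HasDerivAt ζ (ζ' t) t := by
    intro t
    have h1 := (((hc1 t).const_mul b).add (hs2 t)).ofReal_comp
    have h2 := ((((hc2 t).const_mul b).sub (hs1 t)).ofReal_comp).mul_const Complex.I
    rw [hζ, hζ']
    exact h1.add h2
  have hζc : Continuous ζ' := by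
    rw [hζ']
    fun_prop
  have hQe : ∀ t, (b * c1 t + s2 t) ^ 2 + (b * c2 t - s1 t) ^ 2 = N t * (1 + l t) := by
    intro t
    linear_combination hxe' t + hse' t + 2 * hle' t
  have hQ : ∀ t, 0 < N t * (1 + l t) := fun t => mul_pos (hN0 t) (by linarith [hl0 t])
  have hζn : ∀ t, Complex.normSq (ζ t) = N t * (1 + l t) := by
    intro t
    rw [hζ, Complex.normSq_add_mul_I]
    exact hQe t
  have hζ0 : ∀ t, ζ t ≠ 0 := by
    intro t h
    have := hζn t
    rw [h, map_zero] at this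
    exact absurd this (hQ t).ne
  have hζp : ζ (2 * Real.pi) = ζ 0 := by
    rw [hζ]
    simp only [p1, p2, p3, p4]
  obtain ⟨j, hj⟩ := winding hζd hζc hζ0 hζp
  -- the angular speed
  have hJ : ∀ t, (ζ' t / ζ t).im = JJ γ δ (x t) (l t) := by
    intro t
    have e1 : (ζ' t / ζ t).im = ((b * c1 t + s2 t) * (b * s2 t - (-(a * b) * c1 t - ω t * s1 t))
        - (b * c2 t - s1 t) * (b * s1 t + (-(a * b) * c2 t - ω t * s2 t))) / (N t * (1 + l t)) := by
      rw [Complex.div_im, hζn, hζ, hζ']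
      simp only [Complex.add_re, Complex.ofReal_re, Complex.mul_re, Complex.I_re,
        Complex.I_im, Complex.ofReal_im, Complex.add_im, Complex.mul_im]
      ring
    have e2 : (b * c1 t + s2 t) * (b * s2 t - (-(a * b) * c1 t - ω t * s1 t))
        - (b * c2 t - s1 t) * (b * s1 t + (-(a * b) * c2 t - ω t * s2 t))
        = (a + b) * (b * (c1 t * s2 t - c2 t * s1 t)) + b * (s1 t ^ 2 + s2 t ^ 2)
          + a * (b ^ 2 * (c1 t ^ 2 + c2 t ^ 2)) + ω t * (b * (c1 t * s1 t + c2 t * s2 t)) := by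
      ring
    rw [e1, e2]
    exact J_alg (hN0 t) (hm t) (hl0 t) ha hb (hxe' t) (hse' t) (hye' t) (hle' t) (hωn t) (hsph t)
  -- the correction
  obtain ⟨F, hF⟩ : ∃ F : ℝ → ℝ, F = fun t => kk γ δ * (b * (c1 t * s1 t + c2 t * s2 t))
      / ((b * c1 t + s2 t) ^ 2 + (b * c2 t - s1 t) ^ 2) := ⟨_, rfl⟩
  have hFd : ∀ t, HasDerivAt F (kk γ δ * FF γ δ (x t) (y t) (l t)) t := by
    intro t
    have dR : HasDerivAt (fun t => kk γ δ * (b * (c1 t * s1 t + c2 t * s2 t)))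
        (kk γ δ * (b * ((s1 t * s1 t + c1 t * (-(a * b) * c1 t - ω t * s1 t))
          + (s2 t * s2 t + c2 t * (-(a * b) * c2 t - ω t * s2 t))))) t :=
      ((((hc1 t).mul (hs1 t)).add ((hc2 t).mul (hs2 t))).const_mul b).const_mul _
    have dQ : HasDerivAt (fun t => (b * c1 t + s2 t) ^ 2 + (b * c2 t - s1 t) ^ 2)
        (2 * (b * c1 t + s2 t) * (b * s1 t + (-(a * b) * c2 t - ω t * s2 t))
        + 2 * (b * c2 t - s1 t) * (b * s2 t - (-(a * b) * c1 t - ω t * s1 t))) t := by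
      have q1 := (((hc1 t).const_mul b).add (hs2 t)).pow 2
      have q2 := (((hc2 t).const_mul b).sub (hs1 t)).pow 2
      refine (q1.add q2).congr_deriv ?_
      simp
    have dF := dR.div dQ (by rw [hQe]; exact (hQ t).ne')
    rw [hF]
    refine dF.congr_deriv ?_
    have r1 : kk γ δ * (b * ((s1 t * s1 t + c1 t * (-(a * b) * c1 t - ω t * s1 t))
          + (s2 t * s2 t + c2 t * (-(a * b) * c2 t - ω t * s2 t))))
        = kk γ δ * (b * (s1 t ^ 2 + s2 t ^ 2) - a * (b ^ 2 * (c1 t ^ 2 + c2 t ^ 2))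
          - ω t * (b * (c1 t * s1 t + c2 t * s2 t))) := by ring
    have r2 : (2 * (b * c1 t + s2 t) * (b * s1 t + (-(a * b) * c2 t - ω t * s2 t))
        + 2 * (b * c2 t - s1 t) * (b * s2 t - (-(a * b) * c1 t - ω t * s1 t)))
        = 2 * (b - a) * (b * (c1 t * s1 t + c2 t * s2 t)) - 2 * ω t * (s1 t ^ 2 + s2 t ^ 2)
          - 2 * ω t * (b * (c1 t * s2 t - c2 t * s1 t)) := by ring
    rw [r1, r2, hQe t]
    exact F_alg (hN0 t) (hm t) (hl0 t) ha hb (hxe' t) (hse' t) (hye' t) (hle' t) (hωn t)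
  -- continuity
  have hxc : Continuous x := by
    rw [hx]
    unfold xx nn
    refine Continuous.div (by fun_prop) (by fun_prop) fun t => (hN t).ne'
  have hyc : Continuous y := by
    rw [hy]
    unfold yy nn
    refine Continuous.div (by fun_prop) (by fun_prop) fun t => (hN t).ne'
  have hlc : Continuous l := by
    rw [hl]
    unfold ll nn
    refine Continuous.div (by fun_prop) (by fun_prop) fun t => (hN t).ne'
  have hJc : Continuous fun t => JJ γ δ (x t) (l t) := by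
    unfold JJ
    refine Continuous.add (by fun_prop) (Continuous.div (by fun_prop) (by fun_prop) fun t => ?_)
    have := hm t
    have := hl0 t
    positivity
  have hFc : Continuous fun t => FF γ δ (x t) (y t) (l t) := by
    unfold FF
    refine Continuous.sub (Continuous.div (by fun_prop) (by fun_prop) fun t => ?_)
      (Continuous.div (by fun_prop) (by fun_prop) fun t => ?_)
    · have := hm t
      have := hl0 t
      positivity
    · have := hl0 t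
      positivity
  have hFint : ∫ t in (0 : ℝ)..(2 * Real.pi), kk γ δ * FF γ δ (x t) (y t) (l t) = 0 := by
    rw [intervalIntegral.integral_eq_sub_of_hasDerivAt (fun t _ => hFd t)
      ((continuous_const.mul hFc).intervalIntegrable _ _)]
    rw [hF]
    simp only [p1, p2, p3, p4, sub_self]
  have hJint : ∫ t in (0 : ℝ)..(2 * Real.pi), JJ γ δ (x t) (l t) = 2 * Real.pi * j := by
    rw [← hj]
    exact intervalIntegral.integral_congr fun t _ => (hJ t).symm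
  have hpi : 0 < 2 * Real.pi := by positivity
  -- `j > 1`
  have hj1 : (1 : ℝ) < j := by
    have h1 : 0 < ∫ t in (0 : ℝ)..(2 * Real.pi), (JJ γ δ (x t) (l t) - 1) := by
      apply intervalIntegral.intervalIntegral_pos_of_pos
        ((hJc.sub continuous_const).intervalIntegrable _ _) _ hpi
      intro t
      exact sub_pos.mpr (JJ_gt_one hγ hδ (hsph t) (hl0 t))
    rw [intervalIntegral.integral_sub (hJc.intervalIntegrable _ _)
      (continuous_const.intervalIntegrable _ _), hJint] at h1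
    simp only [intervalIntegral.integral_const, sub_zero, smul_eq_mul, mul_one] at h1
    nlinarith
  have hj2 : (2 : ℝ) ≤ j := by
    have : (1 : ℤ) < j := by exact_mod_cast hj1
    exact_mod_cast this
  -- strictness somewhere
  obtain ⟨t0, ht0, ht1⟩ : ∃ t0 ∈ Icc (0 : ℝ) (2 * Real.pi), x t0 ^ 2 < 1 := by
    by_contra hcon
    push Not at hcon
    have hx1 : ∀ t ∈ Icc (0 : ℝ) (2 * Real.pi), x t ^ 2 = 1 := by
      intro t ht
      apply le_antisymm _ (hcon t ht)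
      nlinarith [hsph t, sq_nonneg (y t), sq_nonneg (l t)]
    -- `y = 0`
    have hy0 : ∀ t ∈ Icc (0 : ℝ) (2 * Real.pi), y t = 0 := by
      intro t ht
      have h1 := hx1 t ht
      have h2 := hsph t
      have h3 : y t ^ 2 = 0 := by nlinarith [sq_nonneg (y t), sq_nonneg (l t)]
      exact pow_eq_zero_iff (two_ne_zero) |>.mp h3
    -- derivative of `R` at the interior point `π`
    have hRz : ∀ t ∈ Icc (0 : ℝ) (2 * Real.pi), b * (c1 t * s1 t + c2 t * s2 t) = 0 := by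
      intro t ht
      rw [hye' t, hy0 t ht]; ring
    have hpi1 : Real.pi ∈ Ioo (0 : ℝ) (2 * Real.pi) := ⟨Real.pi_pos, by linarith [Real.pi_pos]⟩
    have dR : HasDerivAt (fun t => b * (c1 t * s1 t + c2 t * s2 t))
        (b * ((s1 Real.pi * s1 Real.pi + c1 Real.pi * (-(a * b) * c1 Real.pi
            - ω Real.pi * s1 Real.pi))
          + (s2 Real.pi * s2 Real.pi + c2 Real.pi * (-(a * b) * c2 Real.pi
            - ω Real.pi * s2 Real.pi)))) Real.pi :=
      ((((hc1 _).mul (hs1 _)).add ((hc2 _).mul (hs2 _))).const_mul b)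
    have dR0 : HasDerivAt (fun t => b * (c1 t * s1 t + c2 t * s2 t)) 0 Real.pi := by
      apply (hasDerivAt_const Real.pi (0 : ℝ)).congr_of_eventuallyEq
      filter_upwards [Icc_mem_nhds hpi1.1 hpi1.2] with t ht
      exact hRz t ht
    have h0 := dR.unique dR0
    have h1 : b * (s1 Real.pi ^ 2 + s2 Real.pi ^ 2)
        - a * (b ^ 2 * (c1 Real.pi ^ 2 + c2 Real.pi ^ 2)) = 0 := by
      have h2 := hRz Real.pi ⟨hpi1.1.le, hpi1.2.le⟩
      linear_combination h0 + ω Real.pi * h2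
    rw [hse', hxe'] at h1
    have h2 := hx1 Real.pi ⟨hpi1.1.le, hpi1.2.le⟩
    have h3 : N Real.pi * (b * (1 - x Real.pi) - a * (1 + x Real.pi)) = 0 := by
      linear_combination 2 * h1
    have h4 : b * (1 - x Real.pi) - a * (1 + x Real.pi) = 0 := by
      rcases mul_eq_zero.mp h3 with h | h
      · exact absurd h (hN0 _).ne'
      · exact h
    have h5 : (x Real.pi - 1) * (x Real.pi + 1) = 0 := by linear_combination h2
    rcases mul_eq_zero.mp h5 with h | h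
    · have h6 : x Real.pi = 1 := by linarith
      rw [h6] at h4
      linarith
    · have h6 : x Real.pi = -1 := by linarith
      rw [h6] at h4
      linarith
  have hG : ∀ t, 0 ≤ 2 - JJ γ δ (x t) (l t) - kk γ δ * FF γ δ (x t) (y t) (l t) := fun t =>
    (main_ineq hγ hγ1 hδ hne (hsph t) (hl0 t)).1
  have hGc : Continuous fun t =>
      2 - JJ γ δ (x t) (l t) - kk γ δ * FF γ δ (x t) (y t) (l t) :=
    (continuous_const.sub hJc).sub (continuous_const.mul hFc)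
  have hpos : 0 < ∫ t in (0 : ℝ)..(2 * Real.pi),
      (2 - JJ γ δ (x t) (l t) - kk γ δ * FF γ δ (x t) (y t) (l t)) :=
    intervalIntegral.integral_pos hpi hGc.continuousOn (fun t _ => hG t)
      ⟨t0, ht0, (main_ineq hγ hγ1 hδ hne (hsph t0) (hl0 t0)).2 ht1⟩
  have i1 : IntervalIntegrable (fun _ : ℝ => (2 : ℝ)) volume 0 (2 * Real.pi) :=
    continuous_const.intervalIntegrable _ _
  have i2 : IntervalIntegrable (fun t => JJ γ δ (x t) (l t)) volume 0 (2 * Real.pi) :=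
    hJc.intervalIntegrable _ _
  have i12 : IntervalIntegrable (fun t => 2 - JJ γ δ (x t) (l t)) volume 0 (2 * Real.pi) :=
    (continuous_const.sub hJc).intervalIntegrable _ _
  have i3 : IntervalIntegrable (fun t => kk γ δ * FF γ δ (x t) (y t) (l t)) volume 0
      (2 * Real.pi) := (continuous_const.mul hFc).intervalIntegrable _ _
  rw [intervalIntegral.integral_sub i12 i3, intervalIntegral.integral_sub i1 i2, hFint,
    hJint] at hpos
  simp only [intervalIntegral.integral_const, sub_zero, smul_eq_mul] at hpos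
  nlinarith

end Pool.Agent.H76.PL
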