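import Mathlib

/-!
# The lemma of du Bois-Reymond
-/

set_option autoImplicit false
open MeasureTheory Metric Filter Topology Set
open scoped ContDiff

namespace Pool.Agent.H76.PL

/-- a normalised bump function in an interval. -/
lemma exists_bump {c d : ℝ} (hcd : c < d) : ∃ ρ : ℝ → ℝ, ContDiff ℝ ∞ ρ ∧ HasCompactSupport ρ ∧
    tsupport ρ ⊆ Ioo c d ∧ (∀ t, 0 ≤ ρ t) ∧ 0 < ρ ((c + d) / 2) ∧ ∫ t, ρ t = 1 := by
  set m := (c + d) / 2 with hm
  set r := (d - c) / 4 with hr
  have hr0 : 0 < r := by rw [hr]; linarith
  let f : ContDiffBump m := ⟨r / 2, r, by positivity, by linarith⟩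
  refine ⟨f.normed volume, f.contDiff_normed, f.hasCompactSupport_normed, ?_, f.nonneg_normed, ?_,
    f.integral_normed⟩
  · rw [f.tsupport_normed_eq]
    intro t ht
    rw [Real.closedBall_eq_Icc] at ht
    have h1 : f.rOut = r := rfl
    rw [h1] at ht
    constructor
    · have := ht.1; rw [hm, hr] at this; linarith
    · have := ht.2; rw [hm, hr] at this; linarith
  · have h1 : m ∈ Function.support (f.normed volume) := by
      rw [f.support_normed_eq]
      exact mem_ball_self hr0
    exact lt_of_le_of_ne (f.nonneg_normed _) (Ne.symm h1)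

lemma dbr {F : ℝ → ℝ} (hF : Continuous F) {c d : ℝ} (hcd : c < d)
    (h : ∀ ψ : ℝ → ℝ, ContDiff ℝ ∞ ψ → HasCompactSupport ψ → tsupport ψ ⊆ Ioo c d →
      ∫ t, F t * deriv ψ t = 0) :
    ∃ C : ℝ, ∀ t ∈ Ioo c d, F t = C := by
  obtain ⟨ρ, hρ, hρc, hρs, hρ0, -, hρ1⟩ := exists_bump hcd
  set C := ∫ t, F t * ρ t with hC
  refine ⟨C, ?_⟩
  have key : ∀ φ : ℝ → ℝ, ContDiff ℝ ∞ φ → HasCompactSupport φ → tsupport φ ⊆ Ioo c d →
      ∫ t, φ t • (F t - C) = 0 := by
    intro φ hφ hφc hφs
    set I := ∫ t, φ t with hI
    -- a compact interval containing both supports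
    have hK : IsCompact (tsupport φ ∪ tsupport ρ) := hφc.isCompact.union hρc.isCompact
    have hKs : tsupport φ ∪ tsupport ρ ⊆ Ioo c d := union_subset hφs hρs
    have hne : (tsupport φ ∪ tsupport ρ).Nonempty := by
      by_contra hcon
      rw [not_nonempty_iff_eq_empty, union_empty_iff] at hcon
      have h1 : ρ = 0 := tsupport_eq_empty_iff.mp hcon.2
      rw [h1] at hρ1
      simp at hρ1
    obtain ⟨c', hc', hc'm⟩ := hK.exists_isLeast hne
    obtain ⟨d', hd', hd'm⟩ := hK.exists_isGreatest hne
    have hc1 : c < c' := (hKs hc').1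
    have hd1 : d' < d := (hKs hd').2
    have hg : Continuous (fun t => φ t - I * ρ t) := by
      have := hφ.continuous; have := hρ.continuous; fun_prop
    set ψ : ℝ → ℝ := fun t => ∫ s in c..t, (φ s - I * ρ s) with hψ
    have hψd : ∀ t, HasDerivAt ψ (φ t - I * ρ t) t := fun t =>
      intervalIntegral.integral_hasDerivAt_right (hg.intervalIntegrable _ _)
        (hg.stronglyMeasurableAtFilter _ _) hg.continuousAt
    have hψ' : deriv ψ = fun t => φ t - I * ρ t := funext fun t => (hψd t).deriv
    have hψs : ContDiff ℝ ∞ ψ := by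
      rw [contDiff_infty_iff_deriv]
      refine ⟨fun t => (hψd t).differentiableAt, ?_⟩
      rw [hψ']
      exact hφ.sub (contDiff_const.mul hρ)
    have hzero : ∀ t, t ∉ Icc c' d' → φ t - I * ρ t = 0 := by
      intro t ht
      have h1 : t ∉ tsupport φ ∪ tsupport ρ := fun hmem => ht ⟨hc'm hmem, hd'm hmem⟩
      rw [mem_union, not_or] at h1
      rw [image_eq_zero_of_notMem_tsupport h1.1, image_eq_zero_of_notMem_tsupport h1.2]
      ring
    have htot : ∫ s in c..d, (φ s - I * ρ s) = 0 := by
      have e1 : ∫ s in c..d, (φ s - I * ρ s) = ∫ s, (φ s - I * ρ s) := by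
        rw [intervalIntegral.integral_of_le hcd.le]
        apply setIntegral_eq_integral_of_forall_compl_eq_zero
        intro t ht
        apply hzero
        intro hmem
        exact ht ⟨by linarith [hmem.1], by linarith [hmem.2]⟩
      rw [e1, integral_sub (hφ.continuous.integrable_of_hasCompactSupport hφc)
        ((hρ.continuous.integrable_of_hasCompactSupport hρc).const_mul I), integral_const_mul, hρ1]
      ring
    have hψz : ∀ t, t ∉ Icc c' d' → ψ t = 0 := by
      intro t ht
      rcases lt_or_ge t c' with h1 | h1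
      · rw [hψ]
        simp only
        apply intervalIntegral.integral_zero_ae
        refine Eventually.of_forall fun s hs => hzero s ?_
        intro hmem
        have : s ≤ max c t := (uIoc_subset_uIcc hs).2
        have h2 : max c t < c' := max_lt hc1 h1
        linarith [hmem.1]
      · have h2 : d' < t := by
          by_contra hcon
          push Not at hcon
          exact ht ⟨h1, hcon⟩
        have e1 : ψ t = (∫ s in c..d, (φ s - I * ρ s)) + ∫ s in d..t, (φ s - I * ρ s) := by
          rw [hψ]
          exact (intervalIntegral.integral_add_adjacent_intervals (hg.intervalIntegrable _ _)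
            (hg.intervalIntegrable _ _)).symm
        rw [e1, htot, zero_add]
        apply intervalIntegral.integral_zero_ae
        refine Eventually.of_forall fun s hs => hzero s ?_
        intro hmem
        have : min d t ≤ s := (uIoc_subset_uIcc hs).1
        have h3 : d' < min d t := lt_min hd1 h2
        linarith [hmem.2]
    have hsupp : Function.support ψ ⊆ Icc c' d' := by
      intro t ht
      by_contra hcon
      exact ht (hψz t hcon)
    have hts : tsupport ψ ⊆ Icc c' d' := closure_minimal hsupp isClosed_Icc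
    have hcs : HasCompactSupport ψ := HasCompactSupport.of_support_subset_isCompact isCompact_Icc hsupp
    have h0 := h ψ hψs hcs (hts.trans fun t ht => ⟨by linarith [ht.1], by linarith [ht.2]⟩)
    rw [hψ'] at h0
    have i1 : Integrable fun t => F t * φ t :=
      (hF.mul hφ.continuous).integrable_of_hasCompactSupport hφc.mul_left
    have i2 : Integrable fun t => F t * ρ t :=
      (hF.mul hρ.continuous).integrable_of_hasCompactSupport hρc.mul_left
    have i3 : Integrable fun t => φ t := hφ.continuous.integrable_of_hasCompactSupport hφc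
    have e2 : ∫ t, F t * (φ t - I * ρ t) = (∫ t, F t * φ t) - I * C := by
      have : (fun t => F t * (φ t - I * ρ t)) = fun t => F t * φ t - I * (F t * ρ t) := by
        ext t; ring
      rw [this, integral_sub i1 (i2.const_mul I), integral_const_mul]
    have e3 : ∫ t, φ t • (F t - C) = (∫ t, F t * φ t) - C * I := by
      have : (fun t => φ t • (F t - C)) = fun t => F t * φ t - C * φ t := by
        ext t; simp only [smul_eq_mul]; ring
      rw [this, integral_sub i1 (i3.const_mul C), integral_const_mul]
    rw [e3]
    rw [e2] at h0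
    linarith
  have hae : ∀ᵐ t ∂volume, t ∈ Ioo c d → F t - C = 0 :=
    isOpen_Ioo.ae_eq_zero_of_integral_contDiff_smul_eq_zero
      ((hF.sub continuous_const).locallyIntegrable.locallyIntegrableOn _) key
  intro t ht
  by_contra hcon
  have hne : F t - C ≠ 0 := sub_ne_zero.mpr hcon
  have hopen : IsOpen ({s | F s - C ≠ 0} ∩ Ioo c d) :=
    ((isOpen_ne_fun (hF.sub continuous_const) continuous_const)).inter isOpen_Ioo
  have hpos : 0 < volume ({s | F s - C ≠ 0} ∩ Ioo c d) :=
    hopen.measure_pos volume ⟨t, hne, ht⟩
  have hz : volume ({s | F s - C ≠ 0} ∩ Ioo c d) = 0 := by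
    refine measure_mono_null ?_ hae
    intro s hs
    simp only [mem_compl_iff, mem_ofPred_eq]
    intro hc
    exact hs.1 (hc hs.2)
  exact absurd hz hpos.ne'

end Pool.Agent.H76.PL
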