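import Pool.Agent.H76.PL.Polar

/-!
# Linear decay of the mean oscillation for homogeneous `C¹` fields
-/

set_option autoImplicit false
open MeasureTheory Metric Filter Topology Set
open scoped ContDiff RealInnerProductSpace

namespace Pool.Agent.H76.PL

section avg
open scoped Pointwise
variable {F : Type*} [NormedAddCommGroup F] [NormedSpace ℝ F]

lemma avg_ball {d : ℕ} (f : E d → F) (z : E d) {r : ℝ} (hr : 0 < r) :
    ⨍ x in ball z r, f x = ⨍ y in ball (0 : E d) 1, f (z + r • y) := by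
  have hm := measurePreserving_add_left (volume : Measure (E d)) z
  have h1 := hm.setIntegral_preimage_emb (MeasurableEquiv.addLeft z).measurableEmbedding f
    (ball z r)
  have hpre : ((fun x => z + x) ⁻¹' ball z r) = ball (0 : E d) r := by
    ext x
    simp
  rw [hpre] at h1
  have hball : r • ball (0 : E d) 1 = ball (0 : E d) r := by
    rw [smul_unitBall_of_pos hr]
  have hint := Measure.setIntegral_comp_smul_of_pos (volume : Measure (E d))
    (fun x => f (z + x)) (ball (0 : E d) 1) hr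
  rw [hball] at hint
  have hvol : volume.real (ball z r)
      = r ^ (Module.finrank ℝ (E d)) * volume.real (ball (0 : E d) 1) := by
    simp only [Measure.real]
    rw [Measure.addHaar_ball_of_pos _ _ hr, ENNReal.toReal_mul,
      ENNReal.toReal_ofReal (by positivity)]
  have hrp : 0 < r ^ (Module.finrank ℝ (E d)) := by positivity
  rw [setAverage_eq, setAverage_eq, ← h1, hint, hvol, smul_smul, mul_inv]
  congr 1
  field_simp

lemma avg_const_mul {d : ℕ} (c : ℝ) (f : E d → ℝ) (s : Set (E d)) :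
    ⨍ y in s, c * f y = c * ⨍ y in s, f y := by
  rw [setAverage_eq, setAverage_eq, integral_const_mul, smul_eq_mul, smul_eq_mul]
  ring

lemma ball_ae : (ball (0 : E 2) 1 : Set (E 2)) =ᵐ[volume] closedBall (0 : E 2) 1 := by
  rw [ae_eq_set]
  constructor
  · rw [sdiff_eq_empty.mpr ball_subset_closedBall]
    exact measure_empty
  · rw [closedBall_sdiff_ball]
    exact Measure.addHaar_sphere _ _ _

lemma vol_pos : 0 < volume.real (closedBall (0 : E 2) 1) := by
  simp only [Measure.real]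
  refine ENNReal.toReal_pos (lt_of_lt_of_le (isOpen_ball.measure_pos volume
    (⟨0, by simp⟩ : (ball (0 : E 2) 1).Nonempty)) (measure_mono ball_subset_closedBall)).ne'
    measure_closedBall_lt_top.ne

lemma continuous_avg {X : Type*} [TopologicalSpace X] [FirstCountableTopology X]
    [LocallyCompactSpace X] {f : X → E 2 → F} (hf : Continuous f.uncurry) :
    Continuous fun z => ⨍ y in ball (0 : E 2) 1, f z y := by
  have : (fun z => ⨍ y in ball (0 : E 2) 1, f z y)
      = fun z => (volume.real (closedBall (0 : E 2) 1))⁻¹ • ∫ y in closedBall (0 : E 2) 1, f z y := by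
    ext1 z
    rw [setAverage_congr ball_ae, setAverage_eq]
  rw [this]
  exact continuous_const.smul
    (continuous_parametric_integral_of_continuous hf (isCompact_closedBall _ _))

end avg

section homog
variable {n : ℕ} {G : E 2 → Mat n 2} {γ : ℝ}

/-- the difference quotient, extended to `r = 0`. -/
noncomputable def QQ (G : E 2 → Mat n 2) (z : E 2 × ℝ) (y : E 2) : Mat n 2 :=
  ∫ s in (0 : ℝ)..1, fderiv ℝ G (z.1 + s • (z.2 • y)) y

lemma continuous_QQ (hG : ContDiff ℝ 1 G) : Continuous (QQ G).uncurry := by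
  have h : Continuous (fun w : (E 2 × ℝ) × E 2 => ∫ s in (0 : ℝ)..1,
      fderiv ℝ G (w.1.1 + s • (w.1.2 • w.2)) w.2) := by
    apply intervalIntegral.continuous_parametric_intervalIntegral_of_continuous'
    have h1 : Continuous (fun q : ((E 2 × ℝ) × E 2) × ℝ =>
        fderiv ℝ G (q.1.1.1 + q.2 • (q.1.1.2 • q.1.2))) :=
      (hG.continuous_fderiv (by simp)).comp (by fun_prop)
    exact h1.clm_apply (by fun_prop)
  exact h

lemma QQ_spec (hG : ContDiff ℝ 1 G) (x : E 2) (r : ℝ) (y : E 2) :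
    G (x + r • y) - G x = r • QQ G (x, r) y := by
  have h1 : ∀ s ∈ uIcc (0 : ℝ) 1, HasDerivAt (fun s : ℝ => G (x + s • (r • y)))
      (fderiv ℝ G (x + s • (r • y)) (r • y)) s := by
    intro s _
    have h2 : HasDerivAt (fun s : ℝ => x + s • (r • y)) (r • y) s := by
      simpa using ((hasDerivAt_id s).smul_const (r • y)).const_add x
    exact ((hG.differentiable (by simp)) _).hasFDerivAt.comp_hasDerivAt s h2
  have hc : Continuous fun s : ℝ => fderiv ℝ G (x + s • (r • y)) (r • y) :=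
    ((hG.continuous_fderiv (by simp)).comp (by fun_prop)).clm_apply continuous_const
  have h3 := intervalIntegral.integral_eq_sub_of_hasDerivAt h1 (hc.intervalIntegrable _ _)
  simp only [one_smul, zero_smul, add_zero] at h3
  rw [← h3]
  unfold QQ
  rw [← intervalIntegral.integral_smul]
  apply intervalIntegral.integral_congr
  intro s _
  simp only [map_smul]

/-- the scaled variance -/
noncomputable def DD (G : E 2 → Mat n 2) (z : E 2 × ℝ) : ℝ :=
  ⨍ y in ball (0 : E 2) 1, ‖QQ G z y - ⨍ y' in ball (0 : E 2) 1, QQ G z y'‖ ^ 2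

lemma continuous_DD (hG : ContDiff ℝ 1 G) : Continuous (DD G) := by
  have h1 := continuous_QQ hG
  have h2 : Continuous fun z => ⨍ y in ball (0 : E 2) 1, QQ G z y := continuous_avg h1
  unfold DD
  apply continuous_avg (f := fun z y => ‖QQ G z y - ⨍ y' in ball (0 : E 2) 1, QQ G z y'‖ ^ 2)
  have h3 : Continuous fun w : (E 2 × ℝ) × E 2 =>
      ‖QQ G w.1 w.2 - ⨍ y' in ball (0 : E 2) 1, QQ G w.1 y'‖ ^ 2 :=
    ((h1.sub (h2.comp continuous_fst)).norm).pow 2
  exact h3

lemma DD_nonneg (z : E 2 × ℝ) : 0 ≤ DD G z := by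
  unfold DD
  rw [setAverage_eq, smul_eq_mul]
  apply mul_nonneg (by positivity)
  exact integral_nonneg fun y => by positivity

lemma vol_pos' : 0 < volume.real (ball (0 : E 2) 1) := by
  simp only [Measure.real]
  exact ENNReal.toReal_pos (isOpen_ball.measure_pos volume
    (⟨0, by simp⟩ : (ball (0 : E 2) 1).Nonempty)).ne' measure_ball_lt_top.ne

lemma integrableOn_ball {F : Type*} [NormedAddCommGroup F] {f : E 2 → F} (hf : Continuous f) :
    IntegrableOn f (ball (0 : E 2) 1) :=
  (hf.continuousOn.integrableOn_compact (isCompact_closedBall 0 1)).mono_set ball_subset_closedBall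

lemma osc_eq (hG : ContDiff ℝ 1 G) (x : E 2) {r : ℝ} (hr : 0 < r) :
    osc G x r = r * Real.sqrt (DD G (x, r)) := by
  have hQc : Continuous (QQ G (x, r)) := by
    have := (continuous_QQ hG).comp (Continuous.prodMk_right (x, r))
    exact this
  unfold osc
  rw [avg_ball (fun x' => ‖G x' - ⨍ y in ball x r, G y‖ ^ 2) x hr, avg_ball G x hr]
  have h1 : ∀ y, G (x + r • y) = G x + r • QQ G (x, r) y := fun y => by
    rw [← QQ_spec hG x r y]; abel
  have h2 : ⨍ y in ball (0 : E 2) 1, G (x + r • y)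
      = G x + r • ⨍ y in ball (0 : E 2) 1, QQ G (x, r) y := by
    simp only [h1]
    have i1 : IntegrableOn (fun _ : E 2 => G x) (ball (0 : E 2) 1) :=
      integrableOn_ball continuous_const
    have i2 : IntegrableOn (fun y : E 2 => r • QQ G (x, r) y) (ball (0 : E 2) 1) :=
      integrableOn_ball (hQc.const_smul r)
    rw [setAverage_eq, setAverage_eq, integral_add i1 i2, integral_smul, setIntegral_const,
      smul_add, smul_smul, inv_mul_cancel₀ vol_pos'.ne', one_smul, smul_comm]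
  have h3 : ∀ y, ‖G (x + r • y) - ⨍ y in ball (0 : E 2) 1, G (x + r • y)‖ ^ 2
      = r ^ 2 * ‖QQ G (x, r) y - ⨍ y' in ball (0 : E 2) 1, QQ G (x, r) y'‖ ^ 2 := by
    intro y
    rw [h2, h1 y]
    have : G x + r • QQ G (x, r) y - (G x + r • ⨍ y in ball (0 : E 2) 1, QQ G (x, r) y)
        = r • (QQ G (x, r) y - ⨍ y' in ball (0 : E 2) 1, QQ G (x, r) y') := by
      rw [smul_sub]; abel
    rw [this, norm_smul, mul_pow, Real.norm_eq_abs, sq_abs]
  simp only [h3]
  have h4 : ⨍ y in ball (0 : E 2) 1,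
      r ^ 2 * ‖QQ G (x, r) y - ⨍ y' in ball (0 : E 2) 1, QQ G (x, r) y'‖ ^ 2
      = r ^ 2 * DD G (x, r) := by
    unfold DD
    exact avg_const_mul _ _ _
  rw [h4, Real.sqrt_mul (by positivity), Real.sqrt_sq hr.le]

lemma osc_homog (hh : ∀ t : ℝ, 0 < t → ∀ x, G (t • x) = t ^ γ • G x) (x : E 2) {r t : ℝ}
    (hr : 0 < r) (ht : 0 < t) : osc G (t • x) (t * r) = t ^ γ * osc G x r := by
  unfold osc
  rw [avg_ball (fun x' => ‖G x' - ⨍ y in ball (t • x) (t * r), G y‖ ^ 2) (t • x) (mul_pos ht hr),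
    avg_ball G (t • x) (mul_pos ht hr), avg_ball (fun x' => ‖G x' - ⨍ y in ball x r, G y‖ ^ 2) x hr,
    avg_ball G x hr]
  have h1 : ∀ y, G (t • x + (t * r) • y) = t ^ γ • G (x + r • y) := fun y => by
    rw [← hh t ht, smul_add, smul_smul]
  have h2 : ⨍ y in ball (0 : E 2) 1, G (t • x + (t * r) • y)
      = t ^ γ • ⨍ y in ball (0 : E 2) 1, G (x + r • y) := by
    simp only [h1]
    rw [setAverage_eq, setAverage_eq, integral_smul, smul_comm]
  have hp : 0 < t ^ γ := Real.rpow_pos_of_pos ht γ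
  have h3 : ∀ y, ‖G (t • x + (t * r) • y) - ⨍ y in ball (0 : E 2) 1, G (t • x + (t * r) • y)‖ ^ 2
      = (t ^ γ) ^ 2 * ‖G (x + r • y) - ⨍ y in ball (0 : E 2) 1, G (x + r • y)‖ ^ 2 := by
    intro y
    rw [h2, h1 y, ← smul_sub, norm_smul, mul_pow, Real.norm_eq_abs, sq_abs]
  simp only [h3]
  rw [avg_const_mul, Real.sqrt_mul (by positivity), Real.sqrt_sq hp.le]

/-- Euler's identity. -/
lemma euler (hG : ContDiff ℝ 1 G) (hh : ∀ t : ℝ, 0 < t → ∀ x, G (t • x) = t ^ γ • G x) (x : E 2) :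
    fderiv ℝ G x x = γ • G x := by
  have h1 : HasDerivAt (fun s : ℝ => s • x) x 1 := by
    simpa using (hasDerivAt_id (1 : ℝ)).smul_const x
  have h2 : HasDerivAt (fun s : ℝ => G (s • x)) (fderiv ℝ G ((1 : ℝ) • x) x) 1 :=
    ((hG.differentiable (by simp)) _).hasFDerivAt.comp_hasDerivAt (1 : ℝ) h1
  have h3 : HasDerivAt (fun s : ℝ => s ^ γ • G x) ((γ * (1 : ℝ) ^ (γ - 1)) • G x) 1 :=
    (Real.hasDerivAt_rpow_const (Or.inl one_ne_zero)).smul_const _
  have h4 : (fun s : ℝ => G (s • x)) =ᶠ[𝓝 1] fun s => s ^ γ • G x := by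
    filter_upwards [Ioi_mem_nhds one_pos] with s hs
    exact hh s hs _
  have := h2.unique (h3.congr_of_eventuallyEq h4)
  simpa using this

lemma DD_pos (hG : ContDiff ℝ 1 G) (hγ : 0 < γ)
    (hh : ∀ t : ℝ, 0 < t → ∀ x, G (t • x) = t ^ γ • G x)
    (h0 : ∀ x, x ≠ 0 → G x ≠ 0) {x : E 2} {r : ℝ} (hr : 0 ≤ r) (hxr : ‖x‖ + r = 1) :
    0 < DD G (x, r) := by
  by_contra hcon
  have hD : DD G (x, r) = 0 := le_antisymm (not_lt.mp hcon) (DD_nonneg _)
  have hQc : Continuous (QQ G (x, r)) := by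
    have := (continuous_QQ hG).comp (Continuous.prodMk_right (x, r))
    exact this
  set m := ⨍ y' in ball (0 : E 2) 1, QQ G (x, r) y' with hm
  have hfc : Continuous fun y => ‖QQ G (x, r) y - m‖ ^ 2 := by fun_prop
  have hI : ∫ y in ball (0 : E 2) 1, ‖QQ G (x, r) y - m‖ ^ 2 = 0 := by
    unfold DD at hD
    rw [setAverage_eq, smul_eq_mul] at hD
    rcases mul_eq_zero.mp hD with h | h
    · exact absurd h (inv_ne_zero vol_pos'.ne')
    · exact h
  have hae := (setIntegral_eq_zero_iff_of_nonneg_ae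
    (Eventually.of_forall fun y => by positivity) (integrableOn_ball hfc)).mp hI
  have hall : ∀ y ∈ ball (0 : E 2) 1, QQ G (x, r) y = m := by
    have h1 : EqOn (fun y => ‖QQ G (x, r) y - m‖ ^ 2) (fun _ => 0) (ball (0 : E 2) 1) :=
      Measure.eqOn_open_of_ae_eq hae isOpen_ball hfc.continuousOn continuousOn_const
    intro y hy
    have := h1 hy
    simp only at this
    have h2 := pow_eq_zero_iff (two_ne_zero) |>.mp this
    exact sub_eq_zero.mp (norm_eq_zero.mp h2)
  have hm0 : m = 0 := by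
    have := hall 0 (by simp)
    rw [← this]
    simp [QQ]
  rw [hm0] at hall
  rcases eq_or_lt_of_le hr with h | h
  · -- `r = 0`
    subst h
    rw [add_zero] at hxr
    have h1 : ∀ y ∈ ball (0 : E 2) 1, fderiv ℝ G x y = 0 := by
      intro y hy
      have := hall y hy
      simpa [QQ] using this
    have h2 : fderiv ℝ G x x = 0 := by
      have h3 := h1 ((1 / 2 : ℝ) • x) (by
        rw [mem_ball_zero_iff, norm_smul, hxr]; norm_num)
      rw [map_smul] at h3
      rcases smul_eq_zero.mp h3 with h | h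
      · norm_num at h
      · exact h
    rw [euler hG hh] at h2
    rcases smul_eq_zero.mp h2 with h | h
    · exact hγ.ne' h
    · exact h0 x (by intro hx; rw [hx, norm_zero] at hxr; exact zero_ne_one hxr) h
  · -- `G` is constant on `ball x r`
    have hconst : ∀ z ∈ ball x r, G z = G x := by
      intro z hz
      have hy : r⁻¹ • (z - x) ∈ ball (0 : E 2) 1 := by
        rw [mem_ball_zero_iff, norm_smul, norm_inv, Real.norm_of_nonneg h.le,
          inv_mul_lt_iff₀ h, mul_one]
        rwa [mem_ball_iff_norm] at hz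
      have h1 := QQ_spec hG x r (r⁻¹ • (z - x))
      rw [hall _ hy, smul_zero, smul_smul, mul_inv_cancel₀ h.ne', one_smul, add_sub_cancel,
        sub_eq_zero] at h1
      exact h1
    -- choose a nonzero point in the ball
    obtain ⟨z, hz, hz0⟩ : ∃ z ∈ ball x r, z ≠ 0 := by
      by_cases hx : x = 0
      · refine ⟨(r / 2) • er 0, ?_, ?_⟩
        · rw [hx, mem_ball_zero_iff, norm_smul, norm_er, mul_one, Real.norm_of_nonneg (by linarith)]
          linarith
        · intro hcon
          have := congrArg norm hcon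
          rw [norm_smul, norm_er, mul_one, Real.norm_of_nonneg (by linarith), norm_zero] at this
          linarith
      · exact ⟨x, mem_ball_self h, hx⟩
    have hev : ∀ᶠ t : ℝ in 𝓝 1, t • z ∈ ball x r := by
      have : ContinuousAt (fun t : ℝ => t • z) 1 := by fun_prop
      apply this.eventually
      simp only [one_smul]
      exact isOpen_ball.mem_nhds hz
    obtain ⟨t, ht, ht1⟩ : ∃ t : ℝ, t • z ∈ ball x r ∧ 1 < t := by
      obtain ⟨ε, hε, hball⟩ := Metric.eventually_nhds_iff.mp hev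
      refine ⟨1 + ε / 2, hball ?_, by linarith⟩
      rw [Real.dist_eq]
      have : (1 + ε / 2 - 1 : ℝ) = ε / 2 := by ring
      rw [this, abs_of_pos (by linarith)]
      linarith
    have h1 := hconst _ ht
    rw [hh t (by linarith), hconst z hz] at h1
    have h2 : (t ^ γ - 1) • G x = 0 := by
      rw [sub_smul, one_smul, h1, sub_self]
    have h3 : 1 < t ^ γ := Real.one_lt_rpow ht1 hγ
    rcases smul_eq_zero.mp h2 with h | h
    · linarith
    · have := hconst z hz
      rw [h] at this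
      exact h0 z hz0 this

/-- **Linear decay** for homogeneous `C¹` fields vanishing only at the origin. -/
theorem linear_decay (hG : ContDiff ℝ 1 G) (hγ : 0 < γ)
    (hh : ∀ t : ℝ, 0 < t → ∀ x, G (t • x) = t ^ γ • G x) (h0 : ∀ x, x ≠ 0 → G x ≠ 0) :
    ∃ c : ℝ, ∀ (x : E 2) (r θ : ℝ), 0 < r → 0 < θ → θ ≤ 1 →
      osc G x (θ * r) ≤ c * θ * osc G x r := by
  have hDc := continuous_DD hG
  -- lower bound
  set K : Set (E 2 × ℝ) := {z | ‖z.1‖ + z.2 = 1 ∧ 0 ≤ z.2} with hK
  have hKc : IsCompact K := by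
    have hcl : IsClosed K := by
      apply IsClosed.inter
      · exact isClosed_eq (by fun_prop) continuous_const
      · exact isClosed_le continuous_const continuous_snd
    apply IsCompact.of_isClosed_subset ((isCompact_closedBall (0 : E 2) 1).prod
      (isCompact_Icc (a := (0 : ℝ)) (b := 1))) hcl
    intro z hz
    refine ⟨?_, hz.2, ?_⟩
    · rw [mem_closedBall_zero_iff]; linarith [hz.1, hz.2]
    · linarith [hz.1, norm_nonneg z.1]
  have hKn : K.Nonempty := ⟨(0, 1), by simp [hK]⟩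
  obtain ⟨z0, hz0, hmin⟩ := hKc.exists_isMinOn hKn hDc.continuousOn
  have hm : 0 < DD G z0 := DD_pos (x := z0.1) (r := z0.2) hG hγ hh h0 hz0.2 hz0.1
  -- upper bound
  obtain ⟨C, hC⟩ := ((isCompact_closedBall (0 : E 2) 1).prod
    (isCompact_Icc (a := (0 : ℝ)) (b := 1))).exists_bound_of_continuousOn hDc.continuousOn
  set m := DD G z0 with hmd
  refine ⟨Real.sqrt (|C| / m), ?_⟩
  -- normalised case
  have hnorm : ∀ (x : E 2) (r θ : ℝ), 0 < r → 0 < θ → θ ≤ 1 → ‖x‖ + r = 1 →
      osc G x (θ * r) ≤ Real.sqrt (|C| / m) * θ * osc G x r := by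
    intro x r θ hr hθ hθ1 hxr
    rw [osc_eq hG x (mul_pos hθ hr), osc_eq hG x hr]
    have h1 : m ≤ DD G (x, r) := hmin (show (x, r) ∈ K from ⟨hxr, hr.le⟩)
    have h2 : DD G (x, θ * r) ≤ |C| := by
      have hx1 : ‖x‖ ≤ 1 := by linarith
      have hr1 : θ * r ≤ 1 := by nlinarith [norm_nonneg x]
      have := hC (x, θ * r) ⟨by rw [mem_closedBall_zero_iff]; exact hx1, by positivity, hr1⟩
      exact (le_abs_self _).trans (this.trans (le_abs_self _))
    have h3 : Real.sqrt (DD G (x, θ * r)) ≤ Real.sqrt (|C| / m) * Real.sqrt (DD G (x, r)) := by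
      rw [← Real.sqrt_mul (by positivity)]
      apply Real.sqrt_le_sqrt
      calc DD G (x, θ * r) ≤ |C| := h2
        _ = |C| / m * m := by field_simp
        _ ≤ _ := by gcongr
    calc θ * r * Real.sqrt (DD G (x, θ * r))
        ≤ θ * r * (Real.sqrt (|C| / m) * Real.sqrt (DD G (x, r))) := by gcongr
      _ = _ := by ring
  intro x r θ hr hθ hθ1
  have hs : 0 < ‖x‖ + r := by positivity
  have h1 := hnorm ((‖x‖ + r)⁻¹ • x) ((‖x‖ + r)⁻¹ * r) θ (by positivity) hθ hθ1 (by
    rw [norm_smul, norm_inv, Real.norm_of_nonneg hs.le]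
    field_simp)
  have h2 := osc_homog hh ((‖x‖ + r)⁻¹ • x) (r := θ * ((‖x‖ + r)⁻¹ * r)) (by positivity) hs
  have h3 := osc_homog hh ((‖x‖ + r)⁻¹ • x) (r := (‖x‖ + r)⁻¹ * r) (by positivity) hs
  rw [smul_smul, mul_inv_cancel₀ hs.ne', one_smul] at h2 h3
  have e1 : (‖x‖ + r) * (θ * ((‖x‖ + r)⁻¹ * r)) = θ * r := by field_simp
  have e2 : (‖x‖ + r) * ((‖x‖ + r)⁻¹ * r) = r := by field_simp
  rw [e1] at h2
  rw [e2] at h3
  rw [h2, h3]
  have hp : 0 < (‖x‖ + r) ^ γ := Real.rpow_pos_of_pos hs γ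
  calc (‖x‖ + r) ^ γ * osc G ((‖x‖ + r)⁻¹ • x) (θ * ((‖x‖ + r)⁻¹ * r))
      ≤ (‖x‖ + r) ^ γ * (Real.sqrt (|C| / m) * θ * osc G ((‖x‖ + r)⁻¹ • x) ((‖x‖ + r)⁻¹ * r)) := by
        gcongr
    _ = _ := by ring

end homog

end Pool.Agent.H76.PL
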