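import Pool.Agent.H76.PL.Weak
import Pool.Agent.H76.PL.Osc

/-!
# Homogeneous planar `p`-harmonic maps
-/

set_option autoImplicit false
open MeasureTheory Metric Filter Topology Set
open scoped ContDiff RealInnerProductSpace

namespace Pool.Agent.H76.PL

variable {n : ℕ} {p β γ : ℝ} {h : E 2 → E n}

lemma fderiv_homog (hc : ContDiff ℝ 1 h) (hh : Homog β h) {t : ℝ} (ht : 0 < t) (x : E 2) :
    fderiv ℝ h (t • x) = t ^ (β - 1) • fderiv ℝ h x := by
  have h1 : HasFDerivAt (fun y : E 2 => h (t • y))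
      ((fderiv ℝ h (t • x)).comp (t • ContinuousLinearMap.id ℝ (E 2))) x :=
    (hasFD hc (t • x)).comp x ((hasFDerivAt_id x).const_smul t)
  have h2 : HasFDerivAt (fun y : E 2 => h (t • y)) (t ^ β • fderiv ℝ h x) x := by
    have e : (fun y : E 2 => h (t • y)) = fun y => t ^ β • h y := funext fun y => hh t ht y
    rw [e]
    exact (hasFD hc x).const_smul (t ^ β)
  have h3 := h1.unique h2
  ext1 v
  have h4 := congrArg (fun L : E 2 →L[ℝ] E n => L v) h3
  simp only [ContinuousLinearMap.comp_apply, smul_apply,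
    ContinuousLinearMap.id_apply, map_smul] at h4
  rw [smul_apply, Real.rpow_sub_one ht.ne', div_eq_inv_mul, mul_smul, ← h4,
    smul_smul, inv_mul_cancel₀ ht.ne', one_smul]

lemma grad_homog (hc : ContDiff ℝ 1 h) (hh : Homog β h) {t : ℝ} (ht : 0 < t) (x : E 2) :
    grad h (t • x) = t ^ (β - 1) • grad h x := by
  unfold grad
  rw [fderiv_homog hc hh ht]
  ext q
  simp

lemma V_smul {c : ℝ} (hc : 0 < c) (ξ : Mat n 2) : V p (c • ξ) = c ^ (p / 2) • V p ξ := by
  unfold V
  rw [norm_smul, Real.norm_of_nonneg hc.le, Real.mul_rpow hc.le (norm_nonneg _), smul_smul,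
    smul_smul]
  congr 1
  have : c ^ (p / 2) = c ^ ((p - 2) / 2) * c := by
    rw [← Real.rpow_add_one hc.ne']
    congr 1; ring
  rw [this]; ring

lemma V_homog (hc : ContDiff ℝ 1 h) (hh : Homog β h) (hγ : γ = (β - 1) * p / 2) {t : ℝ}
    (ht : 0 < t) (x : E 2) : V p (grad h (t • x)) = t ^ γ • V p (grad h x) := by
  rw [grad_homog hc hh ht, V_smul (Real.rpow_pos_of_pos ht _), ← Real.rpow_mul ht.le, hγ]
  congr 2; ring

lemma V_ne_zero {ξ : Mat n 2} (hξ : ξ ≠ 0) : V p ξ ≠ 0 := by
  unfold V
  have : 0 < ‖ξ‖ := norm_pos_iff.mpr hξ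
  exact smul_ne_zero (Real.rpow_pos_of_pos this _).ne' hξ

lemma contDiffAt_V {ξ : Mat n 2} (hξ : ξ ≠ 0) : ContDiffAt ℝ 1 (V p : Mat n 2 → Mat n 2) ξ := by
  unfold V
  exact ((contDiffAt_norm ℝ hξ).rpow_const_of_ne (norm_ne_zero_iff.mpr hξ)).smul contDiffAt_id

lemma continuous_grad (hc : ContDiff ℝ 1 h) : Continuous (grad h) := by
  unfold grad
  have : Continuous (fun x : E 2 => fun q : Fin n × Fin 2 =>
      fderiv ℝ h x (EuclideanSpace.single q.2 1) q.1) := by
    apply continuous_pi
    intro q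
    have h1 : Continuous fun x : E 2 => fderiv ℝ h x (EuclideanSpace.single q.2 1) :=
      (hc.continuous_fderiv (by simp)).clm_apply continuous_const
    exact (EuclideanSpace.proj q.1 : E n →L[ℝ] ℝ).continuous.comp h1
  exact (PiLp.continuous_toLp 2 _).comp this

/-- gradient in terms of the profile -/
lemma grad_er (hc : ContDiff ℝ 1 h) (hh : Homog β h) (t : ℝ) (q : Fin n × Fin 2) :
    (grad h (er t)) q = (if q.2 = 0 then (Real.cos t * β) * uu h t q.1 - Real.sin t * vv h t q.1
      else (Real.sin t * β) * uu h t q.1 + Real.cos t * vv h t q.1) := by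
  have h1 : fderiv ℝ h (er t) (er t) = β • uu h t := by
    have := fderiv_er hc hh (r := 1) (t := t) one_pos
    simpa using this
  have h2 : fderiv ℝ h (er t) (et t) = vv h t := rfl
  have hsc := Real.sin_sq_add_cos_sq t
  have e0 : ee 0 = Real.cos t • er t - Real.sin t • et t := by
    unfold er et
    have e : Real.cos t • (Real.cos t • ee 0 + Real.sin t • ee 1)
      - Real.sin t • ((-Real.sin t) • ee 0 + Real.cos t • ee 1)
      = (Real.sin t ^ 2 + Real.cos t ^ 2) • ee 0 := by module
    rw [e, hsc, one_smul]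
  have e1 : ee 1 = Real.sin t • er t + Real.cos t • et t := by
    unfold er et
    have e : Real.sin t • (Real.cos t • ee 0 + Real.sin t • ee 1)
      + Real.cos t • ((-Real.sin t) • ee 0 + Real.cos t • ee 1)
      = (Real.sin t ^ 2 + Real.cos t ^ 2) • ee 1 := by module
    rw [e, hsc, one_smul]
  obtain ⟨i, j⟩ := q
  show fderiv ℝ h (er t) (EuclideanSpace.single j 1) i = _
  fin_cases j
  · have : (EuclideanSpace.single (0 : Fin 2) (1 : ℝ)) = ee 0 := rfl
    simp only [Fin.zero_eta, Fin.isValue, this, ↓reduceIte]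
    rw [e0, map_sub, map_smul, map_smul, h1, h2]
    simp
    ring
  · have : (EuclideanSpace.single (1 : Fin 2) (1 : ℝ)) = ee 1 := rfl
    simp only [Fin.mk_one, Fin.isValue, this, one_ne_zero, ↓reduceIte]
    rw [e1, map_add, map_smul, map_smul, h1, h2]
    simp
    ring

lemma contDiff_grad_er (hc : ContDiff ℝ 1 h) (hh : Homog β h) (hu : ContDiff ℝ 1 (uu h))
    (hv : ContDiff ℝ 1 (vv h)) : ContDiff ℝ 1 fun t => grad h (er t) := by
  rw [contDiff_euclidean]
  intro q
  have hu' : ContDiff ℝ 1 fun t => uu h t q.1 := (contDiff_euclidean.mp hu) q.1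
  have hv' : ContDiff ℝ 1 fun t => vv h t q.1 := (contDiff_euclidean.mp hv) q.1
  have hcs : ContDiff ℝ 1 Real.cos := Real.contDiff_cos
  have hsn : ContDiff ℝ 1 Real.sin := Real.contDiff_sin
  simp only [grad_er hc hh]
  by_cases h0 : q.2 = 0
  · simp only [h0, ↓reduceIte]
    exact ((hcs.mul contDiff_const).mul hu').sub (hsn.mul hv')
  · simp only [h0, ↓reduceIte]
    exact ((hsn.mul contDiff_const).mul hu').add (hcs.mul hv')

lemma contDiffAt_slit (hc : ContDiff ℝ 1 h) (hh : Homog β h) (hγ : γ = (β - 1) * p / 2)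
    (hu : ContDiff ℝ 1 (uu h)) (hv : ContDiff ℝ 1 (vv h)) (hN : ∀ t, grad h (er t) ≠ 0)
    {x : E 2} (hx : (⟨x 0, x 1⟩ : ℂ) ∈ Complex.slitPlane) :
    ContDiffAt ℝ 1 (fun y => V p (grad h y)) x := by
  have hx0 : x ≠ 0 := by
    rintro rfl
    simp [Complex.mem_slitPlane_iff] at hx
  have h1 : ContDiffAt ℝ 1 (fun y : E 2 => Complex.arg ⟨y 0, y 1⟩) x :=
    (contDiffAt_arg hx).of_le (by exact_mod_cast le_top)
  have h2 : ContDiffAt ℝ 1 (fun y : E 2 => grad h (er (Complex.arg ⟨y 0, y 1⟩))) x :=
    ContDiffAt.comp (g := fun t => grad h (er t)) x (contDiff_grad_er hc hh hu hv).contDiffAt h1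
  have h3 : ContDiffAt ℝ 1 (fun y : E 2 => V p (grad h (er (Complex.arg ⟨y 0, y 1⟩)))) x :=
    ContDiffAt.comp (g := V p) x (contDiffAt_V (hN _)) h2
  have h4 : ContDiffAt ℝ 1 (fun y : E 2 => ‖y‖ ^ γ) x :=
    (contDiffAt_norm ℝ hx0).rpow_const_of_ne (norm_ne_zero_iff.mpr hx0)
  have h5 : (fun y => V p (grad h y)) =ᶠ[𝓝 x]
      fun y : E 2 => ‖y‖ ^ γ • V p (grad h (er (Complex.arg ⟨y 0, y 1⟩))) := by
    filter_upwards [isOpen_ne.mem_nhds hx0] with y hy
    have hy' : 0 < ‖y‖ := norm_pos_iff.mpr hy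
    conv_lhs => rw [polar_rep y]
    exact V_homog hc hh hγ hy' _
  exact (h4.smul h3).congr_of_eventuallyEq h5

lemma grad_neg' (hc : ContDiff ℝ 1 h) (x : E 2) : grad (fun y => h (-y)) x = -grad h (-x) := by
  have h1 : HasFDerivAt (fun x : E 2 => h (-x)) (-(fderiv ℝ h (-x))) x := by
    have h2 : HasFDerivAt (fun x : E 2 => -x) (-(ContinuousLinearMap.id ℝ (E 2))) x :=
      (hasFDerivAt_id x).neg
    have := (hasFD hc (-x)).comp x h2
    refine this.congr_fderiv ?_
    ext v
    simp
  unfold grad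
  rw [h1.fderiv]
  ext q
  simp

lemma V_neg (ξ : Mat n 2) : V p (-ξ) = -V p ξ := by
  unfold V
  rw [norm_neg, smul_neg]

lemma contDiffAt_ne (hc : ContDiff ℝ 1 h) (hh : Homog β h) (hγ : γ = (β - 1) * p / 2)
    (hu : ContDiff ℝ 1 (uu h)) (hv : ContDiff ℝ 1 (vv h)) (hN : ∀ t, grad h (er t) ≠ 0)
    {x : E 2} (hx0 : x ≠ 0) :
    ContDiffAt ℝ 1 (fun y => V p (grad h y)) x := by
  by_cases hx : (⟨x 0, x 1⟩ : ℂ) ∈ Complex.slitPlane
  · exact contDiffAt_slit hc hh hγ hu hv hN hx
  · -- reflect
    have hx' : (⟨(-x) 0, (-x) 1⟩ : ℂ) ∈ Complex.slitPlane := by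
      rw [Complex.mem_slitPlane_iff, not_or, not_lt, not_not] at hx
      obtain ⟨hx1, hx2⟩ := hx
      simp only at hx1 hx2
      rw [Complex.mem_slitPlane_iff]
      left
      simp only [PiLp.neg_apply]
      rcases eq_or_lt_of_le hx1 with h | h
      · exfalso; apply hx0
        ext i; fin_cases i
        · exact h
        · exact hx2
      · linarith
    have hc' : ContDiff ℝ 1 fun y => h (-y) := hc.comp contDiff_neg
    have hu' : ContDiff ℝ 1 (uu fun y => h (-y)) := by
      have : (uu fun y => h (-y)) = fun t => uu h (t + Real.pi) := funext fun t => uu_neg t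
      rw [this]
      exact hu.comp (contDiff_id.add contDiff_const)
    have hv' : ContDiff ℝ 1 (vv fun y => h (-y)) := by
      have : (vv fun y => h (-y)) = fun t => vv h (t + Real.pi) := funext fun t => vv_neg hc t
      rw [this]
      exact hv.comp (contDiff_id.add contDiff_const)
    have hN' : ∀ t, grad (fun y => h (-y)) (er t) ≠ 0 := by
      intro t
      rw [grad_neg' hc, ← er_add_pi]
      exact neg_ne_zero.mpr (hN _)
    have h1 := contDiffAt_slit (p := p) (γ := γ) hc' (homog_neg hh) hγ hu' hv' hN' hx'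
    have h2 : ContDiffAt ℝ 1 (fun y : E 2 => V p (grad (fun y => h (-y)) (-y))) x :=
      ContDiffAt.comp (g := fun y => V p (grad (fun y => h (-y)) y)) x h1
        contDiff_neg.contDiffAt
    have h3 : (fun y : E 2 => V p (grad (fun y => h (-y)) (-y))) = fun y => -V p (grad h y) := by
      ext1 y
      rw [grad_neg' hc, neg_neg, V_neg]
    rw [h3] at h2
    simpa using h2.neg

/-- homogeneous of degree `> 1` and `C¹` off the origin implies `C¹`. -/
lemma contDiff_of_homog {G : E 2 → Mat n 2} (hγ : 1 < γ)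
    (hG : ∀ t : ℝ, 0 < t → ∀ x, G (t • x) = t ^ γ • G x) (hs : ∀ x, x ≠ 0 → ContDiffAt ℝ 1 G x) :
    ContDiff ℝ 1 G := by
  have hd : ∀ x, x ≠ 0 → HasFDerivAt G (fderiv ℝ G x) x := fun x hx =>
    ((hs x hx).differentiableAt (by simp)).hasFDerivAt
  have hG0 : G 0 = 0 := by
    have h1 := hG 2 (by norm_num) 0
    rw [smul_zero] at h1
    have h2 : ((2 : ℝ) ^ γ - 1) • G 0 = 0 := by rw [sub_smul, one_smul, ← h1, sub_self]
    have h3 : 1 < (2 : ℝ) ^ γ := Real.one_lt_rpow (by norm_num) (by linarith)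
    rcases smul_eq_zero.mp h2 with h | h
    · linarith
    · exact h
  have hdh : ∀ t : ℝ, 0 < t → ∀ x, x ≠ 0 → fderiv ℝ G (t • x) = t ^ (γ - 1) • fderiv ℝ G x := by
    intro t ht x hx
    have htx : t • x ≠ 0 := smul_ne_zero ht.ne' hx
    have h1 : HasFDerivAt (fun y : E 2 => G (t • y))
        ((fderiv ℝ G (t • x)).comp (t • ContinuousLinearMap.id ℝ (E 2))) x :=
      (hd _ htx).comp x ((hasFDerivAt_id x).const_smul t)
    have h2 : HasFDerivAt (fun y : E 2 => G (t • y)) (t ^ γ • fderiv ℝ G x) x := by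
      have e : (fun y : E 2 => G (t • y)) = fun y => t ^ γ • G y := funext fun y => hG t ht y
      rw [e]
      exact (hd x hx).const_smul (t ^ γ)
    have h3 := h1.unique h2
    ext1 v
    have h4 := congrArg (fun L : E 2 →L[ℝ] Mat n 2 => L v) h3
    simp only [ContinuousLinearMap.comp_apply, smul_apply,
      ContinuousLinearMap.id_apply, map_smul] at h4
    rw [smul_apply, Real.rpow_sub_one ht.ne', div_eq_inv_mul, mul_smul, ← h4,
      smul_smul, inv_mul_cancel₀ ht.ne', one_smul]
  -- bounds on the unit sphere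
  have hsph : ∀ x ∈ sphere (0 : E 2) 1, x ≠ 0 := by
    intro x hx h0
    rw [h0, mem_sphere_zero_iff_norm, norm_zero] at hx
    exact zero_ne_one hx
  obtain ⟨M, hM⟩ := (isCompact_sphere (0 : E 2) 1).exists_bound_of_continuousOn
    (f := fderiv ℝ G) (fun x hx =>
      ((hs x (hsph x hx)).continuousAt_fderiv (by simp)).continuousWithinAt)
  obtain ⟨M', hM'⟩ := (isCompact_sphere (0 : E 2) 1).exists_bound_of_continuousOn
    (f := G) (fun x hx => (hs x (hsph x hx)).continuousAt.continuousWithinAt)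
  have hb1 : ∀ x : E 2, ‖G x‖ ≤ M' * ‖x‖ ^ γ := by
    intro x
    by_cases hx : x = 0
    · rw [hx, hG0, norm_zero, norm_zero, Real.zero_rpow (by linarith), mul_zero]
    · have hn : 0 < ‖x‖ := norm_pos_iff.mpr hx
      have h1 := hG ‖x‖ hn (‖x‖⁻¹ • x)
      rw [smul_smul, mul_inv_cancel₀ hn.ne', one_smul] at h1
      rw [h1, norm_smul, Real.norm_of_nonneg (by positivity), mul_comm]
      gcongr
      apply hM'
      rw [mem_sphere_zero_iff_norm, norm_smul, norm_inv, norm_norm, inv_mul_cancel₀ hn.ne']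
  have hb2 : ∀ x : E 2, x ≠ 0 → ‖fderiv ℝ G x‖ ≤ M * ‖x‖ ^ (γ - 1) := by
    intro x hx
    have hn : 0 < ‖x‖ := norm_pos_iff.mpr hx
    have hx' : ‖x‖⁻¹ • x ≠ 0 := smul_ne_zero (inv_ne_zero hn.ne') hx
    have h1 := hdh ‖x‖ hn (‖x‖⁻¹ • x) hx'
    rw [smul_smul, mul_inv_cancel₀ hn.ne', one_smul] at h1
    rw [h1, norm_smul, Real.norm_of_nonneg (by positivity), mul_comm]
    gcongr
    apply hM
    rw [mem_sphere_zero_iff_norm, norm_smul, norm_inv, norm_norm, inv_mul_cancel₀ hn.ne']
  -- differentiability at the origin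
  have hlim : Tendsto (fun x : E 2 => ‖x‖ ^ (γ - 1)) (𝓝 0) (𝓝 0) := by
    have h1 : ContinuousAt (fun x : E 2 => ‖x‖ ^ (γ - 1)) 0 :=
      continuous_norm.continuousAt.rpow_const (Or.inr (by linarith))
    have := h1.tendsto
    rwa [norm_zero, Real.zero_rpow (by linarith)] at this
  have hd0 : HasFDerivAt G (0 : E 2 →L[ℝ] Mat n 2) 0 := by
    rw [hasFDerivAt_iff_tendsto]
    simp only [hG0, sub_zero, zero_apply]
    have h1 : ∀ x : E 2, ‖‖x‖⁻¹ * ‖G x‖‖ ≤ |M'| * ‖x‖ ^ (γ - 1) := by
      intro x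
      rw [Real.norm_of_nonneg (by positivity)]
      by_cases hx : x = 0
      · rw [hx, norm_zero, inv_zero, zero_mul, Real.zero_rpow (by linarith), mul_zero]
      · have hn : 0 < ‖x‖ := norm_pos_iff.mpr hx
        rw [inv_mul_le_iff₀ hn]
        calc ‖G x‖ ≤ M' * ‖x‖ ^ γ := hb1 x
          _ ≤ |M'| * ‖x‖ ^ γ := by gcongr; exact le_abs_self _
          _ = ‖x‖ * (|M'| * ‖x‖ ^ (γ - 1)) := by
              rw [Real.rpow_sub_one hn.ne']; field_simp
    refine squeeze_zero_norm h1 ?_
    simpa using hlim.const_mul |M'|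
  rw [contDiff_one_iff_fderiv]
  refine ⟨fun x => ?_, ?_⟩
  · by_cases hx : x = 0
    · rw [hx]; exact hd0.differentiableAt
    · exact (hd x hx).differentiableAt
  · rw [continuous_iff_continuousAt]
    intro x
    by_cases hx : x = 0
    · rw [hx]
      show Tendsto _ _ _
      rw [hd0.fderiv]
      have h1 : ∀ x : E 2, ‖fderiv ℝ G x‖ ≤ |M| * ‖x‖ ^ (γ - 1) := by
        intro x
        by_cases hx : x = 0
        · rw [hx, hd0.fderiv, norm_zero]; positivity
        · calc _ ≤ M * ‖x‖ ^ (γ - 1) := hb2 x hx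
            _ ≤ _ := by gcongr; exact le_abs_self _
      refine squeeze_zero_norm h1 ?_
      simpa using hlim.const_mul |M|
    · exact (hs x hx).continuousAt_fderiv (by simp)

lemma osc_const {C : Mat n 2} (x : E 2) {r : ℝ} (hr : 0 < r) : osc (fun _ => C) x r = 0 := by
  unfold osc
  have h1 : ⨍ _ in ball x r, C = C := by
    apply setAverage_const
    · exact (isOpen_ball.measure_pos volume ⟨x, mem_ball_self hr⟩).ne'
    · exact measure_ball_lt_top.ne
  simp [h1]

/-- The gradient of a homogeneous map of degree at most one is constant. -/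
lemma grad_const (hc : ContDiff ℝ 1 h) (hh : Homog β h) (hβ : β ≤ 1) (x : E 2) :
    grad h x = grad h 0 := by
  have hcont : Tendsto (fun t : ℝ => grad h (t • x)) (𝓝[>] 0) (𝓝 (grad h 0)) := by
    have h1 : ContinuousAt (fun t : ℝ => grad h (t • x)) 0 :=
      ((continuous_grad hc).comp (by fun_prop : Continuous fun t : ℝ => t • x)).continuousAt
    have h2 := h1.tendsto
    rw [zero_smul] at h2
    exact h2.mono_left nhdsWithin_le_nhds
  rcases eq_or_lt_of_le hβ with h1 | h1
  · have h2 : (fun t : ℝ => grad h (t • x)) =ᶠ[𝓝[>] 0] fun _ => grad h x := by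
      filter_upwards [self_mem_nhdsWithin] with t ht
      rw [grad_homog hc hh ht, h1, sub_self, Real.rpow_zero, one_smul]
    exact (tendsto_nhds_unique (hcont.congr' h2) tendsto_const_nhds).symm
  · -- both sides vanish
    have key : ∀ x : E 2, grad h x = 0 := by
      intro x
      have hcont : Tendsto (fun t : ℝ => grad h (t • x)) (𝓝[>] 0) (𝓝 (grad h 0)) := by
        have h1 : ContinuousAt (fun t : ℝ => grad h (t • x)) 0 :=
          ((continuous_grad hc).comp (by fun_prop : Continuous fun t : ℝ => t • x)).continuousAt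
        have h2 := h1.tendsto
        rw [zero_smul] at h2
        exact h2.mono_left nhdsWithin_le_nhds
      have h3 : Tendsto (fun t : ℝ => t ^ (1 - β)) (𝓝[>] 0) (𝓝 0) := by
        have h4 : ContinuousAt (fun t : ℝ => t ^ (1 - β)) 0 :=
          continuousAt_id.rpow_const (Or.inr (by linarith))
        have h5 := h4.tendsto
        rw [Real.zero_rpow (by linarith)] at h5
        exact h5.mono_left nhdsWithin_le_nhds
      have h4 := h3.smul hcont
      rw [zero_smul] at h4
      have h2 : (fun t : ℝ => t ^ (1 - β) • grad h (t • x)) =ᶠ[𝓝[>] 0] fun _ => grad h x := by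
        filter_upwards [self_mem_nhdsWithin] with t ht
        have ht' : 0 < t := ht
        rw [grad_homog hc hh ht, smul_smul, ← Real.rpow_add ht']
        have : 1 - β + (β - 1) = 0 := by ring
        rw [this, Real.rpow_zero, one_smul]
      exact (tendsto_nhds_unique (h4.congr' h2) tendsto_const_nhds).symm
    rw [key, key]

/-- the quadratic case -/
lemma quadratic (hc : ContDiff ℝ 1 h) (hh : Homog 2 h)
    (hode : ∀ t, HasDerivAt (vv h) (-(4 : ℝ) • uu h t) t) :
    ContDiff ℝ 1 (grad h) := by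
  -- `uu = cos 2t • uu 0 + (sin 2t / 2) • vv 0`
  set a0 := uu h 0 with ha0
  set b0 := vv h 0 with hb0
  have hu : ∀ t, uu h t = Real.cos (2 * t) • a0 + (Real.sin (2 * t) / 2) • b0 := by
    intro t
    have dc : ∀ t : ℝ, HasDerivAt (fun t : ℝ => Real.cos (2 * t)) (-(2 * Real.sin (2 * t))) t := by
      intro t
      have := ((hasDerivAt_id t).const_mul 2).cos
      refine this.congr_deriv ?_
      simp; ring
    have ds : ∀ t : ℝ, HasDerivAt (fun t : ℝ => Real.sin (2 * t)) (2 * Real.cos (2 * t)) t := by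
      intro t
      have := ((hasDerivAt_id t).const_mul 2).sin
      refine this.congr_deriv ?_
      simp; ring
    have d1 : ∀ t, HasDerivAt (fun t => uu h t - (Real.cos (2 * t) • a0
        + (Real.sin (2 * t) / 2) • b0))
        (vv h t - (-(2 * Real.sin (2 * t)) • a0 + (2 * Real.cos (2 * t) / 2) • b0)) t := fun t =>
      (hasDerivAt_uu hc t).sub (((dc t).smul_const a0).add (((ds t).div_const 2).smul_const b0))
    have d2 : ∀ t, HasDerivAt (fun t => vv h t - (-(2 * Real.sin (2 * t)) • a0
        + (2 * Real.cos (2 * t) / 2) • b0))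
        (-(4 : ℝ) • uu h t - (-(2 * (2 * Real.cos (2 * t))) • a0
          + (2 * -(2 * Real.sin (2 * t)) / 2) • b0)) t := fun t =>
      (hode t).sub (((((ds t).const_mul 2).neg).smul_const a0).add
        ((((dc t).const_mul 2).div_const 2).smul_const b0))
    obtain ⟨w, hw⟩ : ∃ w : ℝ → E n, w = fun t => uu h t - (Real.cos (2 * t) • a0
        + (Real.sin (2 * t) / 2) • b0) := ⟨_, rfl⟩
    obtain ⟨z, hz⟩ : ∃ z : ℝ → E n, z = fun t => vv h t - (-(2 * Real.sin (2 * t)) • a0
        + (2 * Real.cos (2 * t) / 2) • b0) := ⟨_, rfl⟩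
    have d1' : ∀ t, HasDerivAt w (z t) t := fun t => by rw [hw, hz]; exact d1 t
    have d2' : ∀ t, HasDerivAt z (-(4 : ℝ) • w t) t := fun t => by
      rw [hw, hz]
      refine (d2 t).congr_deriv ?_
      module
    have hE : ∀ t, HasDerivAt (fun t => 4 * ‖w t‖ ^ 2 + ‖z t‖ ^ 2) 0 t := by
      intro t
      have := ((d1' t).norm_sq.const_mul 4).add (d2' t).norm_sq
      refine this.congr_deriv ?_
      rw [inner_smul_right, real_inner_comm]
      ring
    have hE0 := is_const_of_deriv_eq_zero (fun t => (hE t).differentiableAt)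
      (fun t => (hE t).deriv) t 0
    have hw0 : w 0 = 0 := by rw [hw]; simp [ha0]
    have hz0 : z 0 = 0 := by rw [hz]; simp [hb0]
    simp only [hw0, hz0, norm_zero] at hE0
    have h1 : ‖w t‖ ^ 2 = 0 := by
      have := sq_nonneg ‖w t‖; have := sq_nonneg ‖z t‖; linarith
    have h2 : w t = 0 := norm_eq_zero.mp (pow_eq_zero_iff (two_ne_zero) |>.mp h1)
    rw [hw] at h2
    exact sub_eq_zero.mp h2
  have hform : ∀ x : E 2, h x = (x 0 ^ 2 - x 1 ^ 2) • a0 + (x 0 * x 1) • b0 := by
    intro x
    by_cases hx : x = 0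
    · have h1 := hh 2 (by norm_num) 0
      rw [smul_zero] at h1
      have h2 : ((2 : ℝ) ^ (2 : ℝ) - 1) • h 0 = 0 := by rw [sub_smul, one_smul, ← h1, sub_self]
      have h3 : h 0 = 0 := by
        rcases smul_eq_zero.mp h2 with h | h
        · norm_num at h
        · exact h
      rw [hx, h3]; simp
    · have hn : 0 < ‖x‖ := norm_pos_iff.mpr hx
      set t := Complex.arg ⟨x 0, x 1⟩ with ht
      have e0 : x 0 = ‖x‖ * Real.cos t := by
        have := congrArg (fun z : E 2 => z 0) (polar_rep x)
        simpa [er_zero] using this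
      have e1 : x 1 = ‖x‖ * Real.sin t := by
        have := congrArg (fun z : E 2 => z 1) (polar_rep x)
        simpa [er_one] using this
      have h1 : h x = ‖x‖ ^ (2 : ℝ) • uu h t := by
        conv_lhs => rw [polar_rep x]
        exact hh _ hn _
      rw [h1, hu t, e0, e1, Real.cos_two_mul, Real.sin_two_mul, Real.rpow_two]
      have := Real.sin_sq t
      have e3 : (‖x‖ * Real.cos t) ^ 2 - (‖x‖ * Real.sin t) ^ 2
          = ‖x‖ ^ 2 * (2 * Real.cos t ^ 2 - 1) := by
        rw [mul_pow, mul_pow, this]; ring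
      rw [e3]
      module
  have hcd : ContDiff ℝ ∞ h := by
    have e : h = fun x : E 2 => (x 0 ^ 2 - x 1 ^ 2) • a0 + (x 0 * x 1) • b0 := funext hform
    rw [e]
    have p0 : ContDiff ℝ ∞ fun x : E 2 => x 0 :=
      (EuclideanSpace.proj (0 : Fin 2) : E 2 →L[ℝ] ℝ).contDiff
    have p1 : ContDiff ℝ ∞ fun x : E 2 => x 1 :=
      (EuclideanSpace.proj (1 : Fin 2) : E 2 →L[ℝ] ℝ).contDiff
    exact (((p0.pow 2).sub (p1.pow 2)).smul contDiff_const).add ((p0.mul p1).smul contDiff_const)
  rw [contDiff_euclidean]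
  intro q
  have h1 : ContDiff ℝ 1 (fderiv ℝ h) :=
    (contDiff_infty_iff_fderiv.mp hcd).2.of_le (by exact_mod_cast le_top)
  have h2 : ContDiff ℝ 1 fun x : E 2 => fderiv ℝ h x (EuclideanSpace.single q.2 1) :=
    h1.clm_apply contDiff_const
  exact (contDiff_euclidean.mp h2) q.1

/-- **Main theorem.** -/
theorem main (hp1 : 1 < p) (hp : IsPHarmonic p h) (hh : Homog β h) :
    (ContDiff ℝ 1 fun x => V p (grad h x)) ∧
    (∃ c : ℝ, ∀ (x : E 2) (r θ : ℝ), 0 < r → 0 < θ → θ ≤ 1 →
      osc (fun x => V p (grad h x)) x (θ * r) ≤ c * θ * osc (fun x => V p (grad h x)) x r) ∧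
    ((∀ x, grad h x = grad h 0) ∨ 1 + 2 / p < β ∨ (p = 2 ∧ β = 2)) := by
  obtain ⟨hc, hw⟩ := id hp
  have hconst : (∀ x, grad h x = grad h 0) → (ContDiff ℝ 1 fun x => V p (grad h x)) ∧
    (∃ c : ℝ, ∀ (x : E 2) (r θ : ℝ), 0 < r → 0 < θ → θ ≤ 1 →
      osc (fun x => V p (grad h x)) x (θ * r) ≤ c * θ * osc (fun x => V p (grad h x)) x r) := by
    intro h0
    have e : (fun x => V p (grad h x)) = fun _ => V p (grad h 0) := funext fun x => by rw [h0 x]
    rw [e]
    refine ⟨contDiff_const, 0, fun x r θ hr hθ _ => ?_⟩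
    rw [osc_const x (mul_pos hθ hr), osc_const x hr]
    simp
  rcases le_or_gt β 1 with hβ1 | hβ1
  · have h0 := grad_const hc hh hβ1
    obtain ⟨h1, h2⟩ := hconst h0
    exact ⟨h1, h2, Or.inl h0⟩
  · -- `β > 1`
    have hp0 : 0 < p := by linarith
    set γ := (β - 1) * p / 2 with hγ
    have hγ0 : 0 < γ := by rw [hγ]; have : 0 < β - 1 := by linarith
                           positivity
    set δ := 1 - 2 / p with hδ
    have hb : β = 1 + γ * (1 - δ) := by rw [hγ, hδ]; field_simp; ring
    have ha : (β - 1) * (p - 1) + 1 = 1 + γ * (1 + δ) := by rw [hγ, hδ]; field_simp; ring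
    have hβ0 : β ≠ 0 := by linarith
    have hflux := flux_deriv hp1 hβ0 hp hh
    have hvc := continuous_vv hc
    by_cases hz : ∀ t, uu h t = 0
    · -- the zero map
      have hh0 : ∀ x, h x = 0 := by
        intro x
        by_cases hx : x = 0
        · have h1 := hh 2 (by norm_num) 0
          rw [smul_zero] at h1
          have h2 : ((2 : ℝ) ^ β - 1) • h 0 = 0 := by rw [sub_smul, one_smul, ← h1, sub_self]
          have h3 : 1 < (2 : ℝ) ^ β := Real.one_lt_rpow (by norm_num) (by linarith)
          rw [hx]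
          rcases smul_eq_zero.mp h2 with h | h
          · linarith
          · exact h
        · have hn : 0 < ‖x‖ := norm_pos_iff.mpr hx
          have h1 : h x = ‖x‖ ^ β • uu h (Complex.arg ⟨x 0, x 1⟩) := by
            conv_lhs => rw [polar_rep x]
            exact hh _ hn _
          rw [h1, hz, smul_zero]
      have h0 : ∀ x, grad h x = grad h 0 := by
        have : h = fun _ => 0 := funext hh0
        intro x
        rw [this]
        unfold grad
        simp
      obtain ⟨h1, h2⟩ := hconst h0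
      exact ⟨h1, h2, Or.inl h0⟩
    · push Not at hz
      obtain ⟨t0, ht0⟩ := hz
      have hN0 : 0 < NN β (uu h t0, vv h t0) := by
        unfold NN
        have : 0 < ‖uu h t0‖ := norm_pos_iff.mpr ht0
        have h1 : 0 < β ^ 2 * ‖uu h t0‖ ^ 2 := by positivity
        simp only
        positivity
      have hNa : ∀ t, 0 < NN β (uu h t, vv h t) := fun t =>
        pos_all hp1 hδ hγ0 ha hb (hasDerivAt_uu hc) hvc hflux hN0 t
      have hode : ∀ t, HasDerivAt (vv h) (-(((β - 1) * (p - 1) + 1) * β) • uu h t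
          - om γ δ β (uu h t) (vv h t) • vv h t) t := fun t =>
        profile_ode hp1 hδ ha hb (hasDerivAt_uu hc) hvc hflux t (hNa t)
      have huc := continuous_uu hc
      have hδ1 := delta_bound hp1 hδ
      have homc : Continuous fun t => om γ δ β (uu h t) (vv h t) := by
        unfold om NN
        refine Continuous.div (by fun_prop) (by fun_prop) fun t => ?_
        exact (den_pos' hδ1 (hNa t)).ne'
      have hcv : ContDiff ℝ 1 (vv h) := by
        rw [contDiff_one_iff_deriv]
        refine ⟨fun t => (hode t).differentiableAt, ?_⟩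
        have : deriv (vv h) = fun t => -(((β - 1) * (p - 1) + 1) * β) • uu h t
          - om γ δ β (uu h t) (vv h t) • vv h t := funext fun t => (hode t).deriv
        rw [this]
        have a1 : Continuous fun t => (-(((β - 1) * (p - 1) + 1) * β)) • uu h t := by
          have := huc.const_smul (-(((β - 1) * (p - 1) + 1) * β))
          exact this
        have a2 : Continuous fun t => om γ δ β (uu h t) (vv h t) • vv h t := homc.smul hvc
        exact a1.sub a2
      have hcu : ContDiff ℝ 1 (uu h) := by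
        rw [contDiff_one_iff_deriv]
        refine ⟨fun t => (hasDerivAt_uu hc t).differentiableAt, ?_⟩
        have : deriv (uu h) = vv h := funext fun t => (hasDerivAt_uu hc t).deriv
        rw [this]
        exact hvc
      have hNg : ∀ t, grad h (er t) ≠ 0 := by
        intro t h0
        have h1 := norm_grad_polar hc hh (r := 1) (t := t) one_pos
        rw [one_smul, h0, norm_zero, Real.one_rpow, one_mul] at h1
        exact absurd h1 (Real.sqrt_pos.mpr (hNa t)).ne
      have hne : ∀ x : E 2, x ≠ 0 → V p (grad h x) ≠ 0 := by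
        intro x hx
        apply V_ne_zero
        have hn : 0 < ‖x‖ := norm_pos_iff.mpr hx
        rw [polar_rep x, grad_homog hc hh hn]
        exact smul_ne_zero (Real.rpow_pos_of_pos hn _).ne' (hNg _)
      have hVh : ∀ t : ℝ, 0 < t → ∀ x, (fun x => V p (grad h x)) (t • x)
          = t ^ γ • (fun x => V p (grad h x)) x := fun t ht x => V_homog hc hh hγ ht x
      -- the dichotomy
      have hdich : 1 < γ ∨ (γ = 1 ∧ p = 2) := by
        by_contra hcon
        push Not at hcon
        obtain ⟨h1, h2⟩ := hcon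
        have hne' : γ < 1 ∨ p ≠ 2 := by
          rcases lt_or_eq_of_le h1 with h | h
          · exact Or.inl h
          · exact Or.inr (h2 h)
        have hpu : uu h (2 * Real.pi) = uu h 0 := by
          have := uu_periodic (h := h) 0
          rwa [zero_add] at this
        have hpv : vv h (2 * Real.pi) = vv h 0 := by
          have := vv_periodic (h := h) 0
          rwa [zero_add] at this
        exact ht0 (no_profile hp1 hδ hγ0 h1 hne' ha hb (hasDerivAt_uu hc) hvc hflux hpu hpv t0)
      have hC1 : ContDiff ℝ 1 fun x => V p (grad h x) := by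
        rcases hdich with h1 | ⟨h1, h2⟩
        · exact contDiff_of_homog h1 hVh fun x hx => contDiffAt_ne hc hh hγ hcu hcv hNg hx
        · -- quadratic
          have hβ2 : β = 2 := by
            rw [h2] at hγ
            linarith
          have hδ0 : δ = 0 := by rw [hδ, h2]; norm_num
          have hV : (fun x => V p (grad h x)) = grad h := by
            ext1 x
            unfold V
            rw [h2]
            norm_num
          rw [hV]
          subst hβ2
          apply quadratic hc hh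
          intro t
          refine (hode t).congr_deriv ?_
          have hom : om γ δ 2 (uu h t) (vv h t) = 0 := by
            unfold om; rw [hδ0]; simp
          rw [hom, zero_smul, sub_zero, h2]
          norm_num
      refine ⟨hC1, linear_decay hC1 hγ0 hVh hne, Or.inr ?_⟩
      rcases hdich with h1 | ⟨h1, h2⟩
      · left
        have : 2 / p < β - 1 := by
          rw [div_lt_iff₀ hp0]
          rw [hγ] at h1
          linarith
        linarith
      · right
        refine ⟨h2, ?_⟩
        rw [h2] at hγ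
        linarith

end Pool.Agent.H76.PL
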