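import Pool.Agent.H76.PL.Prof

/-!
# Nonexistence of profiles with `0 < γ ≤ 1`
-/

set_option autoImplicit false
open MeasureTheory Metric Filter Topology Set
open scoped RealInnerProductSpace

namespace Pool.Agent.H76.PL

lemma cont_pos_right {f f' : ℝ → ℝ} (hf : Continuous f) {C : ℝ}
    (h : ∀ t, 0 < f t → HasDerivAt f (f' t) t ∧ |f' t| ≤ C * f t) {t0 : ℝ} (h0 : 0 < f t0)
    {t1 : ℝ} (ht : t0 ≤ t1) : 0 < f t1 := by
  by_contra hcon
  push Not at hcon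
  set S : Set ℝ := {t | t ∈ Icc t0 t1 ∧ f t ≤ 0} with hS
  have hSc : IsClosed S := isClosed_Icc.inter (isClosed_le hf continuous_const)
  have hSn : S.Nonempty := ⟨t1, ⟨ht, le_refl _⟩, hcon⟩
  have hSb : BddBelow S := ⟨t0, fun t ht => ht.1.1⟩
  set s := sInf S with hs
  have hsS : s ∈ S := hSc.csInf_mem hSn hSb
  have hs0 : t0 ≤ s := hsS.1.1
  have hpos : ∀ t ∈ Ico t0 s, 0 < f t := by
    intro t ht
    by_contra hc
    push Not at hc
    have : t ∈ S := ⟨⟨ht.1, ht.2.le.trans hsS.1.2⟩, hc⟩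
    exact absurd (csInf_le hSb this) (not_le.mpr ht.2)
  have hmono : MonotoneOn (fun t => f t * Real.exp (C * t)) (Icc t0 s) := by
    apply monotoneOn_of_deriv_nonneg (convex_Icc _ _)
    · exact (hf.mul (Real.continuous_exp.comp (continuous_const.mul continuous_id))).continuousOn
    · intro t ht
      rw [interior_Icc] at ht
      have h1 := (h t (hpos t ⟨ht.1.le, ht.2⟩)).1
      exact (h1.differentiableAt.mul (by fun_prop)).differentiableWithinAt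
    · intro t ht
      rw [interior_Icc] at ht
      have h1 := h t (hpos t ⟨ht.1.le, ht.2⟩)
      have h2 : HasDerivAt (fun t => Real.exp (C * t)) (Real.exp (C * t) * (C * 1)) t :=
        ((hasDerivAt_id t).const_mul C).exp
      have h3 := h1.1.mul h2
      have h4 : deriv (fun t => f t * Real.exp (C * t)) t
          = f' t * Real.exp (C * t) + f t * (Real.exp (C * t) * (C * 1)) := h3.deriv
      rw [h4]
      have h5 := (abs_le.mp h1.2).1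
      have h6 : f' t * Real.exp (C * t) + f t * (Real.exp (C * t) * (C * 1))
        = (f' t + C * f t) * Real.exp (C * t) := by ring
      rw [h6]
      exact mul_nonneg (by linarith) (Real.exp_pos _).le
  have h1 := hmono ⟨le_refl _, hs0⟩ ⟨hs0, le_refl _⟩ hs0
  have h2 : 0 < f t0 * Real.exp (C * t0) := mul_pos h0 (Real.exp_pos _)
  have h3 : 0 < f s * Real.exp (C * s) := lt_of_lt_of_le h2 h1
  have h4 : 0 < f s := (pos_iff_pos_of_mul_pos h3).mpr (Real.exp_pos _)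
  exact absurd hsS.2 (not_le.mpr h4)

lemma cont_pos {f f' : ℝ → ℝ} (hf : Continuous f) {C : ℝ}
    (h : ∀ t, 0 < f t → HasDerivAt f (f' t) t ∧ |f' t| ≤ C * f t) {t0 : ℝ} (h0 : 0 < f t0)
    (t1 : ℝ) : 0 < f t1 := by
  rcases le_total t0 t1 with ht | ht
  · exact cont_pos_right hf h h0 ht
  · have := cont_pos_right (f := fun t => f (-t)) (f' := fun t => -f' (-t)) (t0 := -t0) (t1 := -t1)
      (C := C) (hf.comp continuous_neg) (fun t ht => ?_) (by simpa using h0) (by linarith)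
    · simpa using this
    · have h1 := h (-t) ht
      refine ⟨?_, by simpa using h1.2⟩
      have := h1.1.scomp t (hasDerivAt_neg t)
      simpa [Function.comp_def] using this

section
variable {F : Type*} [NormedAddCommGroup F] [InnerProductSpace ℝ F] [FiniteDimensional ℝ F]

lemma b_inner_bound {b : ℝ} {x y : F} : |b * ⟪x, y⟫| ≤ NN b (x, y) / 2 := by
  rw [abs_mul]
  have h2 := abs_real_inner_le_norm x y
  have h3 : |b| * |⟪x, y⟫| ≤ |b| * (‖x‖ * ‖y‖) := by gcongr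
  have h4 : |b| * (‖x‖ * ‖y‖) ≤ NN b (x, y) / 2 := by
    unfold NN
    have : b ^ 2 = |b| ^ 2 := (sq_abs b).symm
    simp only [this]
    nlinarith [sq_nonneg (|b| * ‖x‖ - ‖y‖)]
  linarith

lemma delta_bound {p δ : ℝ} (hp : 1 < p) (hδ : δ = 1 - 2 / p) : |δ| < 1 := by
  have hp0 : 0 < p := by linarith
  have hd1 : δ < 1 := by
    rw [hδ]; have : 0 < 2 / p := by positivity
    linarith
  have hd2 : -1 < δ := by
    rw [hδ]
    have : 2 / p < 2 := by rw [div_lt_iff₀ hp0]; linarith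
    linarith
  exact abs_lt.mpr ⟨hd2, hd1⟩

/-- positivity propagates. -/
theorem pos_all {p γ δ a b : ℝ} (hp : 1 < p) (hδ : δ = 1 - 2 / p) (hγ : 0 < γ)
    (ha : a = 1 + γ * (1 + δ)) (hb : b = 1 + γ * (1 - δ)) {u v : ℝ → F}
    (hu : ∀ t, HasDerivAt u (v t) t) (hv : Continuous v)
    (hg : ∀ t, HasDerivAt (fun s => (NN b (u s, v s)) ^ ((p - 2) / 2) • v s)
      (-((a * b) * (NN b (u t, v t)) ^ ((p - 2) / 2)) • u t) t)
    {t0 : ℝ} (h0 : 0 < NN b (u t0, v t0)) (t : ℝ) : 0 < NN b (u t, v t) := by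
  have hδ1 := delta_bound hp hδ
  have hu' : Continuous u := continuous_iff_continuousAt.mpr fun t => (hu t).continuousAt
  refine cont_pos (f := fun t => NN b (u t, v t)) (f' := fun t => b ^ 2 * (2 * ⟪u t, v t⟫)
    + 2 * ⟪v t, -(a * b) • u t - om γ δ b (u t) (v t) • v t⟫)
    (C := |b - a| + 2 * (2 * γ / (1 - |δ|))) ?_ ?_ h0 t
  · unfold NN; fun_prop
  · intro t ht
    have h1 := profile_ode hp hδ ha hb hu hv hg t ht
    refine ⟨hasDerivAt_NN (hu t) h1, ?_⟩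
    have e : b ^ 2 * (2 * ⟪u t, v t⟫) + 2 * ⟪v t, -(a * b) • u t - om γ δ b (u t) (v t) • v t⟫
        = 2 * (b - a) * (b * ⟪u t, v t⟫) - 2 * om γ δ b (u t) (v t) * ‖v t‖ ^ 2 := by
      rw [inner_sub_right, inner_smul_right, inner_smul_right, real_inner_self_eq_norm_sq,
        real_inner_comm]
      ring
    rw [e]
    have h2 := b_inner_bound (b := b) (x := u t) (y := v t)
    have h3 := om_bound hγ hδ1 ht
    have h4 : ‖v t‖ ^ 2 ≤ NN b (u t, v t) := by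
      unfold NN
      have : 0 ≤ b ^ 2 * ‖u t‖ ^ 2 := by positivity
      simp only
      linarith
    have h5 : 0 ≤ 2 * γ / (1 - |δ|) := div_nonneg (by linarith) (by linarith)
    calc |2 * (b - a) * (b * ⟪u t, v t⟫) - 2 * om γ δ b (u t) (v t) * ‖v t‖ ^ 2|
        ≤ |2 * (b - a) * (b * ⟪u t, v t⟫)| + |2 * om γ δ b (u t) (v t) * ‖v t‖ ^ 2| := abs_sub _ _
      _ = 2 * |b - a| * |b * ⟪u t, v t⟫| + 2 * |om γ δ b (u t) (v t)| * ‖v t‖ ^ 2 := by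
          simp only [abs_mul, abs_two, abs_pow, abs_norm]
      _ ≤ 2 * |b - a| * (NN b (u t, v t) / 2) + 2 * (2 * γ / (1 - |δ|)) * NN b (u t, v t) := by
          gcongr
      _ = _ := by ring

/-- Gram–Schmidt for two vectors. -/
lemma gs (x y : F) : ∃ e1 e2 : F,
    (∀ z : F, z = ⟪e1, z⟫ • e1 + ⟪e2, z⟫ • e2 → ‖z‖ ^ 2 = ⟪e1, z⟫ ^ 2 + ⟪e2, z⟫ ^ 2) ∧
    (x = ⟪e1, x⟫ • e1 + ⟪e2, x⟫ • e2) ∧ (y = ⟪e1, y⟫ • e1 + ⟪e2, y⟫ • e2) := by
  -- unit vector or zero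
  have hun : ∀ w : F, ∃ e : F, ⟪e, w⟫ • e = w ∧ (∀ z : F, ⟪w, z⟫ = 0 → ⟪e, z⟫ = 0) ∧
      (e = 0 ∨ ‖e‖ = 1) := by
    intro w
    by_cases hw : w = 0
    · exact ⟨0, by simp [hw], by simp, Or.inl rfl⟩
    · have hn : ‖w‖ ≠ 0 := norm_ne_zero_iff.mpr hw
      refine ⟨‖w‖⁻¹ • w, ?_, ?_, Or.inr ?_⟩
      · rw [real_inner_smul_left, real_inner_self_eq_norm_sq, smul_smul]
        have : ‖w‖⁻¹ * ‖w‖ ^ 2 * ‖w‖⁻¹ = 1 := by field_simp
        rw [this, one_smul]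
      · intro z hz
        rw [real_inner_smul_left, hz, mul_zero]
      · rw [norm_smul, norm_inv, norm_norm, inv_mul_cancel₀ hn]
  obtain ⟨e1, h1, h1', h1n⟩ := hun x
  obtain ⟨e2, h2, h2', h2n⟩ := hun (y - ⟪e1, y⟫ • e1)
  have h11 : ∀ z : F, ⟪e1, z⟫ * ⟪e1, e1⟫ = ⟪e1, z⟫ := by
    intro z
    rcases h1n with h | h
    · simp [h]
    · rw [real_inner_self_eq_norm_sq, h]; ring
  have h22 : ∀ z : F, ⟪e2, z⟫ * ⟪e2, e2⟫ = ⟪e2, z⟫ := by
    intro z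
    rcases h2n with h | h
    · simp [h]
    · rw [real_inner_self_eq_norm_sq, h]; ring
  have h12 : ⟪e2, e1⟫ = 0 := by
    apply h2'
    rw [inner_sub_left, real_inner_smul_left, h11, real_inner_comm]
    ring
  have h21 : ⟪e1, e2⟫ = 0 := by rw [real_inner_comm]; exact h12
  refine ⟨e1, e2, ?_, ?_, ?_⟩
  · intro z hz
    have : ‖z‖ ^ 2 = ⟪z, z⟫ := (real_inner_self_eq_norm_sq z).symm
    rw [this]
    nth_rewrite 1 [hz]
    rw [inner_add_left, real_inner_smul_left, real_inner_smul_left]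
    ring
  · have h3 : ⟪e2, x⟫ = 0 := by
      rw [← h1, inner_smul_right, h12, mul_zero]
    rw [h3, zero_smul, add_zero, h1]
  · have h4 : ⟪e2, y - ⟪e1, y⟫ • e1⟫ = ⟪e2, y⟫ := by
      rw [inner_sub_right, inner_smul_right, h12]; ring
    rw [h4] at h2
    rw [h2]; abel

/-- **No profile with `0 < γ ≤ 1`** except for `γ = 1`, `p = 2`. -/
theorem no_profile {p γ δ a b : ℝ} (hp : 1 < p) (hδ : δ = 1 - 2 / p) (hγ : 0 < γ) (hγ1 : γ ≤ 1)
    (hne : γ < 1 ∨ p ≠ 2)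
    (ha : a = 1 + γ * (1 + δ)) (hb : b = 1 + γ * (1 - δ)) {u v : ℝ → F}
    (hu : ∀ t, HasDerivAt u (v t) t) (hv : Continuous v)
    (hg : ∀ t, HasDerivAt (fun s => (NN b (u s, v s)) ^ ((p - 2) / 2) • v s)
      (-((a * b) * (NN b (u t, v t)) ^ ((p - 2) / 2)) • u t) t)
    (hpu : u (2 * Real.pi) = u 0) (hpv : v (2 * Real.pi) = v 0) (t : ℝ) : u t = 0 := by
  by_contra hut
  have hδ1 := delta_bound hp hδ
  have hb0 : 0 < b := by
    rw [hb]
    have := (abs_lt.mp hδ1).2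
    have : 0 < γ * (1 - δ) := mul_pos hγ (by linarith)
    linarith
  have h0 : 0 < NN b (u t, v t) := by
    unfold NN
    have : 0 < ‖u t‖ := norm_pos_iff.mpr hut
    have h1 : 0 < b ^ 2 * ‖u t‖ ^ 2 := by positivity
    simp only
    positivity
  have hN := fun t => pos_all hp hδ hγ ha hb hu hv hg h0 t
  have hode := fun t => profile_ode hp hδ ha hb hu hv hg t (hN t)
  have hu' : Continuous u := continuous_iff_continuousAt.mpr fun t => (hu t).continuousAt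
  obtain ⟨ω, hω⟩ : ∃ ω : ℝ → ℝ, ω = fun t => om γ δ b (u t) (v t) := ⟨_, rfl⟩
  have hωc : Continuous ω := by
    rw [hω]
    unfold om NN
    refine Continuous.div (by fun_prop) (by fun_prop) fun t => ?_
    exact (den_pos' hδ1 (hN t)).ne'
  have hωb : ∀ t, |ω t| ≤ 2 * γ / (1 - |δ|) := fun t => by
    rw [hω]; exact om_bound hγ hδ1 (hN t)
  have hode' : ∀ t, HasDerivAt v (-(a * b) • u t - ω t • v t) t := fun t => by
    rw [hω]; exact hode t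
  have hcC : 0 ≤ 2 * γ / (1 - |δ|) := div_nonneg (by linarith) (by linarith)
  -- planar
  obtain ⟨e1, e2, hnorm, hx0, hy0⟩ := gs (u 0) (v 0)
  set P : F →L[ℝ] F := ContinuousLinearMap.id ℝ F
    - ((innerSL ℝ e1).smulRight e1 + (innerSL ℝ e2).smulRight e2) with hP
  have hPa : ∀ z, P z = z - (⟪e1, z⟫ • e1 + ⟪e2, z⟫ • e2) := fun z => by simp [hP]
  have hPu : ∀ t, HasDerivAt (fun t => P (u t)) (P (v t)) t := fun t =>
    (P.hasFDerivAt.comp_hasDerivAt t (hu t))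
  have hPv : ∀ t, HasDerivAt (fun t => P (v t)) (-(a * b) • P (u t) - ω t • P (v t)) t := fun t => by
    have : HasDerivAt (fun t => P (v t)) (P (-(a * b) • u t - ω t • v t)) t :=
      P.hasFDerivAt.comp_hasDerivAt t (hode' t)
    refine this.congr_deriv ?_
    rw [map_sub, map_smul, map_smul]
  have hm : ∀ t, ‖P (u t)‖ ^ 2 + ‖P (v t)‖ ^ 2 = 0 := by
    intro t
    by_contra hne0
    have hpos : 0 < ‖P (u t)‖ ^ 2 + ‖P (v t)‖ ^ 2 := lt_of_le_of_ne (by positivity) (Ne.symm hne0)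
    have hcp := cont_pos (f := fun t => ‖P (u t)‖ ^ 2 + ‖P (v t)‖ ^ 2)
      (f' := fun t => 2 * ⟪P (u t), P (v t)⟫ + 2 * ⟪P (v t), -(a * b) • P (u t) - ω t • P (v t)⟫)
      (C := 1 + |a * b| + 2 * (2 * γ / (1 - |δ|))) (by fun_prop) (fun s hs => ?_) hpos 0
    · have e1' : P (u 0) = 0 := by rw [hPa, ← hx0, sub_self]
      have e2' : P (v 0) = 0 := by rw [hPa, ← hy0, sub_self]
      simp [e1', e2'] at hcp
    · refine ⟨(hPu s).norm_sq.add (hPv s).norm_sq, ?_⟩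
      have e : 2 * ⟪P (u s), P (v s)⟫ + 2 * ⟪P (v s), -(a * b) • P (u s) - ω s • P (v s)⟫
          = 2 * (1 - a * b) * ⟪P (u s), P (v s)⟫ - 2 * ω s * ‖P (v s)‖ ^ 2 := by
        rw [inner_sub_right, inner_smul_right, inner_smul_right, real_inner_self_eq_norm_sq,
          real_inner_comm (P (u s)) (P (v s))]
        ring
      rw [e]
      have h2 : |⟪P (u s), P (v s)⟫| ≤ (‖P (u s)‖ ^ 2 + ‖P (v s)‖ ^ 2) / 2 := by
        have := abs_real_inner_le_norm (P (u s)) (P (v s))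
        nlinarith [sq_nonneg (‖P (u s)‖ - ‖P (v s)‖)]
      have h3 : |1 - a * b| ≤ 1 + |a * b| := by
        calc _ ≤ |(1 : ℝ)| + |a * b| := abs_sub _ _
          _ = _ := by rw [abs_one]
      calc |2 * (1 - a * b) * ⟪P (u s), P (v s)⟫ - 2 * ω s * ‖P (v s)‖ ^ 2|
          ≤ |2 * (1 - a * b) * ⟪P (u s), P (v s)⟫| + |2 * ω s * ‖P (v s)‖ ^ 2| := abs_sub _ _
        _ = 2 * |1 - a * b| * |⟪P (u s), P (v s)⟫| + 2 * |ω s| * ‖P (v s)‖ ^ 2 := by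
            simp only [abs_mul, abs_two, abs_pow, abs_norm]
        _ ≤ 2 * (1 + |a * b|) * ((‖P (u s)‖ ^ 2 + ‖P (v s)‖ ^ 2) / 2)
            + 2 * (2 * γ / (1 - |δ|)) * (‖P (u s)‖ ^ 2 + ‖P (v s)‖ ^ 2) := by
            have := hωb s
            have h6 : ‖P (v s)‖ ^ 2 ≤ ‖P (u s)‖ ^ 2 + ‖P (v s)‖ ^ 2 := by
              have : 0 ≤ ‖P (u s)‖ ^ 2 := by positivity
              linarith
            gcongr
        _ = _ := by ring
  have hue : ∀ t, u t = ⟪e1, u t⟫ • e1 + ⟪e2, u t⟫ • e2 := by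
    intro t
    have h1 := hm t
    have h2 : ‖P (u t)‖ ^ 2 = 0 := by
      have := sq_nonneg ‖P (u t)‖; have := sq_nonneg ‖P (v t)‖; linarith
    have h3 : P (u t) = 0 := norm_eq_zero.mp (pow_eq_zero_iff (two_ne_zero) |>.mp h2)
    rw [hPa, sub_eq_zero] at h3
    exact h3
  have hve : ∀ t, v t = ⟪e1, v t⟫ • e1 + ⟪e2, v t⟫ • e2 := by
    intro t
    have h1 := hm t
    have h2 : ‖P (v t)‖ ^ 2 = 0 := by
      have := sq_nonneg ‖P (u t)‖; have := sq_nonneg ‖P (v t)‖; linarith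
    have h3 : P (v t) = 0 := norm_eq_zero.mp (pow_eq_zero_iff (two_ne_zero) |>.mp h2)
    rw [hPa, sub_eq_zero] at h3
    exact h3
  -- coordinates
  have nu : ∀ t, ‖u t‖ ^ 2 = ⟪e1, u t⟫ ^ 2 + ⟪e2, u t⟫ ^ 2 := fun t => hnorm _ (hue t)
  have nv : ∀ t, ‖v t‖ ^ 2 = ⟪e1, v t⟫ ^ 2 + ⟪e2, v t⟫ ^ 2 := fun t => hnorm _ (hve t)
  have iuv : ∀ t, ⟪u t, v t⟫ = ⟪e1, u t⟫ * ⟪e1, v t⟫ + ⟪e2, u t⟫ * ⟪e2, v t⟫ := by
    intro t
    nth_rewrite 1 [hue t]
    rw [inner_add_left, real_inner_smul_left, real_inner_smul_left]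
  have dc1 : ∀ t, HasDerivAt (fun t => ⟪e1, u t⟫) ⟪e1, v t⟫ t := fun t =>
    ((innerSL ℝ e1).hasFDerivAt.comp_hasDerivAt t (hu t))
  have dc2 : ∀ t, HasDerivAt (fun t => ⟪e2, u t⟫) ⟪e2, v t⟫ t := fun t =>
    ((innerSL ℝ e2).hasFDerivAt.comp_hasDerivAt t (hu t))
  have ds1 : ∀ t, HasDerivAt (fun t => ⟪e1, v t⟫) (-(a * b) * ⟪e1, u t⟫ - ω t * ⟪e1, v t⟫) t := by
    intro t
    have : HasDerivAt (fun t => ⟪e1, v t⟫) (⟪e1, -(a * b) • u t - ω t • v t⟫) t :=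
      (innerSL ℝ e1).hasFDerivAt.comp_hasDerivAt t (hode' t)
    refine this.congr_deriv ?_
    rw [inner_sub_right, inner_smul_right, inner_smul_right]
  have ds2 : ∀ t, HasDerivAt (fun t => ⟪e2, v t⟫) (-(a * b) * ⟪e2, u t⟫ - ω t * ⟪e2, v t⟫) t := by
    intro t
    have : HasDerivAt (fun t => ⟪e2, v t⟫) (⟪e2, -(a * b) • u t - ω t • v t⟫) t :=
      (innerSL ℝ e2).hasFDerivAt.comp_hasDerivAt t (hode' t)
    refine this.congr_deriv ?_
    rw [inner_sub_right, inner_smul_right, inner_smul_right]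
  have hne' : γ < 1 ∨ δ ≠ 0 := by
    rcases hne with h | h
    · exact Or.inl h
    · refine Or.inr fun h2 => h ?_
      rw [hδ] at h2
      have hp0 : p ≠ 0 := by linarith
      field_simp at h2
      linarith
  have hωe : ∀ t, ω t * ((b ^ 2 * (⟪e1, u t⟫ ^ 2 + ⟪e2, u t⟫ ^ 2)
      + (⟪e1, v t⟫ ^ 2 + ⟪e2, v t⟫ ^ 2))
      - δ * (b ^ 2 * (⟪e1, u t⟫ ^ 2 + ⟪e2, u t⟫ ^ 2) - (⟪e1, v t⟫ ^ 2 + ⟪e2, v t⟫ ^ 2)))
      = -(4 * γ * δ ^ 2) * (b * (⟪e1, u t⟫ * ⟪e1, v t⟫ + ⟪e2, u t⟫ * ⟪e2, v t⟫)) := by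
    intro t
    rw [← nu, ← nv, ← iuv, hω]
    unfold om
    have := (den_pos' (b := b) hδ1 (hN t)).ne'
    unfold NN at this ⊢
    simp only at this ⊢
    field_simp
  have hN' : ∀ t, 0 < nn b ⟪e1, u t⟫ ⟪e2, u t⟫ ⟪e1, v t⟫ ⟪e2, v t⟫ := by
    intro t
    have := hN t
    unfold nn
    rw [← nu, ← nv]
    exact this
  -- sign of the angular momentum
  have dI : ∀ t, HasDerivAt (fun t => ⟪e1, u t⟫ * ⟪e2, v t⟫ - ⟪e2, u t⟫ * ⟪e1, v t⟫)
      (-ω t * (⟪e1, u t⟫ * ⟪e2, v t⟫ - ⟪e2, u t⟫ * ⟪e1, v t⟫)) t := by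
    intro t
    have := ((dc1 t).mul (ds2 t)).sub ((dc2 t).mul (ds1 t))
    refine this.congr_deriv ?_
    ring
  have cI : Continuous (fun t => ⟪e1, u t⟫ * ⟪e2, v t⟫ - ⟪e2, u t⟫ * ⟪e1, v t⟫) := by fun_prop
  have hsign : (∀ t, 0 ≤ ⟪e1, u t⟫ * ⟪e2, v t⟫ - ⟪e2, u t⟫ * ⟪e1, v t⟫) ∨
      (∀ t, 0 ≤ ⟪e2, u t⟫ * ⟪e1, v t⟫ - ⟪e1, u t⟫ * ⟪e2, v t⟫) := by
    by_contra hcon
    push Not at hcon
    obtain ⟨⟨t1, h1⟩, ⟨t2, h2⟩⟩ := hcon
    have h2' : 0 < ⟪e1, u t2⟫ * ⟪e2, v t2⟫ - ⟪e2, u t2⟫ * ⟪e1, v t2⟫ := by linarith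
    have h3 := cont_pos (f := fun t => ⟪e1, u t⟫ * ⟪e2, v t⟫ - ⟪e2, u t⟫ * ⟪e1, v t⟫)
      (f' := fun t => -ω t * (⟪e1, u t⟫ * ⟪e2, v t⟫ - ⟪e2, u t⟫ * ⟪e1, v t⟫))
      (C := 2 * γ / (1 - |δ|)) cI (fun s hs => ⟨dI s, ?_⟩) h2' t1
    · linarith
    · rw [abs_mul, abs_neg, abs_of_pos hs]
      have := hωb s
      exact mul_le_mul_of_nonneg_right this hs.le
  rcases hsign with hs | hs
  · exact circ hγ hγ1 hδ1 hne' ha hb dc1 dc2 ds1 ds2 hωc hωe hN' hs (by rw [hpu]) (by rw [hpu])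
      (by rw [hpv]) (by rw [hpv])
  · refine circ (c1 := fun t => ⟪e2, u t⟫) (c2 := fun t => ⟪e1, u t⟫) (s1 := fun t => ⟪e2, v t⟫)
      (s2 := fun t => ⟪e1, v t⟫) hγ hγ1 hδ1 hne' ha hb dc2 dc1 ds2 ds1 hωc ?_ ?_ hs
      (by simp only [hpu]) (by simp only [hpu]) (by simp only [hpv]) (by simp only [hpv])
    · intro t
      have := hωe t
      rw [add_comm (⟪e2, u t⟫ ^ 2), add_comm (⟪e2, v t⟫ ^ 2), add_comm (⟪e2, u t⟫ * ⟪e2, v t⟫)]
      exact this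
    · intro t
      have := hN' t
      unfold nn at this ⊢
      rw [add_comm (⟪e2, u t⟫ ^ 2), add_comm (⟪e2, v t⟫ ^ 2)]
      exact this

end

end Pool.Agent.H76.PL
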