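import Mathlib

/-!
# Definitions and polar coordinates
-/

set_option autoImplicit false
open MeasureTheory Metric Filter Topology Set
open scoped ContDiff RealInnerProductSpace

namespace Pool.Agent.H76.PL

abbrev E (d : ℕ) := EuclideanSpace ℝ (Fin d)

/-- `n × d` matrices with the Frobenius norm and inner product. -/
abbrev Mat (n d : ℕ) := EuclideanSpace ℝ (Fin n × Fin d)

/-- The gradient matrix `(∂_i h_a (x))` of a map `h`. -/
noncomputable def grad {d n : ℕ} (h : E d → E n) (x : E d) : Mat n d :=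
  WithLp.toLp 2 fun q => fderiv ℝ h x (EuclideanSpace.single q.2 1) q.1

/-- `A(ξ) = |ξ|^(p-2) ξ`. -/
noncomputable def A {n d : ℕ} (p : ℝ) (ξ : Mat n d) : Mat n d := ‖ξ‖ ^ (p - 2) • ξ

/-- `V(ξ) = |ξ|^((p-2)/2) ξ`. -/
noncomputable def V {n d : ℕ} (p : ℝ) (ξ : Mat n d) : Mat n d := ‖ξ‖ ^ ((p - 2) / 2) • ξ

/-- The `L²` mean oscillation of `f` on the ball of centre `c` and radius `r`. -/
noncomputable def osc {n d : ℕ} (f : E d → Mat n d) (c : E d) (r : ℝ) : ℝ :=
  Real.sqrt (⨍ x in ball c r, ‖f x - ⨍ y in ball c r, f y‖ ^ 2)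

/-- `h` is a `p`-harmonic map of class `C¹` on `ℝ^d`. -/
def IsPHarmonic {d n : ℕ} (p : ℝ) (h : E d → E n) : Prop :=
  ContDiff ℝ 1 h ∧ ∀ φ : E d → E n, ContDiff ℝ ∞ φ → HasCompactSupport φ →
    ∫ x, ⟪A p (grad h x), grad φ x⟫ = 0

/-- unit vectors -/
noncomputable def ee (i : Fin 2) : E 2 := EuclideanSpace.single i 1

/-- The radial unit vector. -/
noncomputable def er (t : ℝ) : E 2 := Real.cos t • ee 0 + Real.sin t • ee 1

/-- The tangential unit vector. -/
noncomputable def et (t : ℝ) : E 2 := (-Real.sin t) • ee 0 + Real.cos t • ee 1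

lemma hasDerivAt_er (t : ℝ) : HasDerivAt er (et t) t := by
  have h1 := (Real.hasDerivAt_cos t).smul_const (ee 0)
  have h2 := (Real.hasDerivAt_sin t).smul_const (ee 1)
  exact h1.add h2

lemma continuous_er : Continuous er :=
  continuous_iff_continuousAt.mpr fun t => (hasDerivAt_er t).continuousAt

lemma continuous_et : Continuous et := by unfold et; fun_prop

@[simp] lemma ee_apply (i j : Fin 2) : (ee i) j = if j = i then (1 : ℝ) else 0 := by
  simp [ee, Pi.single_apply]

lemma er_zero (t : ℝ) : (er t) 0 = Real.cos t := by simp [er]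

lemma er_one (t : ℝ) : (er t) 1 = Real.sin t := by simp [er]

lemma norm_er (t : ℝ) : ‖er t‖ = 1 := by
  rw [EuclideanSpace.norm_eq]
  simp [Fin.sum_univ_two, er_zero, er_one]

lemma er_periodic (t : ℝ) : er (t + 2 * Real.pi) = er t := by simp [er]

lemma et_periodic (t : ℝ) : et (t + 2 * Real.pi) = et t := by simp [et]

lemma er_add_pi (t : ℝ) : er (t + Real.pi) = -er t := by
  simp only [er, Real.cos_add_pi, Real.sin_add_pi, neg_smul, neg_add]

lemma et_add_pi (t : ℝ) : et (t + Real.pi) = -et t := by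
  simp only [et, Real.cos_add_pi, Real.sin_add_pi, neg_smul, neg_add, neg_neg]

/-- inner products of gradients in polar frames. -/
lemma inner_grad {n : ℕ} (h φ : E 2 → E n) (x : E 2) (t : ℝ) :
    ⟪grad h x, grad φ x⟫ = ⟪fderiv ℝ h x (er t), fderiv ℝ φ x (er t)⟫
      + ⟪fderiv ℝ h x (et t), fderiv ℝ φ x (et t)⟫ := by
  have e0 : ⟪grad h x, grad φ x⟫ = ⟪fderiv ℝ h x (ee 0), fderiv ℝ φ x (ee 0)⟫
      + ⟪fderiv ℝ h x (ee 1), fderiv ℝ φ x (ee 1)⟫ := by
    simp only [grad, PiLp.inner_apply, Fintype.sum_prod_type, Fin.sum_univ_two, ee,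
      Finset.sum_add_distrib]
  rw [e0]
  simp only [er, et, map_add, map_smul, inner_add_left, inner_add_right, inner_smul_left,
    inner_smul_right, RCLike.conj_to_real]
  have := Real.sin_sq_add_cos_sq t
  linear_combination (-(⟪fderiv ℝ h x (ee 0), fderiv ℝ φ x (ee 0)⟫
      + ⟪fderiv ℝ h x (ee 1), fderiv ℝ φ x (ee 1)⟫)) * this

lemma norm_grad_sq {n : ℕ} (h : E 2 → E n) (x : E 2) (t : ℝ) :
    ‖grad h x‖ ^ 2 = ‖fderiv ℝ h x (er t)‖ ^ 2 + ‖fderiv ℝ h x (et t)‖ ^ 2 := by
  rw [← real_inner_self_eq_norm_sq, inner_grad h h x t, real_inner_self_eq_norm_sq,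
    real_inner_self_eq_norm_sq]

/-- integration in polar coordinates. -/
lemma integral_polar {G : Type*} [NormedAddCommGroup G] [NormedSpace ℝ G] (f : E 2 → G) :
    ∫ x, f x = ∫ q in Ioi (0 : ℝ) ×ˢ Ioo (-Real.pi) Real.pi, q.1 • f (q.1 • er q.2) := by
  have hmp : MeasurePreserving
      ((MeasurableEquiv.toLp 2 (Fin 2 → ℝ)).symm.trans (MeasurableEquiv.finTwoArrow (α := ℝ))) :=
    (EuclideanSpace.volume_preserving_symm_measurableEquiv_toLp (Fin 2)).trans
      (volume_preserving_finTwoArrow ℝ)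
  have h1 : ∫ x, f x = ∫ q : ℝ × ℝ, f (q.1 • ee 0 + q.2 • ee 1) := by
    rw [← hmp.integral_comp' (fun q : ℝ × ℝ => f (q.1 • ee 0 + q.2 • ee 1))]
    apply integral_congr_ae
    refine Eventually.of_forall fun x => ?_
    simp only
    congr 1
    ext i
    fin_cases i <;> simp
  rw [h1, ← integral_comp_polarCoord_symm]
  apply setIntegral_congr_fun polarCoord.open_target.measurableSet
  intro q hq
  simp only [polarCoord_symm_apply, er, smul_add, smul_smul]

end Pool.Agent.H76.PL
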