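import Pool.Agent.H76.PL.Reg

/-!
# The profile equation
-/

set_option autoImplicit false
open MeasureTheory Metric Filter Topology Set
open scoped RealInnerProductSpace ContDiff

namespace Pool.Agent.H76.PL

section prof
variable {F : Type*} [NormedAddCommGroup F] [InnerProductSpace ℝ F]

/-- the coefficient `W'/W`. -/
noncomputable def om (γ δ b : ℝ) (x y : F) : ℝ :=
  -(4 * γ * δ ^ 2) * (b * ⟪x, y⟫) / (NN b (x, y) - δ * (b ^ 2 * ‖x‖ ^ 2 - ‖y‖ ^ 2))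

lemma den_pos {δ b : ℝ} (hδ : |δ| < 1) {x y : F} (hN : 0 < NN b (x, y)) :
    (1 - |δ|) * NN b (x, y) ≤ NN b (x, y) - δ * (b ^ 2 * ‖x‖ ^ 2 - ‖y‖ ^ 2) := by
  have h1 : |b ^ 2 * ‖x‖ ^ 2 - ‖y‖ ^ 2| ≤ NN b (x, y) := by
    unfold NN
    rw [abs_le]
    constructor <;> nlinarith [sq_nonneg (b * ‖x‖), sq_nonneg ‖y‖]
  have h2 : δ * (b ^ 2 * ‖x‖ ^ 2 - ‖y‖ ^ 2) ≤ |δ| * NN b (x, y) := by
    calc _ ≤ |δ * (b ^ 2 * ‖x‖ ^ 2 - ‖y‖ ^ 2)| := le_abs_self _
      _ = |δ| * |b ^ 2 * ‖x‖ ^ 2 - ‖y‖ ^ 2| := abs_mul _ _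
      _ ≤ _ := by gcongr
  linarith

lemma den_pos' {δ b : ℝ} (hδ : |δ| < 1) {x y : F} (hN : 0 < NN b (x, y)) :
    0 < NN b (x, y) - δ * (b ^ 2 * ‖x‖ ^ 2 - ‖y‖ ^ 2) :=
  lt_of_lt_of_le (mul_pos (by linarith) hN) (den_pos hδ hN)

lemma om_bound {γ δ b : ℝ} (hγ : 0 < γ) (hδ : |δ| < 1) {x y : F} (hN : 0 < NN b (x, y)) :
    |om γ δ b x y| ≤ 2 * γ / (1 - |δ|) := by
  have hd := den_pos' hδ hN
  have h1 : |b * ⟪x, y⟫| ≤ NN b (x, y) / 2 := by
    rw [abs_mul]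
    have h2 := abs_real_inner_le_norm x y
    have h3 : |b| * |⟪x, y⟫| ≤ |b| * (‖x‖ * ‖y‖) := by gcongr
    have h4 : |b| * (‖x‖ * ‖y‖) ≤ NN b (x, y) / 2 := by
      unfold NN
      have : b ^ 2 = |b| ^ 2 := (sq_abs b).symm
      simp only [this]
      nlinarith [sq_nonneg (|b| * ‖x‖ - ‖y‖)]
    linarith
  unfold om
  rw [abs_div, abs_of_pos hd, div_le_div_iff₀ hd (by linarith)]
  have h5 : |-(4 * γ * δ ^ 2) * (b * ⟪x, y⟫)| ≤ 4 * γ * (NN b (x, y) / 2) := by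
    rw [abs_mul, abs_neg]
    have : |4 * γ * δ ^ 2| ≤ 4 * γ := by
      rw [abs_of_nonneg (by positivity)]
      have : δ ^ 2 ≤ 1 := by
        rw [sq_le_one_iff_abs_le_one]; exact hδ.le
      nlinarith
    calc _ ≤ 4 * γ * |b * ⟪x, y⟫| := by gcongr
      _ ≤ _ := by gcongr
  have h6 := den_pos hδ hN
  calc |-(4 * γ * δ ^ 2) * (b * ⟪x, y⟫)| * (1 - |δ|) ≤ 4 * γ * (NN b (x, y) / 2) * (1 - |δ|) := by
        have : 0 ≤ 1 - |δ| := by linarith
        gcongr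
    _ = 2 * γ * ((1 - |δ|) * NN b (x, y)) := by ring
    _ ≤ _ := by gcongr

lemma hasDerivAt_NN {b : ℝ} {u v : ℝ → F} {t : ℝ} {u' v' : F} (hu : HasDerivAt u u' t)
    (hv : HasDerivAt v v' t) :
    HasDerivAt (fun s => NN b (u s, v s)) (b ^ 2 * (2 * ⟪u t, u'⟫) + 2 * ⟪v t, v'⟫) t := by
  have h1 := hu.norm_sq
  have h2 := hv.norm_sq
  unfold NN
  exact (h1.const_mul (b ^ 2)).add h2

variable [FiniteDimensional ℝ F]

/-- The second order equation for the profile. -/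
theorem profile_ode {p γ δ a b : ℝ} (hp : 1 < p) (hδ : δ = 1 - 2 / p)
    (ha : a = 1 + γ * (1 + δ)) (hb : b = 1 + γ * (1 - δ)) {u v : ℝ → F}
    (hu : ∀ t, HasDerivAt u (v t) t) (hv : Continuous v)
    (hg : ∀ t, HasDerivAt (fun s => (NN b (u s, v s)) ^ ((p - 2) / 2) • v s)
      (-((a * b) * (NN b (u t, v t)) ^ ((p - 2) / 2)) • u t) t)
    (t : ℝ) (hN : 0 < NN b (u t, v t)) :
    HasDerivAt v (-(a * b) • u t - om γ δ b (u t) (v t) • v t) t := by
  have hp0 : 0 < p := by linarith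
  have hd1 : δ < 1 := by rw [hδ]; have : 0 < 2 / p := by positivity
                         linarith
  have hd2 : -1 < δ := by
    rw [hδ]
    have : 2 / p < 2 := by rw [div_lt_iff₀ hp0]; linarith
    linarith
  have hδ1 : |δ| < 1 := abs_lt.mpr ⟨hd2, hd1⟩
  have hdiff : DifferentiableAt ℝ v t :=
    differentiableAt_of_flux b ((p - 2) / 2) (by linarith) (hu t).differentiableAt
      hv.continuousAt hN (hg t).differentiableAt
  obtain ⟨v', hv'⟩ : ∃ v', HasDerivAt v v' t := ⟨_, hdiff.hasDerivAt⟩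
  set n := NN b (u t, v t) with hn
  set e := (p - 2) / 2 with he
  have hNd := hasDerivAt_NN (b := b) (hu t) hv'
  set n' := b ^ 2 * (2 * ⟪u t, v t⟫) + 2 * ⟪v t, v'⟫ with hn'
  have hWd := (hNd.rpow_const (p := e) (Or.inl hN.ne')).smul hv'
  have huniq := hWd.unique (hg t)
  have hp1 : n ^ (e - 1) = n ^ e / n := Real.rpow_sub_one hN.ne' e
  have hpos : 0 < n ^ e := Real.rpow_pos_of_pos hN e
  rw [← hn, hp1] at huniq
  have h1 : n ^ e • (v' + (e * n' / n) • v t + (a * b) • u t) = 0 := by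
    rw [smul_add, smul_add, smul_smul, smul_smul]
    have : n ^ e • v' + (n' * e * (n ^ e / n)) • v t = -(a * b * n ^ e) • u t := huniq
    have h2 : (n ^ e * (e * n' / n)) • v t = (n' * e * (n ^ e / n)) • v t := by
      congr 1; field_simp
    rw [h2, this, neg_smul, mul_comm (n ^ e) (a * b)]
    simp
  have h2 : v' + (e * n' / n) • v t + (a * b) • u t = 0 := by
    rcases smul_eq_zero.mp h1 with h | h
    · exact absurd h hpos.ne'
    · exact h
  set w := e * n' / n with hw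
  have h3 : v' = -(a * b) • u t - w • v t := by
    rw [neg_smul]
    have : v' = -((a * b) • u t) - w • v t := by
      have := h2
      rw [add_assoc, add_eq_zero_iff_eq_neg] at this
      rw [this]; abel
    exact this
  have h4 : ⟪v t, v'⟫ = -(a * b) * ⟪u t, v t⟫ - w * ‖v t‖ ^ 2 := by
    rw [h3, inner_sub_right, inner_smul_right, inner_smul_right, real_inner_self_eq_norm_sq,
      real_inner_comm]
  have h5 : w * n = e * n' := by rw [hw]; field_simp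
  have hq : 2 * e * (1 - δ) = 2 * δ := by
    rw [he, hδ]; field_simp; ring
  have hden := den_pos' hδ1 hN
  have h6 : w = om γ δ b (u t) (v t) := by
    unfold om
    rw [eq_div_iff hden.ne']
    have hnn : n = b ^ 2 * ‖u t‖ ^ 2 + ‖v t‖ ^ 2 := rfl
    rw [← hn]
    rw [hn', h4] at h5
    have h7 : w * (n + 2 * e * ‖v t‖ ^ 2) = 2 * e * (b * (b - a)) * ⟪u t, v t⟫ := by
      linear_combination h5
    have h8 : b - a = -(2 * γ * δ) := by rw [ha, hb]; ring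
    rw [h8] at h7
    have h9 : w * ((1 - δ) * n + 2 * δ * ‖v t‖ ^ 2) = 2 * δ * (b * -(2 * γ * δ)) * ⟪u t, v t⟫ := by
      linear_combination (1 - δ) * h7 + (b * -(2 * γ * δ) * ⟪u t, v t⟫ - w * ‖v t‖ ^ 2) * hq
    rw [hnn] at h9 ⊢
    linear_combination h9
  rw [h3, h6] at hv'
  exact hv'

end prof

end Pool.Agent.H76.PL
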