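import Pool.Agent.H76.PL.Circ

/-!
# Regularity of the profile: from `W u' ∈ C¹` to `u' ∈ C¹`
-/

set_option autoImplicit false
open MeasureTheory Metric Filter Topology Set
open scoped RealInnerProductSpace ContDiff

namespace Pool.Agent.H76.PL

section ift
variable {F : Type*} [NormedAddCommGroup F] [InnerProductSpace ℝ F]

/-- `N(x,y) = b²‖x‖² + ‖y‖²` -/
noncomputable def NN (b : ℝ) (z : F × F) : ℝ := b ^ 2 * ‖z.1‖ ^ 2 + ‖z.2‖ ^ 2

lemma hasFDerivAt_NN (b : ℝ) (z : F × F) :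
    HasFDerivAt (NN b) ((b ^ 2) • ((2 : ℝ) • (innerSL ℝ z.1)).comp (ContinuousLinearMap.fst ℝ F F)
      + ((2 : ℝ) • (innerSL ℝ z.2)).comp (ContinuousLinearMap.snd ℝ F F)) z := by
  have h1 : HasFDerivAt (fun z : F × F => ‖z.1‖ ^ 2)
      (((2 : ℝ) • (innerSL ℝ z.1)).comp (ContinuousLinearMap.fst ℝ F F)) z := by
    have := ((hasStrictFDerivAt_norm_sq z.1).hasFDerivAt).comp z
      (ContinuousLinearMap.fst ℝ F F).hasFDerivAt
    refine this.congr_fderiv ?_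
    ext v <;> simp
  have h2 : HasFDerivAt (fun z : F × F => ‖z.2‖ ^ 2)
      (((2 : ℝ) • (innerSL ℝ z.2)).comp (ContinuousLinearMap.snd ℝ F F)) z := by
    have := ((hasStrictFDerivAt_norm_sq z.2).hasFDerivAt).comp z
      (ContinuousLinearMap.snd ℝ F F).hasFDerivAt
    refine this.congr_fderiv ?_
    ext v <;> simp
  exact (h1.const_mul (b ^ 2)).add h2

lemma contDiff_NN (b : ℝ) : ContDiff ℝ ∞ (NN b : F × F → ℝ) := by
  unfold NN
  exact (contDiff_const.mul ((contDiff_norm_sq ℝ).comp contDiff_fst)).add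
    ((contDiff_norm_sq ℝ).comp contDiff_snd)

/-- The map `(x,y) ↦ (x, N^e y)`. -/
noncomputable def Phi (b e : ℝ) (z : F × F) : F × F := (z.1, (NN b z) ^ e • z.2)

lemma contDiffAt_Phi (b e : ℝ) (z : F × F) (hz : 0 < NN b z) : ContDiffAt ℝ ∞ (Phi b e) z := by
  unfold Phi
  refine contDiffAt_fst.prodMk (ContDiffAt.smul ?_ contDiffAt_snd)
  exact (contDiff_NN b).contDiffAt.rpow_const_of_ne hz.ne'

lemma hasFDerivAt_Phi (b e : ℝ) (z : F × F) (hz : 0 < NN b z) (w : F × F) :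
    fderiv ℝ (Phi b e) z w = (w.1, (NN b z) ^ e • w.2
      + (e * (NN b z) ^ (e - 1) * (b ^ 2 * (2 * ⟪z.1, w.1⟫) + 2 * ⟪z.2, w.2⟫)) • z.2) := by
  have h1 := (hasFDerivAt_NN b z).rpow_const (p := e) (Or.inl hz.ne')
  have h2 := h1.smul (ContinuousLinearMap.snd ℝ F F).hasFDerivAt
  have h3 : HasFDerivAt (Phi b e) _ z := (ContinuousLinearMap.fst ℝ F F).hasFDerivAt.prodMk h2
  rw [h3.fderiv]
  ext
  · simp
  · simp
    congr 1
    ring

lemma Phi_inj (b e : ℝ) (he : -1 < 2 * e) (z : F × F) (hz : 0 < NN b z) :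
    Function.Injective (fderiv ℝ (Phi b e) z) := by
  rw [injective_iff_map_eq_zero]
  intro w hw
  rw [hasFDerivAt_Phi b e z hz] at hw
  rw [Prod.mk_eq_zero] at hw
  obtain ⟨h1, h2⟩ := hw
  rw [h1, inner_zero_right, mul_zero, mul_zero, zero_add] at h2
  have h3 := congrArg (fun v => ⟪v, w.2⟫) h2
  simp only [inner_add_left, real_inner_smul_left, inner_zero_left, real_inner_self_eq_norm_sq]
    at h3
  have hp1 : (NN b z) ^ (e - 1) = (NN b z) ^ e / NN b z := Real.rpow_sub_one hz.ne' e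
  have hp0 : 0 < (NN b z) ^ e := Real.rpow_pos_of_pos hz e
  have hcs : ⟪z.2, w.2⟫ ^ 2 ≤ NN b z * ‖w.2‖ ^ 2 := by
    have h4 : ⟪z.2, w.2⟫ ^ 2 ≤ (‖z.2‖ * ‖w.2‖) ^ 2 := by
      rw [← sq_abs]
      exact pow_le_pow_left₀ (abs_nonneg _) (abs_real_inner_le_norm _ _) 2
    have h5 : ‖z.2‖ ^ 2 ≤ NN b z := by
      unfold NN
      have : 0 ≤ b ^ 2 * ‖z.1‖ ^ 2 := by positivity
      linarith
    calc _ ≤ _ := h4
      _ = ‖z.2‖ ^ 2 * ‖w.2‖ ^ 2 := by ring
      _ ≤ _ := by gcongr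
  have h6 : NN b z * ‖w.2‖ ^ 2 + 2 * e * ⟪z.2, w.2⟫ ^ 2 = 0 := by
    rw [hp1] at h3
    have h7 : (NN b z) ^ e / NN b z * (NN b z * ‖w.2‖ ^ 2 + 2 * e * ⟪z.2, w.2⟫ ^ 2) = 0 := by
      have : (NN b z) ^ e / NN b z * (NN b z * ‖w.2‖ ^ 2 + 2 * e * ⟪z.2, w.2⟫ ^ 2)
        = (NN b z) ^ e * ‖w.2‖ ^ 2
          + e * ((NN b z) ^ e / NN b z) * (2 * ⟪z.2, w.2⟫) * ⟪z.2, w.2⟫ := by
        field_simp
      rw [this]
      exact h3
    rcases mul_eq_zero.mp h7 with h | h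
    · exact absurd h (by positivity)
    · exact h
  have h8 : ‖w.2‖ ^ 2 = 0 := by
    by_contra hne
    have hw2 : 0 < ‖w.2‖ ^ 2 := lt_of_le_of_ne (sq_nonneg _) (Ne.symm hne)
    have hpos : 0 < NN b z * ‖w.2‖ ^ 2 := by positivity
    rcases le_or_gt 0 e with h | h
    · have : 0 ≤ 2 * e * ⟪z.2, w.2⟫ ^ 2 := by positivity
      linarith
    · nlinarith [sq_nonneg ⟪z.2, w.2⟫]
  have h9 : w.2 = 0 := by
    have := pow_eq_zero_iff (two_ne_zero) |>.mp h8
    exact norm_eq_zero.mp this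
  exact Prod.ext h1 h9

variable [FiniteDimensional ℝ F]

/-- Differentiability of `v` from that of `u` and `N^e v`. -/
lemma differentiableAt_of_flux (b e : ℝ) (he : -1 < 2 * e) {u v : ℝ → F} {t : ℝ}
    (hu : DifferentiableAt ℝ u t) (hv : ContinuousAt v t)
    (hN : 0 < NN b (u t, v t))
    (hg : DifferentiableAt ℝ (fun s => (NN b (u s, v s)) ^ e • v s) t) :
    DifferentiableAt ℝ v t := by
  have hstr : HasStrictFDerivAt (Phi b e) (fderiv ℝ (Phi b e) (u t, v t)) (u t, v t) :=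
    (contDiffAt_Phi b e _ hN).hasStrictFDerivAt (by simp)
  set L := (LinearEquiv.ofInjectiveEndo (fderiv ℝ (Phi b e) (u t, v t) : F × F →ₗ[ℝ] F × F)
    (Phi_inj b e he _ hN)).toContinuousLinearEquiv with hL
  have hLe : (L : F × F →L[ℝ] F × F) = fderiv ℝ (Phi b e) (u t, v t) := by
    ext w <;> simp [hL]
  rw [← hLe] at hstr
  have h1 := hstr.to_localInverse.hasFDerivAt.differentiableAt
  have h2 := hstr.eventually_left_inverse
  have huv : ContinuousAt (fun s => (u s, v s)) t := hu.continuousAt.prodMk hv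
  have h3 : ∀ᶠ s in 𝓝 t, hstr.localInverse (Phi b e) L (u t, v t) (Phi b e (u s, v s)) = (u s, v s) :=
    huv.eventually h2
  have h4 : DifferentiableAt ℝ (fun s => Phi b e (u s, v s)) t := by
    unfold Phi
    exact hu.prodMk hg
  have h5 : DifferentiableAt ℝ
      (fun s => hstr.localInverse (Phi b e) L (u t, v t) (Phi b e (u s, v s))) t :=
    DifferentiableAt.comp t h1 h4
  have h6 : DifferentiableAt ℝ (fun s => (u s, v s)) t :=
    h5.congr_of_eventuallyEq (by filter_upwards [h3] with s hs using hs.symm)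
  exact h6.snd

end ift

end Pool.Agent.H76.PL
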