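import Pool.Agent.H76.PL.Polar
import Pool.Agent.H76.PL.Dbr

/-!
# Test functions in polar coordinates
-/

set_option autoImplicit false
open MeasureTheory Metric Filter Topology Set
open scoped ContDiff RealInnerProductSpace

namespace Pool.Agent.H76.PL

/-- the test function `χ(|x|) ψ(arg x) w`. -/
noncomputable def tf {n : ℕ} (χ ψ : ℝ → ℝ) (w : E n) (x : E 2) : E n :=
  (χ ‖x‖ * ψ (Complex.arg ⟨x 0, x 1⟩)) • w

lemma arg_er {r t : ℝ} (hr : 0 < r) (ht : t ∈ Ioo (-Real.pi) Real.pi) :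
    Complex.arg ⟨(r • er t) 0, (r • er t) 1⟩ = t := by
  have h1 : (⟨(r • er t) 0, (r • er t) 1⟩ : ℂ)
      = (r : ℂ) * (Complex.cos t + Complex.sin t * Complex.I) := by
    apply Complex.ext
    · simp [er_zero, ← Complex.ofReal_cos, ← Complex.ofReal_sin]
    · simp [er_one, ← Complex.ofReal_cos, ← Complex.ofReal_sin]
  rw [h1]
  exact Complex.arg_mul_cos_add_sin_mul_I hr ⟨ht.1, ht.2.le⟩

lemma norm_smul_er {r t : ℝ} (hr : 0 < r) : ‖r • er t‖ = r := by
  rw [norm_smul, norm_er, mul_one, Real.norm_of_nonneg hr.le]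

lemma tf_polar {n : ℕ} (χ ψ : ℝ → ℝ) (w : E n) {r t : ℝ} (hr : 0 < r)
    (ht : t ∈ Ioo (-Real.pi) Real.pi) : tf χ ψ w (r • er t) = (χ r * ψ t) • w := by
  unfold tf
  rw [arg_er hr ht, norm_smul_er hr]

/-- every point is `‖x‖ • er (arg x)`. -/
lemma polar_rep (x : E 2) : x = ‖x‖ • er (Complex.arg ⟨x 0, x 1⟩) := by
  set z : ℂ := ⟨x 0, x 1⟩ with hz
  have hn : ‖z‖ = ‖x‖ := by
    rw [EuclideanSpace.norm_eq, Complex.norm_eq_sqrt_sq_add_sq, Fin.sum_univ_two]
    simp [hz]
  ext i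
  fin_cases i
  · simp only [Fin.zero_eta, Fin.isValue, PiLp.smul_apply, er_zero, smul_eq_mul]
    rw [← hn, Complex.norm_mul_cos_arg]
  · simp only [Fin.mk_one, Fin.isValue, PiLp.smul_apply, er_one, smul_eq_mul]
    rw [← hn, Complex.norm_mul_sin_arg]

lemma contDiffAt_arg {x : E 2} (hx : (⟨x 0, x 1⟩ : ℂ) ∈ Complex.slitPlane) :
    ContDiffAt ℝ ∞ (fun y : E 2 => Complex.arg ⟨y 0, y 1⟩) x := by
  have h1 : ContDiffAt ℝ ∞ Complex.log (⟨x 0, x 1⟩ : ℂ) :=
    (Complex.contDiffAt_log hx).restrict_scalars ℝ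
  have h2 : ContDiffAt ℝ ∞ (fun y : E 2 => (⟨y 0, y 1⟩ : ℂ)) x := by
    have e : (fun y : E 2 => (⟨y 0, y 1⟩ : ℂ))
        = fun y => ((y 0 : ℝ) : ℂ) + ((y 1 : ℝ) : ℂ) * Complex.I := by
      ext y
      exact Complex.mk_eq_add_mul_I _ _
    rw [e]
    have h3 : ContDiff ℝ ∞ (fun y : E 2 => ((y 0 : ℝ) : ℂ)) :=
      Complex.ofRealCLM.contDiff.comp (EuclideanSpace.proj (0 : Fin 2) : E 2 →L[ℝ] ℝ).contDiff
    have h4 : ContDiff ℝ ∞ (fun y : E 2 => ((y 1 : ℝ) : ℂ)) :=
      Complex.ofRealCLM.contDiff.comp (EuclideanSpace.proj (1 : Fin 2) : E 2 →L[ℝ] ℝ).contDiff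
    exact (h3.add (h4.mul contDiff_const)).contDiffAt
  have h5 := Complex.imCLM.contDiff.contDiffAt.comp x (h1.comp x h2)
  refine h5.congr_of_eventuallyEq (Eventually.of_forall fun y => ?_)
  simp [Complex.log_im]

lemma tf_contDiff {n : ℕ} {χ ψ : ℝ → ℝ} (w : E n) (hχ : ContDiff ℝ ∞ χ) (hψ : ContDiff ℝ ∞ ψ)
    (hχs : tsupport χ ⊆ Ioo 1 2) (hψc : HasCompactSupport ψ)
    (hψs : tsupport ψ ⊆ Ioo (-Real.pi) Real.pi) : ContDiff ℝ ∞ (tf χ ψ w) := by
  rw [contDiff_iff_contDiffAt]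
  intro x
  by_cases hx0 : x = 0
  · -- near the origin
    subst hx0
    have : tf χ ψ w =ᶠ[𝓝 0] fun _ => 0 := by
      filter_upwards [ball_mem_nhds (0 : E 2) one_pos] with y hy
      have hy1 : ‖y‖ < 1 := by simpa using hy
      have : χ ‖y‖ = 0 := image_eq_zero_of_notMem_tsupport fun hm => by
        have := (hχs hm).1; linarith
      simp [tf, this]
    exact contDiffAt_const.congr_of_eventuallyEq this
  · by_cases hx : (⟨x 0, x 1⟩ : ℂ) ∈ Complex.slitPlane
    · have h1 : ContDiffAt ℝ ∞ (fun y : E 2 => χ ‖y‖) x :=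
        (hχ.contDiffAt (x := ‖x‖)).comp x (contDiffAt_norm (n := ∞) ℝ hx0)
      have h2 : ContDiffAt ℝ ∞ (fun y : E 2 => ψ (Complex.arg ⟨y 0, y 1⟩)) x :=
        ContDiffAt.comp x hψ.contDiffAt (contDiffAt_arg hx)
      have h3 : ContDiffAt ℝ ∞ (fun _ : E 2 => w) x := contDiffAt_const
      exact (h1.mul h2).smul h3
    · -- the negative axis
      rw [Complex.mem_slitPlane_iff, not_or, not_lt, not_not] at hx
      obtain ⟨hx1, hx2⟩ := hx
      simp only at hx1 hx2
      have hxneg : x 0 < 0 := by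
        rcases eq_or_lt_of_le hx1 with h | h
        · exfalso; apply hx0
          ext i; fin_cases i
          · exact h
          · exact hx2
        · exact h
      -- bound of the support
      obtain ⟨ε, hε0, hεπ, hε⟩ : ∃ ε : ℝ, 0 < ε ∧ ε < Real.pi ∧
          ∀ t ∈ tsupport ψ, |t| ≤ Real.pi - ε := by
        by_cases hne : (tsupport ψ).Nonempty
        · obtain ⟨t0, ht0, hmax⟩ := hψc.isCompact.exists_isMaxOn hne continuous_abs.continuousOn
          have h1 : |t0| < Real.pi := abs_lt.mpr (hψs ht0)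
          refine ⟨(Real.pi - |t0|) / 2, by linarith, by linarith [abs_nonneg t0, Real.pi_pos], ?_⟩
          intro t ht
          have := hmax ht
          simp only [mem_ofPred_eq] at this
          linarith
        · refine ⟨1, one_pos, by linarith [Real.pi_gt_three], fun t ht => absurd ⟨t, ht⟩ hne⟩
      have hcos : -1 < Real.cos (Real.pi - ε) := by
        have := Real.cos_lt_cos_of_nonneg_of_le_pi (x := Real.pi - ε) (y := Real.pi)
          (by linarith) (le_refl _) (by linarith)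
        rwa [Real.cos_pi] at this
      have hcont : ContinuousAt (fun y : E 2 => y 0 / ‖y‖) x := by
        have hn : ‖x‖ ≠ 0 := norm_ne_zero_iff.mpr hx0
        have : Continuous (fun y : E 2 => y 0) :=
          (EuclideanSpace.proj (0 : Fin 2) : E 2 →L[ℝ] ℝ).continuous
        exact this.continuousAt.div continuous_norm.continuousAt hn
      have hval : x 0 / ‖x‖ = -1 := by
        have : ‖x‖ = -x 0 := by
          rw [EuclideanSpace.norm_eq, Fin.sum_univ_two, hx2]
          simp [Real.sqrt_sq_eq_abs, abs_of_neg hxneg]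
        rw [this, div_neg, div_self hxneg.ne]
      have hev : ∀ᶠ y in 𝓝 x, y 0 / ‖y‖ < Real.cos (Real.pi - ε) :=
        hcont.eventually_lt continuousAt_const (by rw [hval]; exact hcos)
      have hev2 : ∀ᶠ y in 𝓝 x, y ≠ 0 := isOpen_ne.mem_nhds hx0
      have : tf χ ψ w =ᶠ[𝓝 x] fun _ => 0 := by
        filter_upwards [hev, hev2] with y hy hy0
        have hn : 0 < ‖y‖ := norm_pos_iff.mpr hy0
        have : ψ (Complex.arg ⟨y 0, y 1⟩) = 0 := by
          apply image_eq_zero_of_notMem_tsupport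
          intro hm
          have h1 := hε _ hm
          have h2 : Real.cos (Real.pi - ε) ≤ Real.cos (Complex.arg ⟨y 0, y 1⟩) := by
            rw [← Real.cos_abs (Complex.arg ⟨y 0, y 1⟩)]
            exact Real.cos_le_cos_of_nonneg_of_le_pi (abs_nonneg _) (by linarith) h1
          have h3 : y 0 = ‖y‖ * Real.cos (Complex.arg ⟨y 0, y 1⟩) := by
            have := congrArg (fun z : E 2 => z 0) (polar_rep y)
            simpa [er_zero] using this
          rw [h3, mul_div_assoc, mul_comm, div_mul_cancel₀ _ hn.ne'] at hy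
          linarith
        simp [tf, this]
      exact contDiffAt_const.congr_of_eventuallyEq this

lemma tf_compact {n : ℕ} {χ ψ : ℝ → ℝ} (w : E n) (hχs : tsupport χ ⊆ Ioo 1 2) :
    HasCompactSupport (tf χ ψ w) := by
  apply HasCompactSupport.of_support_subset_isCompact (isCompact_closedBall (0 : E 2) 2)
  intro x hx
  rw [mem_closedBall_zero_iff]
  by_contra hcon
  push Not at hcon
  apply hx
  have : χ ‖x‖ = 0 := image_eq_zero_of_notMem_tsupport fun hm => by
    have := (hχs hm).2; linarith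
  simp [tf, this]

/-- radial derivative of the test function. -/
lemma fderiv_tf_er {n : ℕ} {χ ψ : ℝ → ℝ} (w : E n) (hχ : ContDiff ℝ ∞ χ)
    (htf : ContDiff ℝ ∞ (tf χ ψ w)) {r t : ℝ} (hr : 0 < r)
    (ht : t ∈ Ioo (-Real.pi) Real.pi) :
    fderiv ℝ (tf χ ψ w) (r • er t) (er t) = (deriv χ r * ψ t) • w := by
  have h1 : HasDerivAt (fun s : ℝ => s • er t) (er t) r := by
    simpa using (hasDerivAt_id r).smul_const (er t)
  have h2 : HasDerivAt (fun s : ℝ => tf χ ψ w (s • er t))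
      (fderiv ℝ (tf χ ψ w) (r • er t) (er t)) r := by
    have hd : HasFDerivAt (tf χ ψ w) (fderiv ℝ (tf χ ψ w) (r • er t)) (r • er t) :=
      ((htf.differentiable (by simp)) (r • er t)).hasFDerivAt
    exact hd.comp_hasDerivAt r h1
  have h3 : HasDerivAt (fun s : ℝ => (χ s * ψ t) • w) ((deriv χ r * ψ t) • w) r :=
    (((hχ.differentiable (by simp)) r).hasDerivAt.mul_const _).smul_const w
  have h4 : (fun s : ℝ => tf χ ψ w (s • er t)) =ᶠ[𝓝 r] fun s => (χ s * ψ t) • w := by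
    filter_upwards [Ioi_mem_nhds hr] with s hs
    exact tf_polar χ ψ w hs ht
  exact h2.unique (h3.congr_of_eventuallyEq h4)

/-- tangential derivative of the test function. -/
lemma fderiv_tf_et {n : ℕ} {χ ψ : ℝ → ℝ} (w : E n) (hψ : ContDiff ℝ ∞ ψ)
    (htf : ContDiff ℝ ∞ (tf χ ψ w)) {r t : ℝ} (hr : 0 < r)
    (ht : t ∈ Ioo (-Real.pi) Real.pi) :
    fderiv ℝ (tf χ ψ w) (r • er t) (et t) = (r⁻¹ * (χ r * deriv ψ t)) • w := by
  have h1 : HasDerivAt (fun s : ℝ => r • er s) (r • et t) t := (hasDerivAt_er t).const_smul r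
  have h2 : HasDerivAt (fun s : ℝ => tf χ ψ w (r • er s))
      (fderiv ℝ (tf χ ψ w) (r • er t) (r • et t)) t := by
    have hd : HasFDerivAt (tf χ ψ w) (fderiv ℝ (tf χ ψ w) (r • er t)) (r • er t) :=
      ((htf.differentiable (by simp)) (r • er t)).hasFDerivAt
    exact hd.comp_hasDerivAt t h1
  have h3 : HasDerivAt (fun s : ℝ => (χ r * ψ s) • w) ((χ r * deriv ψ t) • w) t :=
    (((hψ.differentiable (by simp)) t).hasDerivAt.const_mul _).smul_const w
  have h4 : (fun s : ℝ => tf χ ψ w (r • er s)) =ᶠ[𝓝 t] fun s => (χ r * ψ s) • w := by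
    filter_upwards [Ioo_mem_nhds ht.1 ht.2] with s hs
    exact tf_polar χ ψ w hr hs
  have h5 := h2.unique (h3.congr_of_eventuallyEq h4)
  rw [map_smul] at h5
  rw [mul_smul, ← h5, smul_smul, inv_mul_cancel₀ hr.ne', one_smul]

end Pool.Agent.H76.PL
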