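import Pool.Agent.H76.PL.Test
import Pool.Agent.H76.PL.NoProf

/-!
# From the weak formulation to the profile equation
-/

set_option autoImplicit false
open MeasureTheory Metric Filter Topology Set
open scoped ContDiff RealInnerProductSpace

namespace Pool.Agent.H76.PL

/-- positive homogeneity -/
def Homog {d n : ℕ} (β : ℝ) (h : E d → E n) : Prop :=
  ∀ t : ℝ, 0 < t → ∀ x : E d, h (t • x) = t ^ β • h x

/-- the profile -/
noncomputable def uu {n : ℕ} (h : E 2 → E n) (t : ℝ) : E n := h (er t)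

/-- the derivative of the profile -/
noncomputable def vv {n : ℕ} (h : E 2 → E n) (t : ℝ) : E n := fderiv ℝ h (er t) (et t)

lemma NN_nonneg {n : ℕ} (b : ℝ) (z : E n × E n) : 0 ≤ NN b z := by unfold NN; positivity

section
variable {n : ℕ} {p β : ℝ} {h : E 2 → E n}

lemma hasFD (hc : ContDiff ℝ 1 h) (x : E 2) : HasFDerivAt h (fderiv ℝ h x) x :=
  ((hc.differentiable (by simp)) x).hasFDerivAt

lemma hasDerivAt_uu (hc : ContDiff ℝ 1 h) (t : ℝ) : HasDerivAt (uu h) (vv h t) t :=
  (hasFD hc (er t)).comp_hasDerivAt t (hasDerivAt_er t)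

lemma continuous_uu (hc : ContDiff ℝ 1 h) : Continuous (uu h) :=
  hc.continuous.comp continuous_er

lemma continuous_vv (hc : ContDiff ℝ 1 h) : Continuous (vv h) := by
  unfold vv
  exact ((hc.continuous_fderiv (by simp)).comp continuous_er).clm_apply continuous_et

lemma fderiv_er (hc : ContDiff ℝ 1 h) (hh : Homog β h) {r t : ℝ} (hr : 0 < r) :
    fderiv ℝ h (r • er t) (er t) = (β * r ^ (β - 1)) • uu h t := by
  have h1 : HasDerivAt (fun s : ℝ => s • er t) (er t) r := by
    simpa using (hasDerivAt_id r).smul_const (er t)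
  have h2 : HasDerivAt (fun s : ℝ => h (s • er t)) (fderiv ℝ h (r • er t) (er t)) r :=
    (hasFD hc (r • er t)).comp_hasDerivAt r h1
  have h3 : HasDerivAt (fun s : ℝ => s ^ β • uu h t) ((β * r ^ (β - 1)) • uu h t) r :=
    (Real.hasDerivAt_rpow_const (Or.inl hr.ne')).smul_const _
  have h4 : (fun s : ℝ => h (s • er t)) =ᶠ[𝓝 r] fun s => s ^ β • uu h t := by
    filter_upwards [Ioi_mem_nhds hr] with s hs
    exact hh s hs _
  exact h2.unique (h3.congr_of_eventuallyEq h4)

lemma fderiv_et (hc : ContDiff ℝ 1 h) (hh : Homog β h) {r t : ℝ} (hr : 0 < r) :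
    fderiv ℝ h (r • er t) (et t) = r ^ (β - 1) • vv h t := by
  have h1 : HasDerivAt (fun s : ℝ => r • er s) (r • et t) t := (hasDerivAt_er t).const_smul r
  have h2 : HasDerivAt (fun s : ℝ => h (r • er s)) (fderiv ℝ h (r • er t) (r • et t)) t :=
    (hasFD hc (r • er t)).comp_hasDerivAt t h1
  have h3 : HasDerivAt (fun s : ℝ => r ^ β • uu h s) (r ^ β • vv h t) t := by
    have := (hasDerivAt_uu hc t).const_smul (r ^ β)
    exact this
  have h4 : (fun s : ℝ => h (r • er s)) = fun s => r ^ β • uu h s := by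
    ext1 s
    exact hh r hr _
  rw [h4] at h2
  have h5 := h2.unique h3
  rw [map_smul] at h5
  have h6 : r ^ (β - 1) • vv h t = r⁻¹ • (r ^ β • vv h t) := by
    rw [smul_smul, Real.rpow_sub_one hr.ne']
    congr 1
    field_simp
  rw [h6, ← h5, smul_smul, inv_mul_cancel₀ hr.ne', one_smul]

lemma norm_grad_polar (hc : ContDiff ℝ 1 h) (hh : Homog β h) {r t : ℝ} (hr : 0 < r) :
    ‖grad h (r • er t)‖ = r ^ (β - 1) * Real.sqrt (NN β (uu h t, vv h t)) := by
  have h1 := norm_grad_sq h (r • er t) t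
  rw [fderiv_er hc hh hr, fderiv_et hc hh hr, norm_smul, norm_smul] at h1
  have h2 : ‖grad h (r • er t)‖ ^ 2
      = (r ^ (β - 1) * Real.sqrt (NN β (uu h t, vv h t))) ^ 2 := by
    have h3 : 0 ≤ NN β (uu h t, vv h t) := by unfold NN; positivity
    rw [h1, mul_pow, mul_pow, mul_pow, Real.sq_sqrt h3]
    unfold NN
    simp only [Real.norm_eq_abs, sq_abs]
    ring
  exact (sq_eq_sq₀ (norm_nonneg _) (by positivity)).mp h2

/-- the weight `W`. -/
noncomputable def WW (p β : ℝ) (h : E 2 → E n) (t : ℝ) : ℝ :=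
  (NN β (uu h t, vv h t)) ^ ((p - 2) / 2)

lemma norm_grad_rpow (hc : ContDiff ℝ 1 h) (hh : Homog β h) {r t : ℝ} (hr : 0 < r) :
    ‖grad h (r • er t)‖ ^ (p - 2) = (r ^ (β - 1)) ^ (p - 2) * WW p β h t := by
  have h3 : 0 ≤ NN β (uu h t, vv h t) := by unfold NN; positivity
  rw [norm_grad_polar hc hh hr, Real.mul_rpow (by positivity) (by positivity), WW,
    Real.sqrt_eq_rpow, ← Real.rpow_mul h3]
  congr 2
  ring

/-- The flux `W v` and `W u` are continuous. -/
lemma continuous_Wv (hp : 1 < p) (hc : ContDiff ℝ 1 h) : Continuous fun t => WW p β h t • vv h t := by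
  -- `|N^e v| ≤ N^{(p-1)/2}`
  rw [continuous_iff_continuousAt]
  intro t
  have hN : Continuous fun t => NN β (uu h t, vv h t) := by
    have := continuous_uu hc
    have := continuous_vv hc
    unfold NN
    fun_prop
  by_cases h0 : NN β (uu h t, vv h t) = 0
  · have hv0 : ∀ s, ‖vv h s‖ ≤ Real.sqrt (NN β (uu h s, vv h s)) := by
      intro s
      apply Real.le_sqrt_of_sq_le
      unfold NN
      simp only
      have : 0 ≤ β ^ 2 * ‖uu h s‖ ^ 2 := by positivity
      linarith
    have hvt : vv h t = 0 := by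
      have := hv0 t
      rw [h0, Real.sqrt_zero] at this
      exact norm_le_zero_iff.mp this
    have hb : ∀ s, ‖WW p β h s • vv h s‖ ≤ (NN β (uu h s, vv h s)) ^ ((p - 1) / 2) := by
      intro s
      have hnn : 0 ≤ NN β (uu h s, vv h s) := by unfold NN; positivity
      rcases eq_or_lt_of_le hnn with h1 | h1
      · have : vv h s = 0 := by
          have := hv0 s
          rw [← h1, Real.sqrt_zero] at this
          exact norm_le_zero_iff.mp this
        rw [this, smul_zero, norm_zero]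
        exact Real.rpow_nonneg (NN_nonneg _ _) _
      · rw [norm_smul, WW, Real.norm_of_nonneg (by positivity)]
        calc _ ≤ (NN β (uu h s, vv h s)) ^ ((p - 2) / 2) * Real.sqrt (NN β (uu h s, vv h s)) := by
              gcongr
              exact hv0 s
          _ = _ := by
              rw [Real.sqrt_eq_rpow, ← Real.rpow_add h1]
              congr 1; ring
    have hlim : Tendsto (fun s => (NN β (uu h s, vv h s)) ^ ((p - 1) / 2)) (𝓝 t) (𝓝 0) := by
      have h1 : ContinuousAt (fun s => (NN β (uu h s, vv h s)) ^ ((p - 1) / 2)) t :=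
        hN.continuousAt.rpow_const (Or.inr (by linarith))
      have h2 := h1.tendsto
      rw [h0, Real.zero_rpow (by linarith)] at h2
      exact h2
    show Tendsto _ _ _
    simp only [hvt, smul_zero]
    exact squeeze_zero_norm hb hlim
  · unfold WW
    exact (hN.continuousAt.rpow_const (Or.inl h0)).smul (continuous_vv hc).continuousAt

lemma continuous_Wu (hp : 1 < p) (hβ : β ≠ 0) (hc : ContDiff ℝ 1 h) :
    Continuous fun t => WW p β h t • uu h t := by
  rw [continuous_iff_continuousAt]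
  intro t
  have hN : Continuous fun t => NN β (uu h t, vv h t) := by
    have := continuous_uu hc
    have := continuous_vv hc
    unfold NN
    fun_prop
  by_cases h0 : NN β (uu h t, vv h t) = 0
  · have hv0 : ∀ s, |β| * ‖uu h s‖ ≤ Real.sqrt (NN β (uu h s, vv h s)) := by
      intro s
      apply Real.le_sqrt_of_sq_le
      unfold NN
      simp only
      rw [mul_pow, sq_abs]
      have : 0 ≤ ‖vv h s‖ ^ 2 := by positivity
      linarith
    have hβ' : 0 < |β| := abs_pos.mpr hβ
    have hvt : uu h t = 0 := by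
      have := hv0 t
      rw [h0, Real.sqrt_zero] at this
      exact norm_le_zero_iff.mp (by nlinarith [norm_nonneg (uu h t)])
    have hb : ∀ s, ‖WW p β h s • uu h s‖ ≤ |β|⁻¹ * (NN β (uu h s, vv h s)) ^ ((p - 1) / 2) := by
      intro s
      have hnn : 0 ≤ NN β (uu h s, vv h s) := by unfold NN; positivity
      rcases eq_or_lt_of_le hnn with h1 | h1
      · have : uu h s = 0 := by
          have := hv0 s
          rw [← h1, Real.sqrt_zero] at this
          exact norm_le_zero_iff.mp (by nlinarith [norm_nonneg (uu h s)])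
        rw [this, smul_zero, norm_zero]
        exact mul_nonneg (by positivity) (Real.rpow_nonneg (NN_nonneg _ _) _)
      · rw [norm_smul, WW, Real.norm_of_nonneg (by positivity)]
        have h2 : ‖uu h s‖ ≤ |β|⁻¹ * Real.sqrt (NN β (uu h s, vv h s)) := by
          rw [le_inv_mul_iff₀ hβ']
          exact hv0 s
        calc _ ≤ (NN β (uu h s, vv h s)) ^ ((p - 2) / 2)
                * (|β|⁻¹ * Real.sqrt (NN β (uu h s, vv h s))) := by
              gcongr
          _ = |β|⁻¹ * ((NN β (uu h s, vv h s)) ^ ((p - 2) / 2)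
                * Real.sqrt (NN β (uu h s, vv h s))) := by ring
          _ = _ := by
              rw [Real.sqrt_eq_rpow, ← Real.rpow_add h1]
              congr 2; ring
    have hlim : Tendsto (fun s => |β|⁻¹ * (NN β (uu h s, vv h s)) ^ ((p - 1) / 2)) (𝓝 t) (𝓝 0) := by
      have h1 : ContinuousAt (fun s => (NN β (uu h s, vv h s)) ^ ((p - 1) / 2)) t :=
        hN.continuousAt.rpow_const (Or.inr (by linarith))
      have h2 := h1.tendsto.const_mul (|β|⁻¹)
      rw [h0, Real.zero_rpow (by linarith), mul_zero] at h2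
      exact h2
    show Tendsto _ _ _
    simp only [hvt, smul_zero]
    exact squeeze_zero_norm hb hlim
  · unfold WW
    exact (hN.continuousAt.rpow_const (Or.inl h0)).smul (continuous_uu hc).continuousAt

/-- the integrand of the weak formulation in polar coordinates. -/
lemma integrand_polar (hc : ContDiff ℝ 1 h) (hh : Homog β h) {χ ψ : ℝ → ℝ} (w : E n)
    (hχ : ContDiff ℝ ∞ χ) (hψ : ContDiff ℝ ∞ ψ) (htf : ContDiff ℝ ∞ (tf χ ψ w)) {r t : ℝ}
    (hr : 0 < r) (ht : t ∈ Ioo (-Real.pi) Real.pi) :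
    r • ⟪A p (grad h (r • er t)), grad (tf χ ψ w) (r • er t)⟫ =
      (r ^ ((β - 1) * (p - 1) + 1) * deriv χ r) * (β * ⟪WW p β h t • uu h t, w⟫ * ψ t)
      + (r ^ ((β - 1) * (p - 1)) * χ r) * (⟪WW p β h t • vv h t, w⟫ * deriv ψ t) := by
  have hρ : 0 < r ^ (β - 1) := Real.rpow_pos_of_pos hr _
  unfold A
  rw [real_inner_smul_left, inner_grad h (tf χ ψ w) (r • er t) t, fderiv_er hc hh hr,
    fderiv_et hc hh hr, fderiv_tf_er w hχ htf hr ht, fderiv_tf_et w hψ htf hr ht,
    norm_grad_rpow hc hh hr]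
  simp only [real_inner_smul_left, real_inner_smul_right, smul_eq_mul]
  have e1 : (r ^ (β - 1)) ^ (p - 2) * r ^ (β - 1) = r ^ ((β - 1) * (p - 1)) := by
    rw [← Real.rpow_mul hr.le, ← Real.rpow_add hr]
    congr 1; ring
  have e2 : r ^ ((β - 1) * (p - 1) + 1) = r * r ^ ((β - 1) * (p - 1)) := by
    rw [Real.rpow_add_one hr.ne']; ring
  rw [e2, ← e1]
  field_simp

lemma weak_polar (hp1 : 1 < p) (hβ : β ≠ 0) (hp : IsPHarmonic p h) (hh : Homog β h) {χ ψ : ℝ → ℝ}
    (w : E n) (hχ : ContDiff ℝ ∞ χ) (hψ : ContDiff ℝ ∞ ψ)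
    (hχs : tsupport χ ⊆ Ioo 1 2) (hψc : HasCompactSupport ψ)
    (hψs : tsupport ψ ⊆ Ioo (-Real.pi) Real.pi) :
    (∫ r in (1 : ℝ)..2, r ^ ((β - 1) * (p - 1) + 1) * deriv χ r)
        * (∫ t in (-Real.pi)..Real.pi, β * ⟪WW p β h t • uu h t, w⟫ * ψ t)
      + (∫ r in (1 : ℝ)..2, r ^ ((β - 1) * (p - 1)) * χ r)
        * (∫ t in (-Real.pi)..Real.pi, ⟪WW p β h t • vv h t, w⟫ * deriv ψ t) = 0 := by
  obtain ⟨hc, hw⟩ := hp
  have htf := tf_contDiff w hχ hψ hχs hψc hψs
  have h0 := hw (tf χ ψ w) htf (tf_compact w hχs)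
  rw [integral_polar] at h0
  have hpi : -Real.pi ≤ Real.pi := by linarith [Real.pi_pos]
  -- restrict to `1 ≤ r ≤ 2`
  have hz : ∀ r : ℝ, r ∉ Ioc 1 2 → χ r = 0 ∧ deriv χ r = 0 := by
    intro r hr
    have h1 : r ∉ tsupport χ := fun hm => hr ⟨(hχs hm).1, (hχs hm).2.le⟩
    refine ⟨image_eq_zero_of_notMem_tsupport h1, ?_⟩
    have h2 : r ∉ tsupport (deriv χ) := fun hm => h1 (tsupport_deriv_subset hm)
    exact image_eq_zero_of_notMem_tsupport h2
  set s := (β - 1) * (p - 1) with hs
  have cχ := hχ.continuous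
  have cχ' : Continuous (deriv χ) := hχ.continuous_deriv (by simp)
  have cψ := hψ.continuous
  have cψ' : Continuous (deriv ψ) := hψ.continuous_deriv (by simp)
  have cWu : Continuous fun t => ⟪WW p β h t • uu h t, w⟫ :=
    (continuous_Wu hp1 hβ hc).inner continuous_const
  have cWv : Continuous fun t => ⟪WW p β h t • vv h t, w⟫ :=
    (continuous_Wv hp1 hc).inner continuous_const
  have h1 : ∫ q in Ioi (0 : ℝ) ×ˢ Ioo (-Real.pi) Real.pi,
      q.1 • ⟪A p (grad h (q.1 • er q.2)), grad (tf χ ψ w) (q.1 • er q.2)⟫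
      = ∫ q in Ioc (1 : ℝ) 2 ×ˢ Ioo (-Real.pi) Real.pi,
        ((q.1 ^ (s + 1) * deriv χ q.1) * (β * ⟪WW p β h q.2 • uu h q.2, w⟫ * ψ q.2)
        + (q.1 ^ s * χ q.1) * (⟪WW p β h q.2 • vv h q.2, w⟫ * deriv ψ q.2)) := by
    have e1 : ∫ q in Ioi (0 : ℝ) ×ˢ Ioo (-Real.pi) Real.pi,
        q.1 • ⟪A p (grad h (q.1 • er q.2)), grad (tf χ ψ w) (q.1 • er q.2)⟫
        = ∫ q in Ioi (0 : ℝ) ×ˢ Ioo (-Real.pi) Real.pi,
        ((q.1 ^ (s + 1) * deriv χ q.1) * (β * ⟪WW p β h q.2 • uu h q.2, w⟫ * ψ q.2)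
        + (q.1 ^ s * χ q.1) * (⟪WW p β h q.2 • vv h q.2, w⟫ * deriv ψ q.2)) := by
      apply setIntegral_congr_fun (measurableSet_Ioi.prod measurableSet_Ioo)
      intro q hq
      exact integrand_polar hc hh w hχ hψ htf hq.1 hq.2
    rw [e1]
    apply setIntegral_eq_of_subset_of_forall_sdiff_eq_zero
      (measurableSet_Ioi.prod measurableSet_Ioo)
    · exact prod_mono (fun r hr => lt_trans one_pos hr.1) (subset_refl _)
    · intro q hq
      have : q.1 ∉ Ioc (1 : ℝ) 2 := fun hm => hq.2 ⟨hm, hq.1.2⟩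
      obtain ⟨h1, h2⟩ := hz q.1 this
      rw [h1, h2]; ring
  rw [h1] at h0
  have hrc : ∀ a : ℝ, ContinuousOn (fun r : ℝ => r ^ a) (Icc 1 2) := fun a =>
    continuousOn_id.rpow_const fun r hr => Or.inl (by have := hr.1; simp only [id]; linarith)
  have i1 : IntegrableOn (fun r : ℝ => r ^ (s + 1) * deriv χ r) (Ioc 1 2) :=
    (((hrc _).mul cχ'.continuousOn).integrableOn_compact isCompact_Icc).mono_set Ioc_subset_Icc_self
  have i2 : IntegrableOn (fun r : ℝ => r ^ s * χ r) (Ioc 1 2) :=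
    (((hrc _).mul cχ.continuousOn).integrableOn_compact isCompact_Icc).mono_set Ioc_subset_Icc_self
  have i3 : IntegrableOn (fun t : ℝ => β * ⟪WW p β h t • uu h t, w⟫ * ψ t)
      (Ioo (-Real.pi) Real.pi) :=
    ((((continuous_const.mul cWu).mul cψ).continuousOn).integrableOn_compact
      (isCompact_Icc (a := -Real.pi) (b := Real.pi))).mono_set Ioo_subset_Icc_self
  have i4 : IntegrableOn (fun t : ℝ => ⟪WW p β h t • vv h t, w⟫ * deriv ψ t)
      (Ioo (-Real.pi) Real.pi) :=
    (((cWv.mul cψ').continuousOn).integrableOn_compact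
      (isCompact_Icc (a := -Real.pi) (b := Real.pi))).mono_set Ioo_subset_Icc_self
  have j1 : Integrable (fun q : ℝ × ℝ => (q.1 ^ (s + 1) * deriv χ q.1)
      * (β * ⟪WW p β h q.2 • uu h q.2, w⟫ * ψ q.2))
      (volume.restrict (Ioc (1 : ℝ) 2 ×ˢ Ioo (-Real.pi) Real.pi)) := by
    rw [Measure.volume_eq_prod, ← Measure.prod_restrict]
    exact Integrable.mul_prod (f := fun r : ℝ => r ^ (s + 1) * deriv χ r)
      (g := fun t : ℝ => β * ⟪WW p β h t • uu h t, w⟫ * ψ t) i1 i3
  have j2 : Integrable (fun q : ℝ × ℝ => (q.1 ^ s * χ q.1)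
      * (⟪WW p β h q.2 • vv h q.2, w⟫ * deriv ψ q.2))
      (volume.restrict (Ioc (1 : ℝ) 2 ×ˢ Ioo (-Real.pi) Real.pi)) := by
    rw [Measure.volume_eq_prod, ← Measure.prod_restrict]
    exact Integrable.mul_prod (f := fun r : ℝ => r ^ s * χ r)
      (g := fun t : ℝ => ⟪WW p β h t • vv h t, w⟫ * deriv ψ t) i2 i4
  rw [integral_add j1 j2] at h0
  have k1 := setIntegral_prod_mul (μ := (volume : Measure ℝ)) (ν := (volume : Measure ℝ))
    (fun r : ℝ => r ^ (s + 1) * deriv χ r)
    (fun t : ℝ => β * ⟪WW p β h t • uu h t, w⟫ * ψ t) (Ioc (1 : ℝ) 2) (Ioo (-Real.pi) Real.pi)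
  have k2 := setIntegral_prod_mul (μ := (volume : Measure ℝ)) (ν := (volume : Measure ℝ))
    (fun r : ℝ => r ^ s * χ r)
    (fun t : ℝ => ⟪WW p β h t • vv h t, w⟫ * deriv ψ t) (Ioc (1 : ℝ) 2) (Ioo (-Real.pi) Real.pi)
  rw [← Measure.volume_eq_prod] at k1 k2
  rw [k1, k2] at h0
  rw [intervalIntegral.integral_of_le (by norm_num : (1 : ℝ) ≤ 2),
    intervalIntegral.integral_of_le (by norm_num : (1 : ℝ) ≤ 2),
    intervalIntegral.integral_of_le hpi, intervalIntegral.integral_of_le hpi,
    integral_Ioc_eq_integral_Ioo (x := -Real.pi), integral_Ioc_eq_integral_Ioo (x := -Real.pi)]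
  exact h0

/-- The weak equation on the circle gives the first order form of the profile equation. -/
lemma flux_deriv_aux (hp1 : 1 < p) (hβ : β ≠ 0) (hp : IsPHarmonic p h) (hh : Homog β h) (w : E n)
    {t : ℝ} (ht : t ∈ Ioo (-Real.pi) Real.pi) :
    HasDerivAt (fun s => ⟪WW p β h s • vv h s, w⟫)
      (-((((β - 1) * (p - 1) + 1) * β) * ⟪WW p β h t • uu h t, w⟫)) t := by
  have hc := hp.1
  have hpi : -Real.pi < Real.pi := by linarith [Real.pi_pos]
  have cWu : Continuous fun t => ⟪WW p β h t • uu h t, w⟫ :=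
    (continuous_Wu hp1 hβ hc).inner continuous_const
  have cWv : Continuous fun t => ⟪WW p β h t • vv h t, w⟫ :=
    (continuous_Wv hp1 hc).inner continuous_const
  set s := (β - 1) * (p - 1) with hs
  set κ := (s + 1) * β with hκ
  obtain ⟨K, hK⟩ : ∃ K : ℝ → ℝ, K = fun t => ∫ x in (0 : ℝ)..t, κ * ⟪WW p β h x • uu h x, w⟫ :=
    ⟨_, rfl⟩
  have hKd : ∀ t, HasDerivAt K (κ * ⟪WW p β h t • uu h t, w⟫) t := fun t => by
    rw [hK]
    exact intervalIntegral.integral_hasDerivAt_right
      ((continuous_const.mul cWu).intervalIntegrable _ _)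
      ((continuous_const.mul cWu).stronglyMeasurableAtFilter _ _)
      (continuous_const.mul cWu).continuousAt
  have hKc : Continuous K := continuous_iff_continuousAt.mpr fun t => (hKd t).continuousAt
  obtain ⟨χ, hχ, hχc, hχs, hχ0, hχm, -⟩ := exists_bump (c := 1) (d := 2) (by norm_num)
  have cχ := hχ.continuous
  have cχ' : Continuous (deriv χ) := hχ.continuous_deriv (by simp)
  -- integration by parts in `r`
  have hχ1 : χ 1 = 0 := image_eq_zero_of_notMem_tsupport fun hm => by
    have := (hχs hm).1; linarith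
  have hχ2 : χ 2 = 0 := image_eq_zero_of_notMem_tsupport fun hm => by
    have := (hχs hm).2; linarith
  have hparts : ∫ r in (1 : ℝ)..2, r ^ (s + 1) * deriv χ r
      = -((s + 1) * ∫ r in (1 : ℝ)..2, r ^ s * χ r) := by
    have h1 : ∀ r ∈ uIcc (1 : ℝ) 2, HasDerivAt (fun r : ℝ => r ^ (s + 1)) ((s + 1) * r ^ s) r := by
      intro r hr
      rw [uIcc_of_le (by norm_num)] at hr
      have := Real.hasDerivAt_rpow_const (x := r) (p := s + 1) (Or.inl (by linarith [hr.1]))
      simpa using this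
    have h2 : ∀ r ∈ uIcc (1 : ℝ) 2, HasDerivAt χ (deriv χ r) r := fun r _ =>
      (hχ.differentiable (by simp) r).hasDerivAt
    have c1 : IntervalIntegrable (fun r : ℝ => (s + 1) * r ^ s) volume 1 2 := by
      apply ContinuousOn.intervalIntegrable
      rw [uIcc_of_le (by norm_num)]
      exact continuousOn_const.mul (continuousOn_id.rpow_const fun r hr =>
        Or.inl (by have := hr.1; simp only [id]; linarith))
    have := intervalIntegral.integral_mul_deriv_eq_deriv_mul h1 h2 c1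
      (cχ'.intervalIntegrable _ _)
    rw [this, hχ1, hχ2, mul_zero, mul_zero, sub_zero, zero_sub]
    congr 1
    rw [← intervalIntegral.integral_const_mul]
    apply intervalIntegral.integral_congr
    intro r _
    simp only
    ring
  have hpos : 0 < ∫ r in (1 : ℝ)..2, r ^ s * χ r := by
    apply intervalIntegral.integral_pos (by norm_num)
    · exact (continuousOn_id.rpow_const fun r hr =>
        Or.inl (by have := hr.1; simp only [id]; linarith)).mul cχ.continuousOn
    · intro r hr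
      exact mul_nonneg (Real.rpow_nonneg (by linarith [hr.1]) _) (hχ0 r)
    · exact ⟨(1 + 2) / 2, by norm_num, mul_pos (Real.rpow_pos_of_pos (by norm_num) _) hχm⟩
  have hdbr := dbr (F := fun t => ⟪WW p β h t • vv h t, w⟫ + K t) (cWv.add hKc) hpi ?_
  · obtain ⟨C, hC⟩ := hdbr
    have h1 : (fun s => ⟪WW p β h s • vv h s, w⟫) =ᶠ[𝓝 t] fun s => C - K s := by
      filter_upwards [Ioo_mem_nhds ht.1 ht.2] with s hs
      have := hC s hs
      linarith
    have h2 : HasDerivAt (fun s => C - K s) (-(κ * ⟪WW p β h t • uu h t, w⟫)) t := by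
      have := (hKd t).const_sub C
      exact this
    exact h2.congr_of_eventuallyEq h1
  · intro ψ hψ hψc hψs
    have h0 := weak_polar hp1 hβ hp hh w hχ hψ hχs hψc hψs
    rw [← hs, hparts] at h0
    have cψ := hψ.continuous
    have cψ' : Continuous (deriv ψ) := hψ.continuous_deriv (by simp)
    have hψ1 : ψ (-Real.pi) = 0 := image_eq_zero_of_notMem_tsupport fun hm => by
      have := (hψs hm).1; linarith
    have hψ2 : ψ Real.pi = 0 := image_eq_zero_of_notMem_tsupport fun hm => by
      have := (hψs hm).2; linarith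
    have e1 : ∫ t in (-Real.pi)..Real.pi, K t * deriv ψ t
        = -∫ t in (-Real.pi)..Real.pi, κ * ⟪WW p β h t • uu h t, w⟫ * ψ t := by
      rw [intervalIntegral.integral_mul_deriv_eq_deriv_mul (fun t _ => hKd t)
        (fun t _ => (hψ.differentiable (by simp) t).hasDerivAt)
        ((continuous_const.mul cWu).intervalIntegrable _ _) (cψ'.intervalIntegrable _ _),
        hψ1, hψ2, mul_zero, mul_zero, sub_zero, zero_sub]
    have e2 : ∫ t in (-Real.pi)..Real.pi, κ * ⟪WW p β h t • uu h t, w⟫ * ψ t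
        = (s + 1) * ∫ t in (-Real.pi)..Real.pi, β * ⟪WW p β h t • uu h t, w⟫ * ψ t := by
      rw [← intervalIntegral.integral_const_mul]
      apply intervalIntegral.integral_congr
      intro r _
      simp only [hκ]
      ring
    have e3 : ∫ t in (-Real.pi)..Real.pi, (⟪WW p β h t • vv h t, w⟫ + K t) * deriv ψ t
        = (∫ t in (-Real.pi)..Real.pi, ⟪WW p β h t • vv h t, w⟫ * deriv ψ t)
          + ∫ t in (-Real.pi)..Real.pi, K t * deriv ψ t := by
      have ia : IntervalIntegrable (fun t => ⟪WW p β h t • vv h t, w⟫ * deriv ψ t) volume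
        (-Real.pi) Real.pi := (cWv.mul cψ').intervalIntegrable _ _
      have ib : IntervalIntegrable (fun t => K t * deriv ψ t) volume
        (-Real.pi) Real.pi := (hKc.mul cψ').intervalIntegrable _ _
      rw [← intervalIntegral.integral_add ia ib]
      apply intervalIntegral.integral_congr
      intro r _
      simp only
      ring
    have e4 : ∫ t, (⟪WW p β h t • vv h t, w⟫ + K t) * deriv ψ t
        = ∫ t in (-Real.pi)..Real.pi, (⟪WW p β h t • vv h t, w⟫ + K t) * deriv ψ t := by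
      rw [intervalIntegral.integral_of_le hpi.le]
      symm
      apply setIntegral_eq_integral_of_forall_compl_eq_zero
      intro t ht
      have h1 : t ∉ tsupport ψ := fun hm => ht ⟨(hψs hm).1, (hψs hm).2.le⟩
      have h2 : t ∉ tsupport (deriv ψ) := fun hm => h1 (tsupport_deriv_subset hm)
      rw [image_eq_zero_of_notMem_tsupport h2, mul_zero]
    rw [e4, e3, e1, e2]
    have h5 : (∫ r in (1 : ℝ)..2, r ^ s * χ r) *
        ((∫ t in (-Real.pi)..Real.pi, ⟪WW p β h t • vv h t, w⟫ * deriv ψ t)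
          - (s + 1) * ∫ t in (-Real.pi)..Real.pi, β * ⟪WW p β h t • uu h t, w⟫ * ψ t) = 0 := by
      linear_combination h0
    rcases mul_eq_zero.mp h5 with h6 | h6
    · exact absurd h6 hpos.ne'
    · linarith

/-- reflected map -/
lemma pharm_neg (hp : IsPHarmonic p h) : IsPHarmonic p fun x => h (-x) := by
  obtain ⟨hc, hw⟩ := hp
  have hg : ∀ {k : E 2 → E n}, ContDiff ℝ 1 k → ∀ x, grad (fun x => k (-x)) x = -grad k (-x) := by
    intro k hk x
    have h1 : HasFDerivAt (fun x : E 2 => k (-x)) (-(fderiv ℝ k (-x))) x := by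
      have h2 : HasFDerivAt (fun x : E 2 => -x) (-(ContinuousLinearMap.id ℝ (E 2))) x :=
        (hasFDerivAt_id x).neg
      have := (hasFD hk (-x)).comp x h2
      refine this.congr_fderiv ?_
      ext v
      simp
    unfold grad
    rw [h1.fderiv]
    ext q
    simp
  refine ⟨hc.comp contDiff_neg, fun φ hφ hφc => ?_⟩
  have hφ1 : ContDiff ℝ 1 fun x => φ (-x) :=
    (hφ.of_le (by exact_mod_cast le_top)).comp contDiff_neg
  have hφc' : HasCompactSupport fun x => φ (-x) := hφc.comp_homeomorph (Homeomorph.neg (E 2))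
  have h1 := hw (fun x => φ (-x)) (hφ.comp contDiff_neg) hφc'
  rw [← integral_neg_eq_self] at h1
  rw [← h1]
  apply integral_congr_ae
  refine Eventually.of_forall fun x => ?_
  simp only
  rw [hg hc, hg (hφ.of_le (by exact_mod_cast le_top)), neg_neg]
  unfold A
  rw [norm_neg, smul_neg, inner_neg_left, inner_neg_right]

lemma homog_neg (hh : Homog β h) : Homog β fun x => h (-x) := by
  intro t ht x
  simp only
  rw [← smul_neg]
  exact hh t ht _

lemma uu_neg (t : ℝ) : uu (fun x => h (-x)) t = uu h (t + Real.pi) := by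
  unfold uu
  rw [er_add_pi]

lemma vv_neg (hc : ContDiff ℝ 1 h) (t : ℝ) : vv (fun x => h (-x)) t = vv h (t + Real.pi) := by
  unfold vv
  have h1 : HasFDerivAt (fun x : E 2 => h (-x)) (-(fderiv ℝ h (-er t))) (er t) := by
    have h2 : HasFDerivAt (fun x : E 2 => -x) (-(ContinuousLinearMap.id ℝ (E 2))) (er t) :=
      (hasFDerivAt_id _).neg
    have := (hasFD hc (-er t)).comp (er t) h2
    refine this.congr_fderiv ?_
    ext v
    simp
  rw [h1.fderiv, er_add_pi, et_add_pi]
  simp

lemma uu_periodic (t : ℝ) : uu h (t + 2 * Real.pi) = uu h t := by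
  unfold uu
  rw [er_periodic]

lemma vv_periodic (t : ℝ) : vv h (t + 2 * Real.pi) = vv h t := by
  unfold vv
  rw [er_periodic, et_periodic]

lemma WW_periodic (t : ℝ) : WW p β h (t + 2 * Real.pi) = WW p β h t := by
  unfold WW
  rw [uu_periodic, vv_periodic]

/-- The first order form of the profile equation, everywhere. -/
lemma flux_deriv_w (hp1 : 1 < p) (hβ : β ≠ 0) (hp : IsPHarmonic p h) (hh : Homog β h) (w : E n)
    (t : ℝ) :
    HasDerivAt (fun s => ⟪WW p β h s • vv h s, w⟫)
      (-((((β - 1) * (p - 1) + 1) * β) * ⟪WW p β h t • uu h t, w⟫)) t := by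
  have hpi := Real.pi_pos
  -- periodic shift
  have hshift : ∀ t : ℝ, HasDerivAt (fun s => ⟪WW p β h s • vv h s, w⟫)
      (-((((β - 1) * (p - 1) + 1) * β) * ⟪WW p β h t • uu h t, w⟫)) t →
      ∀ k : ℤ, HasDerivAt (fun s => ⟪WW p β h s • vv h s, w⟫)
      (-((((β - 1) * (p - 1) + 1) * β) * ⟪WW p β h (t + k * (2 * Real.pi)) •
        uu h (t + k * (2 * Real.pi)), w⟫)) (t + k * (2 * Real.pi)) := by
    intro t ht k
    have hWp : ∀ s, WW p β h (s + k * (2 * Real.pi)) = WW p β h s := fun s =>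
      (Function.Periodic.int_mul (f := WW p β h) WW_periodic k) s
    have hup : ∀ s, uu h (s + k * (2 * Real.pi)) = uu h s := fun s =>
      (Function.Periodic.int_mul (f := uu h) uu_periodic k) s
    have hvp : ∀ s, vv h (s + k * (2 * Real.pi)) = vv h s := fun s =>
      (Function.Periodic.int_mul (f := vv h) vv_periodic k) s
    rw [hWp, hup]
    have e : (fun s => ⟪WW p β h s • vv h s, w⟫)
        = fun s => ⟪WW p β h (s - k * (2 * Real.pi)) • vv h (s - k * (2 * Real.pi)), w⟫ := by
      ext s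
      have h1 := hWp (s - k * (2 * Real.pi))
      have h2 := hvp (s - k * (2 * Real.pi))
      rw [sub_add_cancel] at h1 h2
      rw [h1, h2]
    rw [e]
    have h3 : HasDerivAt (fun s : ℝ => s - k * (2 * Real.pi)) 1 (t + k * (2 * Real.pi)) :=
      (hasDerivAt_id _).sub_const _
    have h4 : HasDerivAt (fun s => ⟪WW p β h s • vv h s, w⟫)
      (-((((β - 1) * (p - 1) + 1) * β) * ⟪WW p β h t • uu h t, w⟫))
      ((fun s : ℝ => s - k * (2 * Real.pi)) (t + k * (2 * Real.pi))) := by
      simpa using ht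
    have := h4.scomp (t + k * (2 * Real.pi)) h3
    simpa [Function.comp_def] using this
  -- reduce to `(-π, π]`
  obtain ⟨k, hk⟩ : ∃ k : ℤ, t - k * (2 * Real.pi) ∈ Ioc (-Real.pi) Real.pi := by
    obtain ⟨k, hk, -⟩ := existsUnique_sub_zsmul_mem_Ioc (a := 2 * Real.pi) (by linarith) t
      (-Real.pi)
    refine ⟨k, ?_⟩
    have : -Real.pi + 2 * Real.pi = Real.pi := by ring
    rw [this] at hk
    simpa using hk
  have hfin : HasDerivAt (fun s => ⟪WW p β h s • vv h s, w⟫)
      (-((((β - 1) * (p - 1) + 1) * β) * ⟪WW p β h (t - k * (2 * Real.pi)) •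
        uu h (t - k * (2 * Real.pi)), w⟫)) (t - k * (2 * Real.pi)) := by
    rcases eq_or_lt_of_le hk.2 with h1 | h1
    · -- at `π`
      rw [h1]
      have h2 := flux_deriv_aux hp1 hβ (pharm_neg hp) (homog_neg hh) w (t := 0)
        ⟨by linarith, by linarith⟩
      have hWn : ∀ s, WW p β (fun x => h (-x)) s = WW p β h (s + Real.pi) := fun s => by
        unfold WW
        rw [uu_neg, vv_neg hp.1]
      simp only [hWn, uu_neg, vv_neg hp.1, zero_add] at h2
      have h3 : HasDerivAt (fun s : ℝ => s - Real.pi) 1 Real.pi := (hasDerivAt_id _).sub_const _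
      have h4 : HasDerivAt (fun s => ⟪WW p β h (s + Real.pi) • vv h (s + Real.pi), w⟫)
        (-((((β - 1) * (p - 1) + 1) * β) * ⟪WW p β h Real.pi • uu h Real.pi, w⟫))
        ((fun s : ℝ => s - Real.pi) Real.pi) := by simpa using h2
      have := HasDerivAt.scomp (h := fun s : ℝ => s - Real.pi) Real.pi h4 h3
      simpa [Function.comp_def] using this
    · exact flux_deriv_aux hp1 hβ hp hh w ⟨hk.1, h1⟩
  have := hshift _ hfin k
  rw [sub_add_cancel] at this
  exact this

/-- The first order form of the profile equation, vector form. -/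
theorem flux_deriv (hp1 : 1 < p) (hβ : β ≠ 0) (hp : IsPHarmonic p h) (hh : Homog β h) (t : ℝ) :
    HasDerivAt (fun s => (NN β (uu h s, vv h s)) ^ ((p - 2) / 2) • vv h s)
      (-((((β - 1) * (p - 1) + 1) * β) * (NN β (uu h t, vv h t)) ^ ((p - 2) / 2)) • uu h t) t := by
  rw [hasDerivAt_iff_hasFDerivAt, ← hasFDerivWithinAt_univ, hasFDerivWithinAt_euclidean]
  intro i
  rw [hasFDerivWithinAt_univ]
  have h1 := flux_deriv_w hp1 hβ hp hh (EuclideanSpace.single i (1 : ℝ)) t
  rw [hasDerivAt_iff_hasFDerivAt] at h1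
  have e1 : (fun s => ⟪WW p β h s • vv h s, EuclideanSpace.single i (1 : ℝ)⟫)
      = fun s => ((NN β (uu h s, vv h s)) ^ ((p - 2) / 2) • vv h s) i := by
    ext s
    simp [WW, EuclideanSpace.inner_single_right]
  rw [e1] at h1
  refine h1.congr_fderiv ?_
  ext
  simp [WW, EuclideanSpace.inner_single_right]
  ring

end

end Pool.Agent.H76.PL
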